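import Pool.Agent.Lib.MP_685082_co.NX.Core

/-! Grids with local rules as models of a finite sketch. -/

namespace Pool.Agent.Lib.MP_685082_co.NX
open Finset

namespace GS

inductive Nd (A G : Type)
  | X | X' | P | Z | V | Wn | st | Y (q : Bool × Bool) | pa (a : A) | pg (g : G)
  deriving Fintype

inductive Ar (A G B : Type)
  | pi1 | pi2' | io | pi2 | s' | zero | bX | bZ | row | bA (a : A) | bG (g : G)
  | bY (q : Bool × Bool) | a (τ : B) | a' (τ : B) | h (k : B × B) | cell (b : Bool)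
  | ga (k : (B × B) × Bool) | pr (k : (B × B) × Bool) | ka (a : A) | kg (g : G)
  | th (g : G) (k : (B × B) × Bool) | to (g : G) (k : (B × B) × Bool)
  | inc (q : Bool × Bool) | thY (q : Bool × Bool) | toY (q : Bool × Bool)
  deriving Fintype

inductive Tr (G B C : Type)
  | pi2 | zero | a' (τ : B) | suc (v : Fin 4) (c : C) | h1 (k : B × B) | h2 (k : B × B)
  | ga1 (k : (B × B) × Bool) | ga2 (k : (B × B) × Bool) | th1 (g : G) (k : (B × B) × Bool)
  | th2 (g : G) (k : (B × B) × Bool) | y1 (q : Bool × Bool) | y2 (q : Bool × Bool)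
  deriving Fintype

inductive Fm
  | P | X' | Z | V | Wn | Y
  deriving DecidableEq

instance : Fintype Fm := ⟨{.P, .X', .Z, .V, .Wn, .Y}, fun x => by cases x <;> simp⟩

inductive En (A G : Type)
  | P | X' | Z | V (a : A) | Wn (g : G) | Y (q : Bool × Bool)
  deriving Fintype

variable {A : Type} {D : ℕ} (Wp : ((Tm D × Tm D) × Bool → A) → Prop) (emb : Bool × Bool → A)

abbrev Gd := {g // Wp g}

def sk : Sk (Nd A (Gd Wp)) (Ar A (Gd Wp) (Tm D)) (Tr (Gd Wp) (Tm D) (Fin D)) Fm
    (En A (Gd Wp)) where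
  src
    | .pi1 | .pi2' | .pi2 | .cell _ => .P
    | .io | .bX => .X'
    | .s' => .X
    | .zero => .st
    | .bZ | .row | .a _ | .a' _ | .h _ | .ga _ => .Z
    | .bA a | .ka a => .pa a
    | .bG g | .kg g | .th g _ | .to g _ => .pg g
    | .bY q | .inc q | .thY q | .toY q => .Y q
    | .pr _ => .Wn
  tgt
    | .pi1 | .io | .pi2 | .zero | .a _ => .X
    | .pi2' | .s' | .a' _ => .X'
    | .bX | .bZ | .bA _ | .bG _ | .bY _ => .st
    | .h _ | .inc _ => .P
    | .cell _ | .ga _ | .pr _ | .ka _ | .th _ _ | .thY _ => .V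
    | .row | .kg _ => .Wn
    | .to g k => .pa (g.1 k)
    | .toY q => .pa (emb q)
  t1
    | .pi2 => .pi2'
    | .zero => .bZ
    | .a' τ => .a τ
    | .suc v c => .a' (v, c.castSucc)
    | .h1 k | .h2 k => .h k
    | .ga1 k => .h k.1
    | .ga2 _ => .row
    | .th1 g _ => .kg g
    | .th2 g k => .to g k
    | .y1 q => .inc q
    | .y2 q => .toY q
  t2
    | .pi2 | .suc _ _ => .io
    | .zero => .zero
    | .a' _ => .s'
    | .h1 _ => .pi1
    | .h2 _ => .pi2
    | .ga1 k => .cell k.2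
    | .ga2 k | .th1 _ k => .pr k
    | .th2 g k => .ka (g.1 k)
    | .y1 _ => .cell true
    | .y2 q => .ka (emb q)
  t3
    | .pi2 => .pi2
    | .zero => .a (3, 0)
    | .a' τ => .a' τ
    | .suc v c => .a (v, c.succ)
    | .h1 k => .a k.1
    | .h2 k => .a k.2
    | .ga1 k | .ga2 k => .ga k
    | .th1 g k | .th2 g k => .th g k
    | .y1 q | .y2 q => .thY q
  fam
    | .P => .P
    | .X' => .X'
    | .Z => .Z
    | .V _ => .V
    | .Wn _ => .Wn
    | .Y _ => .Y
  ea
    | .P => .pi1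
    | .X' => .bX
    | .Z => .h ((0, 0), (1, 0))
    | .V a => .bA a
    | .Wn g => .bG g
    | .Y q => .bY q
  eb
    | .P => .pi2'
    | .X' => .io
    | .Z => .a (2, 0)
    | .V a => .ka a
    | .Wn g => .kg g
    | .Y q => .inc q
  p
    | .P => .X
    | .Z => .P
    | _ => .st
  q
    | .P => .X'
    | .X' | .Z => .X
    | .V => .V
    | .Wn => .Wn
    | .Y => .P

theorem wf : (sk Wp emb).WF where
  loop α := by cases α <;> simp [sk]
  c12 τ := by cases τ <;> rfl
  c13 τ := by cases τ <;> rfl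
  c23 τ := by cases τ <;> rfl
  eab e := by cases e <;> rfl
  ep e := by cases e <;> rfl
  eq e := by cases e <;> rfl
  pq k := by cases k <;> simp [sk]
  sep e e' := by cases e <;> cases e' <;> simp [sk]

noncomputable def sz (N : ℕ) (φ : Bool × Bool → ℕ) : Nd A (Gd Wp) → ℕ
  | .X | .X' => N
  | .P => N ^ 2
  | .Z => N ^ 3
  | .V => Nat.card A
  | .Wn => Nat.card (Gd Wp)
  | .Y q => φ q
  | .st | .pa _ | .pg _ => 1

variable [Fintype A] {N : ℕ} {φ : Bool × Bool → ℕ}

theorem model_of_grid (h : GridSat Wp emb N φ) : Nonempty ((sk Wp emb).Model (sz Wp N φ)) := by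
  classical
  obtain ⟨X, _, s, o, cell, part, hN, hφ, hc, hW⟩ := h
  let a0 : A := emb (true, true)
  let Ω := X × X × X × A × ((Tm D × Tm D) × Bool → A)
  let mX : X → Ω := fun x => (x, o, o, a0, fun _ => a0)
  let mP : X × X → Ω := fun z => (z.1, z.2, o, a0, fun _ => a0)
  let mZ : X × X × X → Ω := fun z => (z.1, z.2.1, z.2.2, a0, fun _ => a0)
  let mV : A → Ω := fun a => (o, o, o, a, fun _ => a0)
  let mW : ((Tm D × Tm D) × Bool → A) → Ω := fun g => (o, o, o, a0, g)
  let tv : Ω → Tm D → X := fun ω => tval s o ω.1 ω.2.1 ω.2.2.1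
  have iX : Function.Injective mX := fun _ _ e => congrArg (·.1) e
  have iP : Function.Injective mP := fun _ _ e =>
    Prod.ext (congrArg (·.1) e) (congrArg (·.2.1) e)
  have iZ : Function.Injective mZ := fun _ _ e =>
    Prod.ext (congrArg (·.1) e) (Prod.ext (congrArg (·.2.1) e) (congrArg (·.2.2.1) e))
  have iV : Function.Injective mV := fun _ _ e => congrArg (·.2.2.2.1) e
  have iW : Function.Injective fun g : Gd Wp => mW g.1 := fun _ _ e =>
    Subtype.ext (congrArg (·.2.2.2.2) e)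
  have uX : ∀ x, mX x ∈ univ.image mX := fun x => mem_image_of_mem _ (mem_univ x)
  have uP : ∀ x, mP x ∈ univ.image mP := fun x => mem_image_of_mem _ (mem_univ x)
  have uV : ∀ x, mV x ∈ univ.image mV := fun x => mem_image_of_mem _ (mem_univ x)
  have uW : ∀ g : Gd Wp, mW g.1 ∈ univ.image fun g : Gd Wp => mW g.1 := fun g =>
    mem_image_of_mem (fun g : Gd Wp => mW g.1) (mem_univ g)
  refine ⟨{
    Ω := Ω
    X := fun
      | .X | .X' => univ.image mX
      | .P => univ.image mP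
      | .Z => univ.image mZ
      | .V => univ.image mV
      | .Wn => univ.image fun g : Gd Wp => mW g.1
      | .Y q => (univ.filter fun z => part z = q).image mP
      | .st | .pa _ | .pg _ => {mX o}
    f := fun α ω => match α with
      | .pi1 => mX ω.1
      | .pi2' | .pi2 => mX ω.2.1
      | .io | .inc _ => ω
      | .s' => mX (s ω.1)
      | .zero | .bX | .bZ | .bA _ | .bG _ | .bY _ | .to _ _ | .toY _ => mX o
      | .a τ => mX (tv ω τ)
      | .a' τ => mX (s (tv ω τ))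
      | .h k => mP (tv ω k.1, tv ω k.2)
      | .cell b => mV (cell b ω.1 ω.2.1)
      | .ga k => mV (cell k.2 (tv ω k.1.1) (tv ω k.1.2))
      | .row => mW fun k => cell k.2 (tv ω k.1.1) (tv ω k.1.2)
      | .pr k => mV (ω.2.2.2.2 k)
      | .ka a => mV a
      | .kg g => mW g.1
      | .th g k => mV (g.1 k)
      | .thY q => mV (emb q)
    cX := fun i => ?_
    hf := fun α z hz => ?_
    tri := fun τ z hz => ?_
    inj := fun e e' he z hz z' hz' h1 h2 => ?_ }⟩
  · cases i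
    · exact (card_image_of_injective _ iX).trans hN
    · exact (card_image_of_injective _ iX).trans hN
    · refine (card_image_of_injective _ iP).trans ?_
      simp [sz, hN, sq]
    · refine (card_image_of_injective _ iZ).trans ?_
      simp only [sz, card_univ, Fintype.card_prod, hN]
      ring
    · exact (card_image_of_injective _ iV).trans Nat.card_eq_fintype_card.symm
    · exact (card_image_of_injective _ iW).trans Nat.card_eq_fintype_card.symm
    · rfl
    · rename_i q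
      refine (card_image_of_injective _ iP).trans (Eq.trans ?_ (hφ q))
      rw [← Set.ncard_coe_finset, coe_filter_univ]
    · rfl
    · rfl
  · cases α
    case io => exact hz
    case inc q => exact image_subset_image (filter_subset _ _) hz
    case row => exact uW ⟨_, hW _ _ _⟩
    case pi1 | pi2' | pi2 | s' | zero | a | a' => exact uX _
    case h => exact uP _
    case cell | ga | pr | ka | th | thY => exact uV _
    case kg => exact uW _
    all_goals exact mem_singleton_self _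
  · cases τ
    case suc v c => exact congrArg mX (Function.iterate_succ_apply' s c _)
    case y1 q =>
      obtain ⟨w, h1, rfl⟩ := mem_image.1 hz
      exact congrArg mV (by rw [← (mem_filter.1 h1).2]; exact (hc _ _).symm)
    all_goals rfl
  · cases e <;> cases e' <;> try exact Fm.noConfusion he
    · obtain ⟨w, _, rfl⟩ := mem_image.1 hz
      obtain ⟨w', _, rfl⟩ := mem_image.1 hz'
      exact ⟨rfl, congrArg mP (Prod.ext (iX h1) (iX h2))⟩
    · exact ⟨rfl, h2⟩
    · obtain ⟨w, _, rfl⟩ := mem_image.1 hz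
      obtain ⟨w', _, rfl⟩ := mem_image.1 hz'
      have k : (w.1, w.2.1) = (w'.1, w'.2.1) := iP h1
      exact ⟨rfl, congrArg mZ
        (Prod.ext (Prod.ext_iff.1 k).1 (Prod.ext (Prod.ext_iff.1 k).2 (iX h2)))⟩
    · exact ⟨congrArg _ (iV h2), (mem_singleton.1 hz).trans (mem_singleton.1 hz').symm⟩
    · exact ⟨congrArg _ (iW h2), (mem_singleton.1 hz).trans (mem_singleton.1 hz').symm⟩
    · obtain ⟨w, k1, rfl⟩ := mem_image.1 hz
      obtain ⟨w', k2, rfl⟩ := mem_image.1 hz'
      refine ⟨congrArg _ ?_, h2⟩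
      rw [← (mem_filter.1 k1).2, ← (mem_filter.1 k2).2, iP h2]

theorem grid_of_model (hφ : ∑ q, φ q = N * N) (M : (sk Wp emb).Model (sz Wp N φ)) :
    GridSat Wp emb N φ := by
  classical
  have one : ∀ i, ∃ u, sz Wp N φ i = 1 → u ∈ M.X i ∧ ∀ z ∈ M.X i, z = u := by
    intro i
    obtain ⟨u0, _⟩ := card_eq_one.1 (M.cX .st)
    by_cases h : sz Wp N φ i = 1
    · obtain ⟨u, hu⟩ := card_eq_one.1 ((M.cX i).trans h)
      exact ⟨u, fun _ => by simp [hu]⟩
    · exact ⟨u0, fun k => absurd k h⟩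
  choose pt hpt using one
  have st : ∀ z ∈ M.X .st, ∀ z' ∈ M.X .st, z = z' := fun z h z' h' =>
    ((hpt .st rfl).2 z h).trans ((hpt .st rfl).2 z' h').symm
  have cX : #(M.X .X) = N := M.cX .X
  have iio : ∀ z ∈ M.X .X', ∀ z' ∈ M.X .X', M.f .io z = M.f .io z' → z = z' :=
    fun z h z' h' e => (M.inj .X' .X' rfl z h z' h'
      (st _ (M.hf .bX z h) _ (M.hf .bX z' h')) e).2
  have iP : ∀ z ∈ M.X .P, ∀ z' ∈ M.X .P, M.f .pi1 z = M.f .pi1 z' → M.f .pi2 z = M.f .pi2 z' →
      z = z' := fun z h z' h' e1 e2 => (M.inj .P .P rfl z h z' h' e1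
        (iio _ (M.hf .pi2' z h) _ (M.hf .pi2' z' h')
          ((M.tri .pi2 z h).symm.trans (e2.trans (M.tri .pi2 z' h'))))).2
  have sP := surjOn_of_injOn_of_card_le (s := M.X .P) (t := M.X .X ×ˢ M.X .X)
    (fun z => (M.f .pi1 z, M.f .pi2 z))
    (fun z h => mem_coe.2 (mem_product.2 ⟨M.hf .pi1 z h, M.hf .pi2 z h⟩))
    (fun z h z' h' e => iP z h z' h' (congrArg Prod.fst e) (congrArg Prod.snd e))
    (by rw [card_product, cX, M.cX .P]; simp [sz, sq])
  have t1 : ∀ k, ∀ z ∈ M.X .Z, M.f (.a k.1) z = M.f .pi1 (M.f (.h k) z) := fun k => M.tri (.h1 k)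
  have t2 : ∀ k, ∀ z ∈ M.X .Z, M.f (.a k.2) z = M.f .pi2 (M.f (.h k) z) := fun k => M.tri (.h2 k)
  have sZ := surjOn_of_injOn_of_card_le (s := M.X .Z) (t := M.X .X ×ˢ M.X .X ×ˢ M.X .X)
    (fun z => (M.f (.a (0, 0)) z, M.f (.a (1, 0)) z, M.f (.a (2, 0)) z))
    (fun z h => mem_coe.2 (mem_product.2 ⟨M.hf (.a _) z h,
      mem_product.2 ⟨M.hf (.a _) z h, M.hf (.a _) z h⟩⟩))
    (fun z h z' h' e => (M.inj .Z .Z rfl z h z' h'
      (iP _ (M.hf (.h _) z h) _ (M.hf (.h _) z' h')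
        ((t1 ((0, 0), (1, 0)) z h).symm.trans ((congrArg Prod.fst e).trans
          (t1 ((0, 0), (1, 0)) z' h')))
        ((t2 ((0, 0), (1, 0)) z h).symm.trans ((congrArg (·.2.1) e).trans
          (t2 ((0, 0), (1, 0)) z' h'))))
      (congrArg (·.2.2) e)).2)
    (by rw [card_product, card_product, cX, M.cX .Z]; simp only [sz]; exact le_of_eq (by ring))
  let κ : A → M.Ω := fun a => M.f (.ka a) (pt (.pa a))
  have iκ : Function.Injective κ := fun a a' e => by
    have h := (hpt (.pa a) rfl).1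
    have h' := (hpt (.pa a') rfl).1
    exact En.V.inj (M.inj (.V a) (.V a') rfl _ h _ h'
      (st _ (M.hf (.bA a) _ h) _ (M.hf (.bA a') _ h')) e).1
  have : Nonempty A := ⟨emb (true, true)⟩
  have lab : ∀ a, ∀ z ∈ M.X (.pa a), Function.invFun κ (M.f (.ka a) z) = a := fun a z h => by
    rw [(hpt (.pa a) rfl).2 z h]
    exact Function.leftInverse_invFun iκ a
  have sW := surjOn_of_injOn_of_card_le (s := (univ : Finset (Gd Wp))) (t := M.X .Wn)
    (fun g => M.f (.kg g) (pt (.pg g))) (fun g _ => M.hf (.kg g) _ (hpt (.pg g) rfl).1)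
    (fun g _ g' _ e => by
      have h := (hpt (.pg g) rfl).1
      have h' := (hpt (.pg g') rfl).1
      exact En.Wn.inj (M.inj (.Wn g) (.Wn g') rfl _ h _ h'
        (st _ (M.hf (.bG g) _ h) _ (M.hf (.bG g') _ h')) e).1)
    (by rw [M.cX .Wn]; exact le_of_eq Nat.card_eq_fintype_card)
  have iY : ∀ q q', ∀ z ∈ M.X (.Y q), ∀ z' ∈ M.X (.Y q'),
      M.f (.inc q) z = M.f (.inc q') z' → q = q' ∧ z = z' := fun q q' z h z' h' e => by
    have k := M.inj (.Y q) (.Y q') rfl z h z' h'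
      (st _ (M.hf (.bY q) _ h) _ (M.hf (.bY q') _ h')) e
    exact ⟨En.Y.inj k.1, k.2⟩
  have sY := surjOn_of_injOn_of_card_le
    (s := (univ : Finset (Bool × Bool)).sigma fun q => M.X (.Y q)) (t := M.X .P)
    (fun u => M.f (.inc u.1) u.2) (fun u h => M.hf (.inc u.1) _ (mem_sigma.1 h).2)
    (fun u h u' h' e => by
      obtain ⟨k1, k2⟩ := iY _ _ _ (mem_sigma.1 h).2 _ (mem_sigma.1 h').2 e
      exact Sigma.ext k1 (heq_of_eq k2))
    (by
      rw [card_sigma, M.cX .P, sum_congr rfl fun q _ => M.cX (.Y q)]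
      simp only [sz]
      rw [hφ, sq])
  have ex : ∀ w : M.X .X × M.X .X, ∃ (q : Bool × Bool) (y : M.Ω), y ∈ M.X (.Y q) ∧
      M.f .pi1 (M.f (.inc q) y) = w.1 ∧ M.f .pi2 (M.f (.inc q) y) = w.2 := by
    intro w
    obtain ⟨p, h1, h2⟩ := sP (mem_coe.2 (mem_product.2 ⟨w.1.2, w.2.2⟩) : (w.1.1, w.2.1) ∈ _)
    obtain ⟨u, h3, rfl⟩ := sY h1
    exact ⟨u.1, u.2, (mem_sigma.1 h3).2, congrArg Prod.fst h2, congrArg Prod.snd h2⟩
  choose part yy hy e1 e2 using ex
  let s : M.X .X → M.X .X := fun x => ⟨M.f .io (M.f .s' x), M.hf .io _ (M.hf .s' _ x.2)⟩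
  let o : M.X .X := ⟨M.f .zero (pt .st), M.hf .zero _ (hpt .st rfl).1⟩
  refine ⟨M.X .X, inferInstance, s, o,
    fun b x y => Function.invFun κ (M.f (.cell b) (M.f (.inc (part (x, y))) (yy (x, y)))), part,
    by rw [Fintype.card_coe, cX], fun q => ?_, fun x y => ?_, fun x y z => ?_⟩
  · refine Eq.trans ?_ ((Set.ncard_coe_finset _).trans (M.cX (.Y q)))
    refine Set.ncard_congr (fun w _ => yy w) (fun w hw => ?_) (fun w w' hw hw' e => ?_)
      fun y h => ?_
    · exact (show part w = q from hw) ▸ hy w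
    · have k : M.f (.inc (part w)) (yy w) = M.f (.inc (part w')) (yy w') := by
        rw [show part w = q from hw, show part w' = q from hw', show yy w = yy w' from e]
      exact Prod.ext (Subtype.ext (by rw [← e1, ← e1, k])) (Subtype.ext (by rw [← e2, ← e2, k]))
    · have hp := M.hf (.inc q) y h
      let w : M.X .X × M.X .X := (⟨_, M.hf .pi1 _ hp⟩, ⟨_, M.hf .pi2 _ hp⟩)
      have k := iY _ _ _ (hy w) _ h (iP _ (M.hf (.inc _) _ (hy w)) _ hp (e1 w) (e2 w))
      exact ⟨w, k.1, k.2⟩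
  · have k1 := M.tri (.y1 _) _ (hy (x, y))
    have k2 := M.tri (.y2 _) _ (hy (x, y))
    exact (congrArg _ (k1.symm.trans k2)).trans (lab _ _ (M.hf (.toY _) _ (hy (x, y))))
  · obtain ⟨ζ, hζ, hv⟩ := sZ (mem_coe.2 (mem_product.2 ⟨x.2, mem_product.2 ⟨y.2, z.2⟩⟩) :
      (x.1, y.1, z.1) ∈ _)
    have val : ∀ τ : Tm D, M.f (.a τ) ζ = (tval s o x y z τ).1 := by
      rintro ⟨v, c⟩
      induction c using Fin.induction with
      | zero =>
        fin_cases v
        · exact congrArg Prod.fst hv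
        · exact congrArg (·.2.1) hv
        · exact congrArg (·.2.2) hv
        · exact (M.tri .zero ζ hζ).trans
            (congrArg _ ((hpt .st rfl).2 _ (M.hf .bZ ζ hζ)))
      | succ c ih =>
        refine (M.tri (.suc v c) ζ hζ).trans ?_
        refine (congrArg _ ((M.tri (.a' _) ζ hζ).trans (congrArg _ ih))).trans ?_
        exact congrArg Subtype.val (Function.iterate_succ_apply' s c _).symm
    obtain ⟨g, _, hg⟩ := sW (M.hf .row ζ hζ)
    convert g.2 using 1
    funext k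
    have hp := (hpt (.pg g) rfl).1
    have k0 : M.f (.inc (part (tval s o x y z k.1.1, tval s o x y z k.1.2)))
        (yy (tval s o x y z k.1.1, tval s o x y z k.1.2)) = M.f (.h k.1) ζ :=
      iP _ (M.hf (.inc _) _ (hy _)) _ (M.hf (.h _) ζ hζ)
        ((e1 _).trans ((val _).symm.trans (t1 _ ζ hζ)))
        ((e2 _).trans ((val _).symm.trans (t2 _ ζ hζ)))
    have k1 : M.f (.cell k.2) (M.f (.h k.1) ζ) = M.f (.pr k) (M.f .row ζ) :=
      (M.tri (.ga1 k) ζ hζ).symm.trans (M.tri (.ga2 k) ζ hζ)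
    have k2 : M.f (.pr k) (M.f (.kg g) (pt (.pg g))) =
        M.f (.ka (g.1 k)) (M.f (.to g k) (pt (.pg g))) :=
      (M.tri (.th1 g k) _ hp).symm.trans (M.tri (.th2 g k) _ hp)
    have k3 : M.f (.kg g) (pt (.pg g)) = M.f .row ζ := hg
    show Function.invFun κ (M.f (.cell k.2) _) = _
    rw [k0, k1, ← k3, k2]
    exact lab _ _ (M.hf (.to g k) _ hp)

end GS

theorem grid_sk {A : Type} [Fintype A] {D : ℕ} (Wp : ((Tm D × Tm D) × Bool → A) → Prop)
    (emb : Bool × Bool → A) :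
    ∃ (I A' T K E : Type) (_ : Fintype I) (_ : Fintype A') (_ : Fintype T) (_ : Fintype K)
      (_ : Fintype E) (_ : Nonempty I) (_ : Nonempty A') (S : Sk I A' T K E)
      (szf : ℕ → (Bool × Bool → ℕ) → I → ℕ), S.WF ∧
      (∀ i, (∃ c e : ℕ, ∀ N φ, szf N φ i = c * N ^ e) ∨ ∃ q, ∀ N φ, szf N φ i = φ q) ∧
      ∀ N φ, 0 < N → ∑ q, φ q = N * N →
        (GridSat Wp emb N φ ↔ Nonempty (S.Model (szf N φ))) := by
  classical
  refine ⟨_, _, _, _, _, inferInstance, inferInstance, inferInstance, inferInstance, inferInstance,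
    ⟨.X⟩, ⟨.io⟩, GS.sk Wp emb, GS.sz Wp, GS.wf Wp emb, fun i => ?_,
    fun N φ _ h => ⟨GS.model_of_grid Wp emb, fun ⟨M⟩ => GS.grid_of_model Wp emb h M⟩⟩
  cases i
  case Y q => exact Or.inr ⟨q, fun _ _ => rfl⟩
  case X => exact Or.inl ⟨1, 1, fun _ _ => by simp [GS.sz]⟩
  case X' => exact Or.inl ⟨1, 1, fun _ _ => by simp [GS.sz]⟩
  case P => exact Or.inl ⟨1, 2, fun _ _ => by simp [GS.sz]⟩
  case Z => exact Or.inl ⟨1, 3, fun _ _ => by simp [GS.sz]⟩
  case V => exact Or.inl ⟨Nat.card A, 0, fun _ _ => by simp [GS.sz]⟩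
  case Wn => exact Or.inl ⟨Nat.card (GS.Gd Wp), 0, fun _ _ => by simp [GS.sz]⟩
  all_goals exact Or.inl ⟨1, 0, fun _ _ => by simp [GS.sz]⟩

end Pool.Agent.Lib.MP_685082_co.NX
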