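import Pool.Agent.Lib.MP_685082_co.NX.Core
import Pool.Agent.Lib.MP_685082_co.Defs

/-! From the Eulerian poset with the blown up flag vector back to a graded poset. -/

namespace Pool.Agent.Lib.MP_685082_co.NX
open Finset Cone

section
variable {Q : Type} [Fintype Q] [PartialOrder Q] {ρ : Q → ℕ}

/-- twins: different elements of one rank with the same elements above and below -/
def l0sTw (ρ : Q → ℕ) (x x' : Q) : Prop :=
  x' ≠ x ∧ ρ x' = ρ x ∧ (∀ y, x < y ↔ x' < y) ∧ ∀ z, z < x ↔ z < x'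

theorem l0s_W_congr (T : Finset ℕ) (x : Q) {u u' : Q} (h : ∀ z, z < u ↔ z < u') :
    W ρ T x u = W ρ T x u' := by
  induction T using Finset.induction_on_max with
  | empty => rw [W_empty, W_empty, propext (h x)]
  | insert k S hS _ =>
    rw [W_insert ρ S k hS, W_insert ρ S k hS]
    exact sum_congr rfl fun z _ => by rw [propext (h z)]

theorem l0s_single (j : ℕ) (x y : Q) :
    W ρ {j} x y = (cnt fun u => ρ u = j ∧ x < u ∧ u < y : ℕ) := by
  classical
  rw [W_single, cnt_sum]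
  push_cast
  exact sum_congr rfl fun u _ => by congr

omit [PartialOrder Q] in
theorem l0s_two {p : Q → Prop} [DecidablePred p] {g : Q → ℝ} (h : ∀ u, p u → 2 ≤ g u)
    (hs : ∑ u, (if p u then g u else 0) = 2 * ∑ u, if p u then (1 : ℝ) else 0) {u : Q}
    (hu : p u) : g u = 2 := by
  have h0 : ∑ u, (if p u then g u - 2 else 0) = 0 := by
    rw [mul_sum, ← sub_eq_zero, ← sum_sub_distrib] at hs
    refine (sum_congr rfl fun u _ => ?_).trans hs
    split_ifs <;> simp
  have := (sum_eq_zero_iff_of_nonneg fun u _ => by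
    split_ifs with h1
    · linarith [h u h1]
    · rfl).1 h0 u (mem_univ u)
  rw [if_pos hu] at this
  linarith

variable (hc : ∀ x y, x ⋖ y → ρ y = ρ x + 1)
include hc

theorem l0s_mid (he : ∀ x y : Q, x < y →
    {z | x ≤ z ∧ z ≤ y ∧ Even (ρ z)}.ncard = {z | x ≤ z ∧ z ≤ y ∧ Odd (ρ z)}.ncard)
    {x y : Q} (h : x < y) (h2 : ρ y = ρ x + 2) : cnt (fun z => x < z ∧ z < y) = 2 := by
  have h3 := he x y h
  rw [ncard_eq_cnt, ncard_eq_cnt] at h3
  have a : ∀ z, x ≤ z → z ≤ y → (ρ z % 2 = ρ x % 2 ↔ z = x ∨ z = y) ∧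
      (ρ z % 2 ≠ ρ x % 2 ↔ x < z ∧ z < y) := by
    intro z h1 h4
    rcases h1.eq_or_lt with rfl | h1
    · simp
    rcases h4.eq_or_lt with rfl | h4
    · simp [h2]
    have := rk_lt hc h1
    have := rk_lt hc h4
    simp only [h1, h4, h1.ne', h4.ne, or_self, iff_false, and_self, iff_true]
    omega
  have b : cnt (fun z => x ≤ z ∧ z ≤ y ∧ ρ z % 2 = ρ x % 2) = 2 := cnt_pair h.ne fun z =>
    ⟨fun k => (a z k.1 k.2.1).1.1 k.2.2, by rintro (rfl | rfl) <;> simp [h.le, h2]⟩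
  have c : cnt (fun z => x < z ∧ z < y) = cnt fun z => x ≤ z ∧ z ≤ y ∧ ρ z % 2 ≠ ρ x % 2 :=
    cnt_congr fun z => ⟨fun k => ⟨k.1.le, k.2.le, (a z k.1.le k.2.le).2.2 k⟩,
      fun k => (a z k.1 k.2.1).2.1 k.2.2⟩
  rw [c]
  refine Eq.trans ?_ b
  simp only [Nat.even_iff, Nat.odd_iff] at h3
  rcases Nat.mod_two_eq_zero_or_one (ρ x) with e | e
  · simpa only [e, ne_eq, Nat.mod_two_not_eq_zero] using h3.symm
  · simpa only [e, ne_eq, Nat.mod_two_not_eq_one] using h3

theorem l0s_twin [BoundedOrder Q] {a : ℕ} (ha : a + 2 ≤ ρ ⊤)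
    (mid : ∀ x y : Q, x < y → ρ y = ρ x + 2 → cnt (fun z => x < z ∧ z < y) = 2)
    (upa : ∀ x, ρ x = a → cnt (fun z => ρ z = a + 1 ∧ x < z) = 2)
    (dnb : ∀ y, ρ y = a + 1 → cnt (fun z => ρ z = a ∧ z < y) = 2)
    (dnc : ∀ y, ρ y = a + 2 → cnt (fun z => ρ z = a + 1 ∧ z < y) = 2)
    {x : Q} (hx : ρ x = a) : ∃! x', l0sTw ρ x x' := by
  obtain ⟨b1, b2, -, hb⟩ := cnt_two (upa x hx)
  obtain ⟨hb1, hxb⟩ := (hb b1).2 (.inl rfl)
  clear hb
  obtain ⟨x', hne, hx'⟩ := cnt_two_of (dnb b1 hb1) (a := x) ⟨hx, hxb⟩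
  obtain ⟨k1, k2⟩ := (hx' x').2 (.inr rfl)
  obtain ⟨c1, hc1, hbc, -⟩ := exists_rank hc (le_top : b1 ≤ ⊤) (a + 2) (by omega) ha
  have hbc' : b1 < c1 := lt_of_le_of_ne hbc (by rintro rfl; omega)
  have up : ∀ w w', ρ w = a → w < b1 → ρ w' = a → w' < b1 → ∀ y, w < y → w' < y := by
    intro w w' h1 h2 h3 h4 y hy
    obtain ⟨z, z1, z2, z3⟩ := exists_next hc hy
    have z4 : w < z := lt_of_le_of_ne z2 (by rintro rfl; omega)
    have z5 : z < c1 := (eq_of_cnt_le (p := fun z => w < z ∧ z < c1)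
      (q := fun z => ρ z = a + 1 ∧ w < z)
      (fun z k => ⟨by have := rk_lt hc k.1; have := rk_lt hc k.2; omega, k.1⟩)
      (by rw [upa w h1, mid w c1 (h2.trans hbc') (by omega)]) z ⟨by omega, z4⟩).2
    exact (eq_of_cnt_le (p := fun z => w' < z ∧ z < c1) (q := fun z => ρ z = a + 1 ∧ z < c1)
      (fun z k => ⟨by have := rk_lt hc k.1; have := rk_lt hc k.2; omega, k.2⟩)
      (by rw [dnc c1 hc1, mid w' c1 (h4.trans hbc') (by omega)]) z
      ⟨by omega, z5⟩).1.trans_le z3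
  have dn : ∀ w w', ρ w = a → w < b1 → ρ w' = a → w' < b1 → ∀ z, z < w → z < w' := by
    intro w w' h1 h2 h3 h4 y hy
    obtain ⟨z, z1, z2, z3⟩ := exists_prev hc hy
    have z4 : z < w := lt_of_le_of_ne z3 (by rintro rfl; omega)
    exact z2.trans_lt (eq_of_cnt_le (p := fun u => z < u ∧ u < b1)
      (q := fun u => ρ u = a ∧ u < b1)
      (fun z k => ⟨by have := rk_lt hc k.1; have := rk_lt hc k.2; omega, k.2⟩)
      (by rw [dnb b1 hb1, mid z b1 (z4.trans h2) (by omega)]) w' ⟨h3, h4⟩).1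
  refine ⟨x', ⟨hne, by omega, fun y => ⟨up _ _ hx hxb k1 k2 y, up _ _ k1 k2 hx hxb y⟩,
    fun y => ⟨dn _ _ hx hxb k1 k2 y, dn _ _ k1 k2 hx hxb y⟩⟩, fun w hw => ?_⟩
  exact ((hx' w).1 ⟨hw.2.1.trans hx, (hw.2.2.1 b1).1 hxb⟩).resolve_left hw.1

theorem l0s_up [BoundedOrder Q] (h0 : ρ ⊥ = 0) {a : ℕ} (ha0 : 0 < a) (ha : a + 2 ≤ ρ ⊤)
    (mid : ∀ x y : Q, x < y → ρ y = ρ x + 2 → cnt (fun z => x < z ∧ z < y) = 2)
    (h : W ρ {a, a + 1} ⊥ ⊤ = 2 * W ρ {a} ⊥ ⊤) (x : Q) (hx : ρ x = a) :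
    cnt (fun z => ρ z = a + 1 ∧ x < z) = 2 := by
  classical
  have top : ∀ u : Q, ρ u ≤ a + 1 → u < ⊤ := fun u hu =>
    lt_top_iff_ne_top.2 (by rintro rfl; omega)
  have bot : ∀ u : Q, ρ u = a → ⊥ < u := fun u hu => bot_lt_iff_ne_bot.2 (by rintro rfl; omega)
  have e : ∀ u, W ρ {a + 1} u ⊤ = (cnt fun z => ρ z = a + 1 ∧ u < z : ℕ) := fun u => by
    rw [l0s_single]
    congr 1
    exact cnt_congr fun z => ⟨fun k => ⟨k.1, k.2.1⟩, fun k => ⟨k.1, k.2, top z k.1.le⟩⟩
  have e1 : ({a, a + 1} : Finset ℕ) = {a + 1} ∪ insert a ∅ := by ext; simp [or_comm]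
  rw [e1, W_split ρ ∅ {a + 1} a (by simp) (by simp), W_single] at h
  have := l0s_two (p := fun u => ρ u = a) (g := fun u => W ρ {a + 1} u ⊤) (u := x)
    (fun u hu => by
      obtain ⟨y, y1, y2, -⟩ := exists_rank hc (le_top : u ≤ ⊤) (a + 2) (by omega) ha
      have y3 : u < y := lt_of_le_of_ne y2 (by rintro rfl; omega)
      have : 2 ≤ cnt fun z => ρ z = a + 1 ∧ u < z :=
        (mid u y y3 (by omega)).ge.trans (cnt_mono fun z k =>
          ⟨by have := rk_lt hc k.1; have := rk_lt hc k.2; omega, k.1⟩)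
      rw [e]
      exact_mod_cast this)
    (by
      refine (sum_congr rfl fun u _ => ?_).trans (h.trans (congrArg _ (sum_congr rfl fun u _ => ?_)))
      · by_cases hu : ρ u = a
        · rw [if_pos hu, if_pos hu, W_empty, if_pos (bot u hu), one_mul]
        · rw [if_neg hu, if_neg hu]
      · by_cases hu : ρ u = a
        · rw [if_pos hu, if_pos ⟨hu, bot u hu, top u (by omega)⟩]
        · rw [if_neg hu, if_neg fun k => hu k.1]) hx
  rw [e] at this
  exact_mod_cast this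

theorem l0s_dn [BoundedOrder Q] (h0 : ρ ⊥ = 0) {a : ℕ} (ha0 : 0 < a) (ha : a + 2 ≤ ρ ⊤)
    (mid : ∀ x y : Q, x < y → ρ y = ρ x + 2 → cnt (fun z => x < z ∧ z < y) = 2)
    (h : W ρ {a, a + 1} ⊥ ⊤ = 2 * W ρ {a + 1} ⊥ ⊤) (x : Q) (hx : ρ x = a + 1) :
    cnt (fun z => ρ z = a ∧ z < x) = 2 := by
  classical
  have top : ∀ u : Q, ρ u ≤ a + 1 → u < ⊤ := fun u hu =>
    lt_top_iff_ne_top.2 (by rintro rfl; omega)
  have bot : ∀ u : Q, a ≤ ρ u → ⊥ < u := fun u hu => bot_lt_iff_ne_bot.2 (by rintro rfl; omega)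
  have e : ∀ u, W ρ {a} ⊥ u = (cnt fun z => ρ z = a ∧ z < u : ℕ) := fun u => by
    rw [l0s_single]
    congr 1
    exact cnt_congr fun z => ⟨fun k => ⟨k.1, k.2.2⟩, fun k => ⟨k.1, bot z k.1.ge, k.2⟩⟩
  rw [pair_comm, W_insert ρ {a} (a + 1) (by simp), W_single ρ (a + 1)] at h
  have := l0s_two (p := fun u => ρ u = a + 1) (g := fun u => W ρ {a} ⊥ u) (u := x)
    (fun u hu => by
      obtain ⟨y, y1, -, y2⟩ := exists_rank hc (bot_le : ⊥ ≤ u) (a - 1) (by omega) (by omega)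
      have y3 : y < u := lt_of_le_of_ne y2 (by rintro rfl; omega)
      have : 2 ≤ cnt fun z => ρ z = a ∧ z < u :=
        (mid y u y3 (by omega)).ge.trans (cnt_mono fun z k =>
          ⟨by have := rk_lt hc k.1; have := rk_lt hc k.2; omega, k.2⟩)
      rw [e]
      exact_mod_cast this)
    (by
      refine (sum_congr rfl fun u _ => ?_).trans (h.trans (congrArg _ (sum_congr rfl fun u _ => ?_)))
      · by_cases hu : ρ u = a + 1
        · rw [if_pos hu, if_pos ⟨hu, top u hu.le⟩]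
        · rw [if_neg hu, if_neg fun k => hu k.1]
      · by_cases hu : ρ u = a + 1
        · rw [if_pos hu, if_pos ⟨hu, bot u (by omega), top u hu.le⟩]
        · rw [if_neg hu, if_neg fun k => hu k.1]) hx
  rw [e] at this
  exact_mod_cast this

end

theorem L0S {n n' : ℕ} (h : 4 * n ≤ n') {v : Finset ℕ → ℕ}
    (hv : IsFlagVec n' fun S => (E4 n v S : ℤ)) : IsGr n v := by
  classical
  obtain ⟨Q, _, _, _, ρ, h0, h1, hc, he, hf⟩ := hv
  have := Fintype.ofFinite Q
  have hW : ∀ S ⊆ Icc 1 n', W ρ S ⊥ ⊤ = E4 n v S := fun S hS => by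
    rw [← flag_eq_W hc h0 h1 S (fun k => by simpa using hS k), flag]
    have := hf S hS
    beta_reduce at this
    exact_mod_cast this.symm
  have mid := fun x y => l0s_mid hc he (x := x) (y := y)
  have htw : ∀ x, ρ x % 4 = 1 → ρ x ≤ 4 * n → ∃! x', l0sTw ρ x x' := by
    intro x x1 x2
    have s1 : ∀ j, j < 3 → W ρ {ρ x + j} ⊥ ⊤ = 2 * v ({(ρ x + 3) / 4} : Finset ℕ) := by
      intro j hj
      rw [hW _ (by simp; omega), E4, image_singleton, filter_singleton, if_pos (by omega),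
        show (ρ x + j + 3) / 4 = (ρ x + 3) / 4 by omega]
      simp
    have s2 : ∀ j, j < 2 → W ρ {ρ x + j, ρ x + j + 1} ⊥ ⊤ =
        4 * v ({(ρ x + 3) / 4} : Finset ℕ) := by
      intro j hj
      rw [hW _ (by simp [insert_subset_iff]; omega), E4, image_insert, image_singleton,
        show (ρ x + j + 3) / 4 = (ρ x + 3) / 4 by omega,
        show (ρ x + j + 1 + 3) / 4 = (ρ x + 3) / 4 by omega, pair_eq_singleton, filter_singleton,
        if_pos (by omega), card_pair (by omega)]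
      norm_num
    have a0 := s1 0 (by omega)
    have a1 := s1 1 (by omega)
    have a2 := s1 2 (by omega)
    have b0 := s2 0 (by omega)
    have b1 := s2 1 (by omega)
    rw [add_zero] at a0 b0
    exact l0s_twin hc (a := ρ x) (by omega) mid
      (l0s_up hc h0 (by omega) (by omega) mid (by rw [a0, b0]; ring))
      (l0s_dn hc h0 (by omega) (by omega) mid (by rw [a1, b0]; ring))
      (l0s_dn hc h0 (a := ρ x + 1) (by omega) (by omega) mid (by rw [a2, b1]; ring)) rfl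
  have ex : ∀ x, ∃ x', ρ x % 4 = 1 → ρ x ≤ 4 * n → l0sTw ρ x x' := fun x => by
    by_cases k : ρ x % 4 = 1 ∧ ρ x ≤ 4 * n
    · obtain ⟨x', hx', -⟩ := htw x k.1 k.2
      exact ⟨x', fun _ _ => hx'⟩
    · exact ⟨x, fun a b => absurd ⟨a, b⟩ k⟩
  choose tw ht using ex
  have tt : ∀ x, ρ x % 4 = 1 → ρ x ≤ 4 * n → tw (tw x) = x := fun x a b => by
    obtain ⟨k1, k2, k3, k4⟩ := ht x a b
    exact (htw (tw x) (by omega) (by omega)).unique (ht _ (by omega) (by omega))
      ⟨k1.symm, k2.symm, fun y => (k3 y).symm, fun y => (k4 y).symm⟩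
  let idx : Q → ℕ := fun x => Fintype.equivFin Q x
  have hidx : Function.Injective idx := fun x y k =>
    (Fintype.equivFin Q).injective (Fin.ext k)
  let q : Q → Prop := fun x =>
    x = ⊥ ∨ x = ⊤ ∨ (ρ x % 4 = 1 ∧ ρ x ≤ 4 * n ∧ idx x < idx (tw x))
  have flip : ∀ x, ρ x % 4 = 1 → ρ x ≤ 4 * n → (q (tw x) ↔ ¬ q x) := fun x a b => by
    obtain ⟨k1, k2, -, -⟩ := ht x a b
    have n1 : x ≠ ⊥ := by rintro rfl; omega
    have n2 : x ≠ ⊤ := by rintro rfl; omega
    have n3 : tw x ≠ ⊥ := fun k => by rw [k] at k2; omega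
    have n4 : tw x ≠ ⊤ := fun k => by rw [k] at k2; omega
    have n5 : idx (tw x) ≠ idx x := fun k => k1 (hidx k)
    simp only [q, n1, n2, n3, n4, false_or, k2, a, b, true_and, tt x a b]
    omega
  let _ : BoundedOrder {x // q x} := Subtype.boundedOrder (.inl rfl) (.inr (.inl rfl))
  let r : {x // q x} → ℕ := fun x => if x.1 = ⊤ then n + 1 else (ρ x.1 + 3) / 4
  have bt : (⊥ : Q) ≠ ⊤ := fun k => by rw [k] at h0; omega
  have hr : ∀ x : {x // q x}, (x.1 = ⊥ ∧ r x = 0 ∧ ρ x.1 = 0) ∨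
      (x.1 = ⊤ ∧ r x = n + 1 ∧ ρ x.1 = n' + 1) ∨
      (1 ≤ r x ∧ r x ≤ n ∧ ρ x.1 + 3 = 4 * r x) := by
    rintro ⟨x, rfl | rfl | ⟨a, b, -⟩⟩
    · exact .inl ⟨rfl, (if_neg bt).trans (by rw [h0]), h0⟩
    · exact .inr (.inl ⟨rfl, if_pos rfl, h1⟩)
    · have n2 : x ≠ ⊤ := by rintro rfl; omega
      simp only [r, n2, if_false]
      omega
  have key : ∀ S : Finset ℕ, S ⊆ Icc 1 n → ∀ y : {x // q x},
      W ρ (S.image fun s => 4 * s - 3) ⊥ y.1 = 2 ^ S.card * W r S ⊥ y := by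
    intro S
    induction S using Finset.induction_on_max with
    | empty =>
      intro _ y
      rw [image_empty, W_empty, W_empty, card_empty, pow_zero, one_mul]
      exact if_congr Iff.rfl rfl rfl
    | insert k S hS ih =>
      intro hsub y
      have hk := mem_Icc.1 (hsub (mem_insert_self _ _))
      have hsub' := (subset_insert k S).trans hsub
      rw [image_insert, W_insert ρ _ _ (by
        intro s hs
        obtain ⟨s, hs', rfl⟩ := mem_image.1 hs
        have := hS s hs'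
        have := mem_Icc.1 (hsub' hs')
        omega), W_insert r S k hS, card_insert_of_notMem fun k' => lt_irrefl _ (hS k k')]
      set T := S.image fun s => 4 * s - 3
      let g : Q → ℝ := fun u => if ρ u = 4 * k - 3 ∧ u < y.1 then W ρ T ⊥ u else 0
      have e1 : ∑ u with ¬ q u, g u = ∑ u with q u, g u := by
        have z : ∀ (p : Q → Prop) [DecidablePred p],
            ∑ u with p u, g u = ∑ u with p u ∧ ρ u = 4 * k - 3, g u :=
          fun p _ => (sum_subset (fun u hu => by simp at hu ⊢; exact hu.1) fun u hu hu' => by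
            simp at hu hu'
            simp [g, hu' hu]).symm
        rw [z, z q]
        refine sum_nbij' tw tw ?_ ?_ ?_ ?_ ?_ <;> intro u hu <;>
          simp only [mem_filter, mem_univ, true_and] at hu ⊢ <;>
          obtain ⟨a, b⟩ : ρ u % 4 = 1 ∧ ρ u ≤ 4 * n := by omega
        · exact ⟨(flip u a b).2 hu.1, (ht u a b).2.1.trans hu.2⟩
        · exact ⟨fun k => (flip u a b).1 k hu.1, (ht u a b).2.1.trans hu.2⟩
        · exact tt u a b
        · exact tt u a b
        · obtain ⟨-, k2, k3, k4⟩ := ht u a b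
          simp only [g, k2, k3, l0s_W_congr T ⊥ k4]
      have e2 : ∑ u with q u, g u = ∑ u : {x // q x}, g u.1 := sum_subtype _ (by simp) g
      change ∑ u, g u = _
      rw [← sum_filter_add_sum_filter_not univ q, e1, e2, ← two_mul, pow_succ', mul_assoc]
      congr 1
      rw [mul_sum]
      refine sum_congr rfl fun u _ => ?_
      have e3 : (ρ u.1 = 4 * k - 3 ∧ u.1 < y.1) ↔ (r u = k ∧ u < y) :=
        and_congr (by have := hr u; omega) Iff.rfl
      simp only [g, e3]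
      split_ifs
      · exact ih hsub' u
      · simp
  refine ⟨{x // q x}, inferInstance, inferInstance, inferInstance, r, ?_, ?_, ?_, ?_⟩
  · change (if (⊥ : Q) = ⊤ then n + 1 else (ρ ⊥ + 3) / 4) = 0
    simp [bt, h0]
  · exact if_pos rfl
  · intro x y hxy
    have l1 : x.1 < y.1 := hxy.lt
    have l2 := rk_lt hc l1
    have l3 := rk_le hc (le_top : y.1 ≤ ⊤)
    have hx := hr x
    have hy := hr y
    by_contra hne
    obtain ⟨z, z1, z2, z3⟩ := exists_rank hc l1.le (4 * r x + 1) (by omega) (by omega)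
    have z4 : x.1 < z := lt_of_le_of_ne z2 fun k => by rw [← k] at z1; omega
    have z5 : z < y.1 := lt_of_le_of_ne z3 fun k => by rw [k] at z1; omega
    have a : ρ z % 4 = 1 := by omega
    have b : ρ z ≤ 4 * n := by omega
    by_cases hz : q z
    · exact hxy.2 (c := ⟨z, hz⟩) z4 z5
    · obtain ⟨-, -, k3, k4⟩ := ht z a b
      exact hxy.2 (c := ⟨tw z, (flip z a b).2 hz⟩) ((k4 _).1 z4) ((k3 _).1 z5)
  · intro S hS
    have inj : Set.InjOn (fun s => 4 * s - 3) (S : Set ℕ) := fun a ha b hb k => by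
      have := mem_Icc.1 (hS ha)
      have := mem_Icc.1 (hS hb)
      simp only at k
      omega
    have k := key S hS ⊤
    have e : ((S.image fun s => 4 * s - 3).image fun s => (s + 3) / 4).filter (· ≤ n) = S := by
      rw [image_image, image_congr (g := id) fun a ha => by
        have := mem_Icc.1 (hS ha)
        simp only [Function.comp, id]
        omega, image_id]
      exact filter_true_of_mem fun a ha => (mem_Icc.1 (hS ha)).2
    rw [show ((⊤ : {x // q x}) : Q) = ⊤ from rfl, hW _ (by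
      intro s hs
      obtain ⟨s, hs', rfl⟩ := mem_image.1 hs
      have := mem_Icc.1 (hS hs')
      rw [mem_Icc]
      omega), E4, e, card_image_of_injOn inj] at k
    push_cast at k
    exact (mul_left_cancel₀ (by positivity) k).symm

end Pool.Agent.Lib.MP_685082_co.NX
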