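import Pool.Agent.Lib.MP_685082_co.NX.Blow

/-! From a core to a graded poset with the flag vector of its visible numbers. -/

namespace Pool.Agent.Lib.MP_685082_co.NX

open Finset Cone

namespace Side

variable {L M : Type} (D : Side L M)

def l1cLt : D.Pt → D.Pt → Prop
  | none, some _ => True
  | some (.inl l), some (.inr x) => D.t x = l
  | _, _ => False

def l1cRk : D.Pt → ℕ
  | none => 0
  | some (.inl _) => 1
  | some (.inr _) => 2

def l1cPr : D.Pt → Pr L
  | none => none
  | some (.inl l) => some (l, none)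
  | some (.inr x) => some (D.t x, some (D.mark x))

noncomputable def l1cSp [Fintype L] : D.Pt → ℕ
  | none => 0
  | some (.inl l) => lev l
  | some (.inr _) => Fintype.card L + 2

def l1cOn : D.Pt → Prop
  | none => False
  | some (.inl _) => True
  | some (.inr x) => D.mark x = true

open Classical in
noncomputable def l1cLam (w : D.Pt → ℝ) (b1 b2 : Prop) : D.Pt → ℝ
  | none => if ¬ b1 ∧ ¬ b2 then 1 else 0
  | some (.inl l) => if b1 ∧ ¬ b2 then w (some (.inl l)) else 0
  | some (.inr x) =>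
      if b2 then (if b1 then w (some (.inl (D.t x))) else 1) * w (some (.inr x)) else 0

variable {D}

theorem l1c_rk {p q : D.Pt} (h : D.l1cLt p q) : D.l1cRk p < D.l1cRk q := by
  rcases p with _ | p | p <;> rcases q with _ | q | q <;> simp_all [l1cLt, l1cRk]

theorem l1c_rk_le (p : D.Pt) : D.l1cRk p ≤ 2 := by
  rcases p with _ | p | p <;> simp [l1cRk]

theorem l1c_trans {p q r : D.Pt} (h : D.l1cLt p q) (h' : D.l1cLt q r) : D.l1cLt p r := by
  rcases p with _ | p | p <;> rcases q with _ | q | q <;> rcases r with _ | r | r <;>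
    simp_all [l1cLt]

theorem l1c_rel {p q : D.Pt} {m : M} (h : D.l1cLt p q) (h' : D.rel q m) : D.rel p m := by
  rcases p with _ | p | p <;> rcases q with _ | q | q <;> simp_all [l1cLt, rel]
  exact ⟨q, h, h'⟩

theorem l1c_ex (hM : Nonempty M) (h1 : D.Up) (h3 : D.Onto) (p : D.Pt) : ∃ m, D.rel p m := by
  rcases p with _ | l | x
  · exact ⟨hM.some, trivial⟩
  · obtain ⟨x, hx⟩ := h3 l
    obtain ⟨m, hm⟩ := h1 x
    exact ⟨m, x, hx, hm⟩
  · exact h1 x

theorem l1c_mid {p q : D.Pt} (h : D.l1cLt p q) (h2 : D.l1cRk q ≠ D.l1cRk p + 1) :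
    ∃ z, D.l1cLt p z ∧ D.l1cLt z q := by
  rcases p with _ | p | p <;> rcases q with _ | q | q <;> simp_all [l1cLt, l1cRk]
  exact ⟨some (.inl (D.t q)), trivial, rfl⟩

theorem l1c_mid' (h2 : D.Down) {p : D.Pt} {m : M} (h : D.rel p m) (h3 : D.l1cRk p ≠ 2) :
    ∃ z, D.l1cLt p z ∧ D.rel z m := by
  rcases p with _ | l | x
  · obtain ⟨x, hx⟩ := h2 m
    exact ⟨some (.inr x), trivial, hx⟩
  · obtain ⟨x, k1, k2⟩ := h
    exact ⟨some (.inr x), k1, k2⟩
  · exact absurd rfl h3

theorem l1c_sel (a : Pr L) (p : D.Pt) : D.sel a p ↔ D.l1cPr p = a := by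
  rcases a with _ | ⟨l, _ | b⟩ <;> rcases p with _ | p | p <;> simp [sel, l1cPr]

theorem l1c_lev [Fintype L] (l : L) : 1 ≤ lev l ∧ lev l ≤ Fintype.card L :=
  ⟨Nat.le_add_left _ _, (Fintype.equivFin L l).2⟩

open Classical in
theorem l1c_coef [Fintype L] (S : Finset ℕ) (w : D.Pt → ℝ) (b1 b2 : Prop)
    (hw : ∀ p, w p = if D.l1cSp p ∈ S ∧ D.l1cOn p then 2 else 1)
    (h1 : b1 ↔ ∃ s ∈ S, s ≤ Fintype.card L + 1)
    (h2 : b2 ↔ Fintype.card L + 2 ∈ S ∨ Fintype.card L + 3 ∈ S) (p : D.Pt) :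
    D.l1cLam w b1 b2 p = coef L S (D.l1cPr p) := by
  rcases p with _ | l | x
  · have : (¬ b1 ∧ ¬ b2) ↔ ∀ s ∈ S, Fintype.card L + 3 < s := by
      rw [h1, h2]
      constructor
      · rintro ⟨k1, k2⟩ s hs
        by_contra k3
        have k4 : ¬ s ≤ Fintype.card L + 1 := fun h => k1 ⟨s, hs, h⟩
        have k5 : s ≠ Fintype.card L + 2 := fun h => k2 (Or.inl (h ▸ hs))
        have k6 : s ≠ Fintype.card L + 3 := fun h => k2 (Or.inr (h ▸ hs))
        omega
      · intro h
        refine ⟨?_, ?_⟩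
        · rintro ⟨s, hs, k⟩
          have := h s hs; omega
        · rintro (k | k) <;> have := h _ k <;> omega
    simp only [l1cLam, l1cPr, coef, this]
    split_ifs <;> simp
  · simp only [l1cLam, l1cPr, coef, hw, l1cSp, l1cOn, h1, h2, not_or, and_true]
    split_ifs <;> simp
  · have k : lev (D.t x) ∈ S → b1 := fun h => h1.2 ⟨_, h, by have := l1c_lev (D.t x); omega⟩
    simp only [l1cLam, l1cPr, coef, hw, l1cSp, l1cOn, ← h2, and_true]
    by_cases k1 : b1 <;> by_cases k2 : b2 <;> by_cases k3 : lev (D.t x) ∈ S <;>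
      by_cases k4 : Fintype.card L + 2 ∈ S <;> by_cases k5 : D.mark x = true <;>
      first | exact absurd (k k3) k1 | (simp [k1, k2, k3, k4, k5]; done) |
        (simp [k1, k2, k3, k4, k5]; norm_num)

theorem l1c_sum [Fintype L] (f : D.Pt → ℝ) :
    ∑ p, f p = f none + (∑ l, f (some (.inl l)) + ∑ x, f (some (.inr x))) := by
  rw [Fintype.sum_option, Fintype.sum_sum_type]

end Side

namespace Core

variable {L U : Type} (c : Core L U)

inductive l1cB : Type
  | lo (p : c.lo.Pt)
  | mid (m : c.M)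
  | hi (q : c.hi.Pt)

def l1cE : c.lo.Pt ⊕ c.M ⊕ c.hi.Pt ≃ c.l1cB where
  toFun
    | .inl p => .lo p
    | .inr (.inl m) => .mid m
    | .inr (.inr q) => .hi q
  invFun
    | .lo p => .inl p
    | .mid m => .inr (.inl m)
    | .hi q => .inr (.inr q)
  left_inv x := by rcases x with _ | _ | _ <;> rfl
  right_inv x := by rcases x with _ | _ | _ <;> rfl

noncomputable instance [Fintype L] [Fintype U] : Fintype c.l1cB := Fintype.ofEquiv _ c.l1cE

def l1cLt : c.l1cB → c.l1cB → Prop
  | .lo p, .lo p' => c.lo.l1cLt p p'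
  | .lo p, .mid m => c.lo.rel p m
  | .lo p, .hi q => ∃ m, c.lo.rel p m ∧ c.hi.rel q m
  | .mid m, .hi q => c.hi.rel q m
  | .hi q, .hi q' => c.hi.l1cLt q' q
  | _, _ => False

def l1cRk : c.l1cB → ℕ
  | .lo p => c.lo.l1cRk p
  | .mid _ => 3
  | .hi q => 6 - c.hi.l1cRk q

variable {c}

theorem l1c_ll (p q : c.lo.Pt) : c.l1cLt (.lo p) (.lo q) = c.lo.l1cLt p q := rfl

theorem l1c_hh (p q : c.hi.Pt) : c.l1cLt (.hi p) (.hi q) = c.hi.l1cLt q p := rfl

theorem l1c_lm (p : c.lo.Pt) (m : c.M) : c.l1cLt (.lo p) (.mid m) ↔ c.lo.rel p m := Iff.rfl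

theorem l1c_mh (m : c.M) (q : c.hi.Pt) : c.l1cLt (.mid m) (.hi q) ↔ c.hi.rel q m := Iff.rfl

theorem l1c_lh (p : c.lo.Pt) (q : c.hi.Pt) :
    c.l1cLt (.lo p) (.hi q) ↔ ∃ m, c.lo.rel p m ∧ c.hi.rel q m := Iff.rfl

theorem l1c_rk {x y : c.l1cB} (h : c.l1cLt x y) : c.l1cRk x < c.l1cRk y := by
  rcases x with p | m | q <;> rcases y with p' | m' | q' <;> simp only [l1cLt, l1cRk] at h ⊢
  · exact Side.l1c_rk h
  · have := Side.l1c_rk_le p; omega
  · have := Side.l1c_rk_le p; have := Side.l1c_rk_le q'; omega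
  · have := Side.l1c_rk_le q'; omega
  · have := Side.l1c_rk h; have := Side.l1c_rk_le q; omega

theorem l1c_trans {x y z : c.l1cB} (h : c.l1cLt x y) (h' : c.l1cLt y z) : c.l1cLt x z := by
  rcases x with p | m | q <;> rcases y with p' | m' | q' <;> rcases z with p'' | m'' | q'' <;>
    simp only [l1cLt] at h h' ⊢
  · exact Side.l1c_trans h h'
  · exact Side.l1c_rel h h'
  · obtain ⟨m, k1, k2⟩ := h'
    exact ⟨m, Side.l1c_rel h k1, k2⟩
  · exact ⟨_, h, h'⟩
  · obtain ⟨m, k1, k2⟩ := h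
    exact ⟨m, k1, Side.l1c_rel h' k2⟩
  · exact Side.l1c_rel h' h
  · exact Side.l1c_trans h' h

instance : PartialOrder c.l1cB where
  le p q := p = q ∨ c.l1cLt p q
  le_refl _ := Or.inl rfl
  le_trans p q r h1 h2 := by
    rcases h1 with rfl | h1
    · exact h2
    · rcases h2 with rfl | h2
      · exact Or.inr h1
      · exact Or.inr (l1c_trans h1 h2)
  le_antisymm p q h1 h2 := by
    rcases h1 with rfl | h1
    · rfl
    · rcases h2 with rfl | h2
      · rfl
      · have := l1c_rk h1; have := l1c_rk h2; omega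

theorem l1c_lt (p q : c.l1cB) : p < q ↔ c.l1cLt p q := by
  rw [lt_iff_le_and_ne]
  constructor
  · rintro ⟨h | h, h2⟩
    · exact absurd h h2
    · exact h
  · intro h
    exact ⟨Or.inr h, by rintro rfl; exact lt_irrefl _ (l1c_rk h)⟩

theorem l1c_cov (h2 : c.lo.Down) (h5 : c.hi.Down) (x y : c.l1cB) (h : x ⋖ y) :
    c.l1cRk y = c.l1cRk x + 1 := by
  by_contra k
  have k1 := (l1c_lt _ _).1 h.1
  suffices ∃ z, c.l1cLt x z ∧ c.l1cLt z y by
    obtain ⟨z, k2, k3⟩ := this
    exact h.2 ((l1c_lt _ _).2 k2) ((l1c_lt _ _).2 k3)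
  rcases x with p | m | q <;> rcases y with p' | m' | q' <;> simp only [l1cLt, l1cRk] at k k1
  · obtain ⟨z, k2, k3⟩ := Side.l1c_mid k1 k
    exact ⟨.lo z, k2, k3⟩
  · obtain ⟨z, k2, k3⟩ := Side.l1c_mid' h2 k1 (by omega)
    exact ⟨.lo z, k2, k3⟩
  · obtain ⟨m, k2, k3⟩ := k1
    exact ⟨.mid m, k2, k3⟩
  · obtain ⟨z, k2, k3⟩ := Side.l1c_mid' h5 k1 (by omega)
    exact ⟨.hi z, k3, k2⟩
  · obtain ⟨z, k2, k3⟩ := Side.l1c_mid k1 (by have := Side.l1c_rk_le q; omega)
    exact ⟨.hi z, k3, k2⟩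

variable [Fintype L] [Fintype U]

theorem l1c_sum (f : c.l1cB → ℝ) : ∑ x, f x =
    ∑ p, f (.lo p) + (∑ m, f (.mid m) + ∑ q, f (.hi q)) :=
by
  rw [← c.l1cE.sum_comp, Fintype.sum_sum_type, Fintype.sum_sum_type]
  rfl

theorem l1c_s1 (f : c.l1cB → ℝ) (h : ∀ u, c.l1cRk u ≠ 1 → f u = 0) :
    ∑ x, f x = ∑ l, f (.lo (some (.inl l))) := by
  rw [l1c_sum, Side.l1c_sum, h _ (by simp [l1cRk, Side.l1cRk]),
    sum_eq_zero (f := fun x => f (.lo (some (.inr x)))) fun x _ => h _ (by simp [l1cRk, Side.l1cRk]),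
    sum_eq_zero (f := fun x => f (.mid x)) fun x _ => h _ (by simp [l1cRk]),
    sum_eq_zero (f := fun x => f (.hi x)) fun x _ =>
      h _ (by have := Side.l1c_rk_le x; simp only [l1cRk]; omega)]
  simp

theorem l1c_s2 (f : c.l1cB → ℝ) (h : ∀ u, c.l1cRk u ≠ 2 → f u = 0) :
    ∑ x, f x = ∑ l, f (.lo (some (.inr l))) := by
  rw [l1c_sum, Side.l1c_sum, h _ (by simp [l1cRk, Side.l1cRk]),
    sum_eq_zero (f := fun x => f (.lo (some (.inl x)))) fun x _ => h _ (by simp [l1cRk, Side.l1cRk]),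
    sum_eq_zero (f := fun x => f (.mid x)) fun x _ => h _ (by simp [l1cRk]),
    sum_eq_zero (f := fun x => f (.hi x)) fun x _ =>
      h _ (by have := Side.l1c_rk_le x; simp only [l1cRk]; omega)]
  simp

theorem l1c_s3 (f : c.l1cB → ℝ) (h : ∀ u, c.l1cRk u ≠ 3 → f u = 0) :
    ∑ x, f x = ∑ l, f (.mid l) := by
  rw [l1c_sum,
    sum_eq_zero (f := fun x => f (.lo x)) fun x _ =>
      h _ (by have := Side.l1c_rk_le x; simp only [l1cRk]; omega),
    sum_eq_zero (f := fun x => f (.hi x)) fun x _ =>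
      h _ (by have := Side.l1c_rk_le x; simp only [l1cRk]; omega)]
  simp

theorem l1c_s4 (f : c.l1cB → ℝ) (h : ∀ u, c.l1cRk u ≠ 4 → f u = 0) :
    ∑ x, f x = ∑ l, f (.hi (some (.inr l))) := by
  rw [l1c_sum, Side.l1c_sum (D := c.hi), h (.hi none) (by simp [l1cRk, Side.l1cRk]),
    sum_eq_zero (f := fun x => f (.hi (some (.inl x)))) fun x _ =>
      h _ (by simp [l1cRk, Side.l1cRk]),
    sum_eq_zero (f := fun x => f (.mid x)) fun x _ => h _ (by simp [l1cRk]),
    sum_eq_zero (f := fun x => f (.lo x)) fun x _ =>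
      h _ (by have := Side.l1c_rk_le x; simp only [l1cRk]; omega)]
  simp

theorem l1c_s5 (f : c.l1cB → ℝ) (h : ∀ u, c.l1cRk u ≠ 5 → f u = 0) :
    ∑ x, f x = ∑ l, f (.hi (some (.inl l))) := by
  rw [l1c_sum, Side.l1c_sum (D := c.hi), h (.hi none) (by simp [l1cRk, Side.l1cRk]),
    sum_eq_zero (f := fun x => f (.hi (some (.inr x)))) fun x _ =>
      h _ (by simp [l1cRk, Side.l1cRk]),
    sum_eq_zero (f := fun x => f (.mid x)) fun x _ => h _ (by simp [l1cRk]),
    sum_eq_zero (f := fun x => f (.lo x)) fun x _ =>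
      h _ (by have := Side.l1c_rk_le x; simp only [l1cRk]; omega)]
  simp

open Classical in
theorem l1c_low (ω : c.l1cB → ℝ) (T : Finset ℕ) (hT : T ⊆ {1, 2}) (y : c.l1cB) :
    Ww c.l1cRk ω T (.lo none) y =
      ∑ p, c.lo.l1cLam (fun p => ω (.lo p)) (1 ∈ T) (2 ∈ T) p *
        if c.l1cLt (.lo p) y then 1 else 0 := by
  have e1 : ∀ y, Ww c.l1cRk ω {1} (.lo none) y =
      ∑ l, ω (.lo (some (.inl l))) * if c.l1cLt (.lo (some (.inl l))) y then 1 else 0 := by
    intro y
    rw [← insert_empty_eq, Ww_insert _ _ _ _ (by simp), l1c_s1 _ fun u hu => by simp [hu]]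
    refine sum_congr rfl fun l _ => ?_
    rw [Ww_empty]
    simp [l1c_lt, l1cRk, Side.l1cRk, l1c_ll, Side.l1cLt]
  rw [Side.l1c_sum]
  by_cases a1 : 1 ∈ T <;> by_cases a2 : 2 ∈ T
  · obtain rfl : T = insert 2 {1} := by
      ext s
      have := @hT s
      simp only [mem_insert, mem_singleton] at this ⊢
      exact ⟨fun h => (this h).symm, by rintro (rfl | rfl) <;> assumption⟩
    rw [Ww_insert _ _ _ _ (by simp), l1c_s2 _ fun u hu => by simp [hu]]
    simp only [Side.l1cLam, a1, a2]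
    simp only [not_true_eq_false, and_false, if_false, zero_mul, sum_const_zero, zero_add, if_true]
    refine sum_congr rfl fun x _ => ?_
    rw [e1, sum_eq_single (c.lo.t x) (fun l _ h => by simp [l1c_ll, Side.l1cLt, h.symm]) (by simp)]
    simp [l1c_lt, l1cRk, Side.l1cRk, l1c_ll, Side.l1cLt, mul_comm]
  · obtain rfl : T = {1} := by
      ext s
      have := @hT s
      simp only [mem_insert, mem_singleton] at this ⊢
      exact ⟨fun h => (this h).resolve_right (by rintro rfl; exact a2 h), by rintro rfl; exact a1⟩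
    rw [e1]
    simp [Side.l1cLam]
  · obtain rfl : T = insert 2 ∅ := by
      ext s
      have := @hT s
      simp only [mem_insert, mem_singleton, notMem_empty, or_false] at this ⊢
      exact ⟨fun h => (this h).resolve_left (by rintro rfl; exact a1 h), by rintro rfl; exact a2⟩
    rw [Ww_insert _ _ _ _ (by simp), l1c_s2 _ fun u hu => by simp [hu]]
    simp only [Side.l1cLam, a1, a2]
    simp only [not_true_eq_false, and_false, if_false, zero_mul, sum_const_zero, zero_add, if_true]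
    refine sum_congr rfl fun x _ => ?_
    rw [Ww_empty]
    simp [l1c_lt, l1cRk, Side.l1cRk, l1c_ll, Side.l1cLt]
  · obtain rfl : T = ∅ := by
      ext s
      have := @hT s
      simp only [mem_insert, mem_singleton, notMem_empty, iff_false] at this ⊢
      intro h
      rcases this h with rfl | rfl <;> contradiction
    rw [Ww_empty]
    simp [Side.l1cLam, l1c_lt]

open Classical in
theorem l1c_up (ω : c.l1cB → ℝ) (S T : Finset ℕ) (hS : ∀ s ∈ S, s ≤ 3) (hT : T ⊆ {4, 5}) :
    Ww c.l1cRk ω (T ∪ S) (.lo none) (.hi none) =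
      ∑ q, c.hi.l1cLam (fun q => ω (.hi q)) (5 ∈ T) (4 ∈ T) q *
        Ww c.l1cRk ω S (.lo none) (.hi q) := by
  have e1 : ∀ y, Ww c.l1cRk ω (insert 4 S) (.lo none) y =
      ∑ x, if c.l1cLt (.hi (some (.inr x))) y then ω (.hi (some (.inr x))) *
        Ww c.l1cRk ω S (.lo none) (.hi (some (.inr x))) else 0 := by
    intro y
    rw [Ww_insert _ _ _ _ (fun s hs => by have := hS s hs; omega),
      l1c_s4 _ fun u hu => by simp [hu]]
    simp [l1c_lt, l1cRk, Side.l1cRk]
  rw [Side.l1c_sum]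
  by_cases a1 : 5 ∈ T <;> by_cases a2 : 4 ∈ T
  · obtain rfl : T = insert 5 {4} := by
      ext s
      have := @hT s
      simp only [mem_insert, mem_singleton] at this ⊢
      exact ⟨fun h => (this h).symm, by rintro (rfl | rfl) <;> assumption⟩
    rw [insert_union, ← insert_eq, Ww_insert _ _ _ _ (by
      intro s hs
      rcases mem_insert.1 hs with rfl | hs
      · omega
      · have := hS s hs; omega), l1c_s5 _ fun u hu => by simp [hu]]
    simp only [Side.l1cLam, a1, a2, e1]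
    simp only [not_true_eq_false, and_false, if_false, zero_mul, sum_const_zero, zero_add, if_true,
      l1c_lt, l1cRk, Side.l1cRk, l1c_hh, Side.l1cLt, and_self, mul_sum]
    rw [sum_comm]
    refine sum_congr rfl fun x _ => ?_
    rw [sum_eq_single (c.hi.t x) (fun l _ h => by simp [h.symm]) (by simp)]
    simp [mul_assoc]
  · obtain rfl : T = {5} := by
      ext s
      have := @hT s
      simp only [mem_insert, mem_singleton] at this ⊢
      exact ⟨fun h => (this h).resolve_left (by rintro rfl; exact a2 h), by rintro rfl; exact a1⟩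
    rw [← insert_eq, Ww_insert _ _ _ _ (fun s hs => by have := hS s hs; omega),
      l1c_s5 _ fun u hu => by simp [hu]]
    simp [Side.l1cLam, l1c_lt, l1cRk, Side.l1cRk, l1c_hh, Side.l1cLt]
  · obtain rfl : T = {4} := by
      ext s
      have := @hT s
      simp only [mem_insert, mem_singleton] at this ⊢
      exact ⟨fun h => (this h).resolve_right (by rintro rfl; exact a1 h), by rintro rfl; exact a2⟩
    rw [← insert_eq, e1]
    simp [Side.l1cLam, l1c_hh, Side.l1cLt]
  · obtain rfl : T = ∅ := by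
      ext s
      have := @hT s
      simp only [mem_insert, mem_singleton, notMem_empty, iff_false] at this ⊢
      intro h
      rcases this h with rfl | rfl <;> contradiction
    simp [Side.l1cLam]

open Classical in
noncomputable def l1cN (c : Core L U) : Bool → c.lo.Pt → c.hi.Pt → ℝ
  | true, p, q => ∑ m, if c.lo.rel p m ∧ c.hi.rel q m then 1 else 0
  | false, p, q => if ∃ m, c.lo.rel p m ∧ c.hi.rel q m then 1 else 0

open Classical in
theorem l1c_vis (a : Pr L) (β : Bool) (e : Pr U) : (c.vis a β e : ℝ) =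
    ∑ p, ∑ q, if c.lo.l1cPr p = a ∧ c.hi.l1cPr q = e then c.l1cN β p q else 0 := by
  have key : ∀ {α : Type} [Fintype α] (P : α → Prop),
      ({z | P z}.ncard : ℝ) = ∑ z, if P z then 1 else 0 := by
    intro α _ P
    rw [sum_boole, ← Set.ncard_coe_finset]
    congr 2
    ext z
    simp
  cases β
  · simp only [vis, key, Fintype.sum_prod_type, Side.l1c_sel, l1cN]
    refine sum_congr rfl fun p _ => sum_congr rfl fun q _ => ?_
    by_cases k1 : c.lo.l1cPr p = a <;> by_cases k2 : c.hi.l1cPr q = e <;> simp [k1, k2]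
  · simp only [vis, key, Fintype.sum_prod_type, Side.l1c_sel, l1cN]
    refine sum_congr rfl fun p _ => sum_comm.trans (sum_congr rfl fun q _ => ?_)
    by_cases k1 : c.lo.l1cPr p = a <;> by_cases k2 : c.hi.l1cPr q = e <;> simp [k1, k2]

theorem l1c_phi (S : Finset ℕ) : (Phi c.vis S : ℝ) =
    ∑ q, (coef U (S.image fun s => nlev L U + 1 - s) (c.hi.l1cPr q) : ℝ) *
      ∑ p, (coef L S (c.lo.l1cPr p) : ℝ) * c.l1cN (decide (Fintype.card L + 4 ∈ S)) p q := by
  classical
  unfold Phi
  push_cast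
  simp only [l1c_vis, mul_sum]
  rw [sum_comm (s := (univ : Finset c.hi.Pt))]
  refine (sum_congr rfl fun a _ => sum_comm).trans (sum_comm.trans (sum_congr rfl fun p _ => ?_))
  refine (sum_congr rfl fun a _ => sum_comm).trans (sum_comm.trans (sum_congr rfl fun q _ => ?_))
  rw [sum_eq_single (c.lo.l1cPr p) (fun a _ h => by simp [h.symm]) (by simp),
    sum_eq_single (c.hi.l1cPr q) (fun a _ h => by simp [h.symm]) (by simp)]
  simp only [and_self, if_true]
  ring

open Classical in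
theorem l1c_cnt (ω : c.l1cB → ℝ) (hω : ∀ m, ω (.mid m) = 1) (T : Finset ℕ) (hT : T ⊆ Icc 1 5) :
    Ww c.l1cRk ω T (.lo none) (.hi none) =
      ∑ q, c.hi.l1cLam (fun q => ω (.hi q)) (5 ∈ T) (4 ∈ T) q *
        ∑ p, c.lo.l1cLam (fun p => ω (.lo p)) (1 ∈ T) (2 ∈ T) p * c.l1cN (decide (3 ∈ T)) p q := by
  have e : T = T.filter (4 ≤ ·) ∪ T.filter (· ≤ 3) := by
    ext s
    simp only [mem_union, mem_filter, ← and_or_left]
    exact ⟨fun h => ⟨h, by omega⟩, fun h => h.1⟩
  have hlo : T.filter (· ≤ 2) ⊆ {1, 2} := by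
    intro s hs
    have := mem_Icc.1 (hT (mem_filter.1 hs).1)
    have := (mem_filter.1 hs).2
    simp only [mem_insert, mem_singleton]
    omega
  conv_lhs => rw [e]
  rw [l1c_up ω _ _ (fun s hs => (mem_filter.1 hs).2) (by
    intro s hs
    have := mem_Icc.1 (hT (mem_filter.1 hs).1)
    have := (mem_filter.1 hs).2
    simp only [mem_insert, mem_singleton]
    omega)]
  refine sum_congr rfl fun q _ => ?_
  congr 1
  · simp
  by_cases h3 : 3 ∈ T
  · have e3 : T.filter (· ≤ 3) = insert 3 (T.filter (· ≤ 2)) := by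
      ext s
      simp only [mem_insert, mem_filter]
      constructor
      · rintro ⟨k1, k2⟩
        by_cases k : s = 3
        · exact Or.inl k
        · exact Or.inr ⟨k1, by omega⟩
      · rintro (rfl | ⟨k1, k2⟩)
        · exact ⟨h3, le_rfl⟩
        · exact ⟨k1, by omega⟩
    rw [e3, Ww_insert _ _ _ _ (fun s hs => by have := (mem_filter.1 hs).2; omega),
      l1c_s3 _ fun u hu => by simp [hu]]
    simp only [l1c_low ω _ hlo, h3, decide_true, l1cN, mul_sum, hω, one_mul, l1c_lt]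
    rw [sum_comm]
    refine sum_congr rfl fun m _ => ?_
    by_cases k : c.hi.rel q m <;> simp [k, l1c_lm, l1c_mh, l1cRk]
  · have e3 : T.filter (· ≤ 3) = T.filter (· ≤ 2) := by
      ext s
      simp only [mem_filter]
      refine and_congr_right fun k => ?_
      have : s ≠ 3 := by rintro rfl; exact h3 k
      omega
    rw [e3, l1c_low ω _ hlo]
    simp [h3, l1cN, l1c_lh]

noncomputable def l1cSp (c : Core L U) : c.l1cB → ℕ
  | .lo p => c.lo.l1cSp p
  | .mid _ => 0
  | .hi q => nlev L U + 1 - c.hi.l1cSp q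

def l1cOn (c : Core L U) : c.l1cB → Prop
  | .lo p => c.lo.l1cOn p
  | .mid _ => False
  | .hi q => c.hi.l1cOn q

end Core

def l1cPi (k n s : ℕ) : ℕ :=
  if s < 1 then 0 else if s ≤ k + 1 then 1 else if s ≤ k + 3 then 2 else if s ≤ k + 4 then 3
    else if s ≤ k + 6 then 4 else if s ≤ n then 5 else 6

theorem l1c_pi (k n s : ℕ) : (s < 1 ∧ l1cPi k n s = 0) ∨ (1 ≤ s ∧ s ≤ k + 1 ∧ l1cPi k n s = 1) ∨
    (k + 1 < s ∧ s ≤ k + 3 ∧ l1cPi k n s = 2) ∨ (s = k + 4 ∧ l1cPi k n s = 3) ∨
    (k + 4 < s ∧ s ≤ k + 6 ∧ l1cPi k n s = 4) ∨ (k + 6 < s ∧ s ≤ n ∧ l1cPi k n s = 5) ∨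
    (k + 6 < s ∧ n < s ∧ l1cPi k n s = 6) := by
  unfold l1cPi
  split_ifs <;> omega

theorem l1c_im {k n : ℕ} {S : Finset ℕ} {j : ℕ} {a b : ℕ}
    (h : ∀ s, l1cPi k n s = j ↔ s = a ∨ s = b) : j ∈ S.image (l1cPi k n) ↔ a ∈ S ∨ b ∈ S := by
  rw [mem_image]
  constructor
  · rintro ⟨s, hs, k1⟩
    rcases (h s).1 k1 with rfl | rfl
    · exact Or.inl hs
    · exact Or.inr hs
  · rintro (k1 | k1)
    · exact ⟨_, k1, (h _).2 (Or.inl rfl)⟩
    · exact ⟨_, k1, (h _).2 (Or.inr rfl)⟩

theorem L1C {L U : Type} [Fintype L] [Fintype U] (c : Core L U) (h1 : c.lo.Up) (h2 : c.lo.Down)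
    (h3 : c.lo.Onto) (h4 : c.hi.Up) (h5 : c.hi.Down) (h6 : c.hi.Onto) :
    IsGr (nlev L U) (Phi c.vis) := by
  classical
  let _ : BoundedOrder c.l1cB :=
    { bot := .lo none
      top := .hi none
      bot_le := by
        rintro ((_ | p) | m | q)
        · exact Or.inl rfl
        · exact Or.inr trivial
        · exact Or.inr trivial
        · obtain ⟨m, hm⟩ := Side.l1c_ex c.ne h4 h6 q
          exact Or.inr ⟨m, trivial, hm⟩
      le_top := by
        rintro (p | m | (_ | q))
        · obtain ⟨m, hm⟩ := Side.l1c_ex c.ne h1 h3 p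
          exact Or.inr ⟨m, hm, trivial⟩
        · exact Or.inr trivial
        · exact Or.inl rfl
        · exact Or.inr trivial }
  have hn : nlev L U = Fintype.card L + Fintype.card U + 7 := rfl
  have hp := l1c_pi (Fintype.card L) (nlev L U)
  obtain ⟨P, i1, i2, i3, r, r0, r1, rc, hW, -⟩ := blowup c.l1cRk 5 (nlev L U) rfl rfl
    (Core.l1c_cov h2 h5) (l1cPi (Fintype.card L) (nlev L U)) rfl
    (by have := hp (nlev L U + 1); omega) (by have := hp 1; omega)
    (fun s => by have := hp s; have := hp (s + 1); omega)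
    (fun s x => if s = c.l1cSp x ∧ c.l1cOn x then 2 else 1)
    (fun s x => by split_ifs <;> omega) (if_neg fun h => h.2) (if_neg fun h => h.2)
  refine ⟨P, i1, i2, i3, r, r0, r1, rc, fun S hS => ?_⟩
  clear r0 r1 rc
  have hS' : ∀ s ∈ S, 1 ≤ s ∧ s ≤ nlev L U := fun s hs => mem_Icc.1 (hS hs)
  have hT : S.image (l1cPi (Fintype.card L) (nlev L U)) ⊆ Icc 1 5 := by
    intro t ht
    obtain ⟨s, hs, rfl⟩ := mem_image.1 ht
    have := hS' s hs
    have := hp s
    rw [mem_Icc]
    omega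
  have hsp : ∀ x, c.l1cOn x → l1cPi (Fintype.card L) (nlev L U) (c.l1cSp x) = c.l1cRk x := by
    rintro ((_ | l | x) | m | (_ | l | x)) h
    · exact h.elim
    · have := Side.l1c_lev l
      have := hp (lev l)
      change l1cPi _ _ (lev l) = 1
      omega
    · have := hp (Fintype.card L + 2)
      change l1cPi _ _ (Fintype.card L + 2) = 2
      omega
    · exact h.elim
    · exact h.elim
    · have := Side.l1c_lev l
      have := hp (nlev L U + 1 - lev l)
      change l1cPi _ _ (nlev L U + 1 - lev l) = 5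
      omega
    · have := hp (nlev L U + 1 - (Fintype.card U + 2))
      change l1cPi _ _ (nlev L U + 1 - (Fintype.card U + 2)) = 4
      omega
  have hω : ∀ x, (∏ s ∈ S with l1cPi (Fintype.card L) (nlev L U) s = c.l1cRk x,
      ((if s = c.l1cSp x ∧ c.l1cOn x then 2 else 1 : ℕ) : ℝ)) =
      if c.l1cSp x ∈ S ∧ c.l1cOn x then 2 else 1 := by
    intro x
    by_cases k : c.l1cOn x
    · simp [k, apply_ite (Nat.cast : ℕ → ℝ), prod_ite_eq', hsp x k]
    · simp [k]
  have hm : ∀ t, 1 ≤ t → t ≤ nlev L U →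
      (t ∈ S.image (fun s => nlev L U + 1 - s) ↔ nlev L U + 1 - t ∈ S) := by
    intro t t1 t2
    rw [mem_image]
    constructor
    · rintro ⟨s, hs, rfl⟩
      have := hS' s hs
      rwa [show nlev L U + 1 - (nlev L U + 1 - s) = s by omega]
    · exact fun h => ⟨_, h, by omega⟩
  rw [hW S hS, prod_eq_one fun s _ => by
      rw [if_neg fun h => h.2]
      exact Nat.cast_one,
    one_mul, erase_eq_of_notMem fun h => by have := mem_Icc.1 (hT h); omega, Core.l1c_phi]
  simp only [hω]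
  refine (Core.l1c_cnt _ (fun m => if_neg fun h => h.2) _ hT).trans (sum_congr rfl fun q _ => ?_)
  have e3 : 3 ∈ S.image (l1cPi (Fintype.card L) (nlev L U)) ↔ Fintype.card L + 4 ∈ S :=
    (l1c_im (a := Fintype.card L + 4) (b := Fintype.card L + 4)
      fun s => by have := hp s; omega).trans or_self_iff
  rw [Side.l1c_coef (S.image fun s => nlev L U + 1 - s)]
  · congr 1
    refine sum_congr rfl fun p _ => ?_
    rw [Side.l1c_coef S]
    · simp only [e3]
    · intro p
      exact if_congr Iff.rfl rfl rfl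
    · rw [mem_image]
      refine exists_congr fun s => and_congr_right fun hs => ?_
      have := hS' s hs
      have := hp s
      omega
    · exact l1c_im fun s => by have := hp s; omega
  · intro q
    refine if_congr (and_congr_left fun k => (hm _ ?_ ?_).symm) rfl rfl
    · rcases q with _ | l | x
      · exact k.elim
      · exact (Side.l1c_lev l).1
      · exact Nat.le_add_left 1 _
    · rcases q with _ | l | x
      · exact k.elim
      · have := (Side.l1c_lev l).2
        change lev l ≤ _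
        omega
      · change Fintype.card U + 2 ≤ _
        omega
  · simp only [mem_image, exists_exists_and_eq_and]
    refine exists_congr fun s => and_congr_right fun hs => ?_
    have := hS' s hs
    have := hp s
    omega
  · rw [hm _ (by omega) (by omega), hm _ (by omega) (by omega)]
    exact l1c_im fun s => by have := hp s; omega

end Pool.Agent.Lib.MP_685082_co.NX
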