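import Pool.Agent.Lib.MP_685082_co.NX.L1Sa

/-! Soundness of the first layer. -/

namespace Pool.Agent.Lib.MP_685082_co.NX

open Finset Cone

section
variable {P : Type} [Fintype P] [PartialOrder P] {ρ : P → ℕ}
  (hc : ∀ x y, x ⋖ y → ρ y = ρ x + 1) [BoundedOrder P] {n : ℕ} (h0 : ρ ⊥ = 0) (h1 : ρ ⊤ = n + 1)
  {L : Type} [Fintype L]
include hc h0 h1

theorem l1s_hub (hn : Fintype.card L + 4 ≤ n) (g : Pr L → ℝ)
    (hW : ∀ S ⊆ Icc 1 (Fintype.card L + 3), W ρ S ⊥ ⊤ = ∑ a, (coef L S a : ℝ) * g a)
    (g1 : ∀ l, g (some (l, none)) = 1) (g2 : ∀ l, g (some (l, some true)) = 1) (l : L) :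
    ∃ t d : P, ρ t = Fintype.card L + 1 ∧ ρ d = Fintype.card L + 3 ∧ t < d ∧
      ∀ x, Fintype.card L + 3 < ρ x →
        l1sComb L (some (l, none)) (fun S => W ρ S ⊥ x) = W ρ ∅ t x ∧
        l1sComb L (some (l, some true)) (fun S => W ρ S ⊥ x) = W ρ ∅ d x ∧
        l1sComb L (some (l, some false)) (fun S => W ρ S ⊥ x) =
          W ρ {Fintype.card L + 3} t x - W ρ ∅ d x := by
  classical
  have hl := l1s_lev l
  have hcomb : ∀ a, l1sComb L a (fun S => W ρ S ⊥ ⊤) = g a := fun a => by
    rw [l1s_congr a hW, l1s_coef]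
  have htop : ∀ j, j ≤ n → ∀ y, ρ y = j → y < ⊤ := fun j hj y hy =>
    lt_top_iff_ne_top.2 (by rintro rfl; omega)
  have u1 : W ρ {Fintype.card L + 1, lev l} ⊥ ⊤ = W ρ {lev l} ⊥ ⊤ := by
    rw [hW _ (by simp [insert_subset_iff]; omega), hW _ (by simp; omega)]
    refine sum_congr rfl fun a _ => ?_
    congr 2
    have e1 : ¬ Fintype.card L + 3 < lev l := by omega
    have e2 : lev l ≤ Fintype.card L + 1 := by omega
    have e3 : Fintype.card L + 2 ≠ lev l := by omega
    have e4 : Fintype.card L + 3 ≠ lev l := by omega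
    rcases a with _ | ⟨l', _ | b⟩
    · simp [coef, e1]
    · have := l1s_lev l'
      have e5 : lev l' ≠ Fintype.card L + 1 := by omega
      simp [coef, e2, e3, e4, e5]
    · simp [coef, e3, e4]
  have u2 : W ρ {Fintype.card L + 3, Fintype.card L + 2} ⊥ ⊤ = W ρ {Fintype.card L + 2} ⊥ ⊤ := by
    rw [hW _ (by simp [insert_subset_iff]), hW _ (by simp)]
    refine sum_congr rfl fun a _ => ?_
    congr 2
    rcases a with _ | ⟨l', _ | b⟩
    · simp [coef]
    · simp [coef]
    · have := l1s_lev l'
      have e5 : lev l' ≠ Fintype.card L + 3 := by omega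
      simp [coef, e5]
  have v1 := l1s_uniq hc h0 h1 (by omega) (by omega) (by omega) u1
  have v2 := l1s_uniq hc h0 h1 (by omega) (by omega) (by omega) u2
  obtain ⟨t, t1, -, t3⟩ := l1s_exc hc (b := ⊥) (c := ⊤) (i := lev l) (j := Fintype.card L + 1)
    (by omega) (by omega) (by
      have := hcomb (some (l, none))
      simp only [l1sComb, g1] at this
      rw [u1]; linarith) (htop _ (by omega))
  have w1 : ∀ x, Fintype.card L + 1 < ρ x →
      W ρ {lev l} ⊥ x - W ρ {Fintype.card L + 1} ⊥ x = W ρ ∅ t x := fun x hx => by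
    rw [← v1 ⊥ x hx, t3]; ring
  have w2 : ∀ r, Fintype.card L + 1 < r → ∀ x,
      W ρ {r, lev l} ⊥ x - W ρ {r, Fintype.card L + 1} ⊥ x = W ρ {r} t x := fun r hr x => by
    rw [l1s_pair (by omega), l1s_pair hr, l1s_single, ← sum_sub_distrib]
    refine sum_congr rfl fun u _ => ?_
    split_ifs with e
    · exact w1 u (by omega)
    · simp
  obtain ⟨d, d1, d2, d3⟩ := l1s_exc hc (b := t) (c := ⊤) (i := Fintype.card L + 2)
    (j := Fintype.card L + 3) (by omega) (by omega) (by
      have := hcomb (some (l, some true))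
      simp only [l1sComb, g2] at this
      rw [w2 _ (by omega), w2 _ (by omega)] at this
      rw [v2 t ⊤ (by omega)]; linarith) (htop _ (by omega))
  refine ⟨t, d, t1, d1, d2, fun x hx => ⟨w1 x (by omega), ?_, ?_⟩⟩
  all_goals
    simp only [l1sComb]
    rw [w2 _ (by omega), w2 _ (by omega), ← v2 t x hx, d3]
    ring

open Classical in
theorem l1s_side (hn : Fintype.card L + 4 ≤ n) (g : Pr L → ℝ)
    (hW : ∀ S ⊆ Icc 1 (Fintype.card L + 3), W ρ S ⊥ ⊤ = ∑ a, (coef L S a : ℝ) * g a)
    (g1 : ∀ l, g (some (l, none)) = 1) (g2 : ∀ l, g (some (l, some true)) = 1)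
    {M : Type} (ι : M → P) (hι : ∀ m, ρ (ι m) = Fintype.card L + 4)
    (hι' : ∀ x, ρ x = Fintype.card L + 4 → ∃ m, ι m = x) :
    ∃ (D : Side L M) (emb : D.Pt → P), D.Up ∧ (∀ p, ρ (emb p) ≤ Fintype.card L + 3) ∧
      (∀ p m, D.rel p m ↔ emb p < ι m) ∧
      ∀ a (R : Finset ℕ), (∀ s ∈ R, Fintype.card L + 3 < s) → ∀ y, Fintype.card L + 3 < ρ y →
        l1sComb L a (fun S => W ρ (R ∪ S) ⊥ y) =
          ∑ p, if D.sel a p then W ρ R (emb p) y else 0 := by
  choose t d t1 d1 d2 H using l1s_hub hc h0 h1 hn g hW g1 g2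
  let D : Side L M :=
    { A := {z : L × P // ρ z.2 = Fintype.card L + 3 ∧ t z.1 < z.2}
      fin := inferInstance
      r := fun z m => z.1.2 < ι m
      t := fun z => z.1.1
      mark := fun z => decide (z.1.2 = d z.1.1) }
  let emb : D.Pt → P := fun p => match p with
    | none => ⊥
    | some (.inl l) => t l
    | some (.inr z) => z.1.2
  have hsum : ∀ (l : L) (b : Bool) (φ : P → ℝ),
      (∑ p, if D.sel (some (l, some b)) p then φ (emb p) else 0) =
        ∑ u, if (ρ u = Fintype.card L + 3 ∧ t l < u) ∧ decide (u = d l) = b then φ u else 0 := by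
    intro l b φ
    rw [← sum_filter, ← sum_filter]
    refine sum_bij (fun p _ => emb p) ?_ ?_ ?_ (fun _ _ => rfl)
    · intro p hp
      obtain ⟨x, rfl, rfl, rfl⟩ := (mem_filter.1 hp).2
      exact mem_filter.2 ⟨mem_univ _, x.2, rfl⟩
    · intro p hp q hq e
      obtain ⟨x, rfl, e1, -⟩ := (mem_filter.1 hp).2
      obtain ⟨y, rfl, e2, -⟩ := (mem_filter.1 hq).2
      have : x = y := Subtype.ext (Prod.ext (e1.trans e2.symm) e)
      rw [this]
    · intro u hu
      obtain ⟨e1, e2⟩ := (mem_filter.1 hu).2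
      exact ⟨some (.inr ⟨(l, u), e1⟩), mem_filter.2 ⟨mem_univ _, _, rfl, rfl, e2⟩, rfl⟩
  refine ⟨D, emb, ?_, ?_, ?_, ?_⟩
  · intro x
    have := x.2.1
    obtain ⟨z, z1, z2, -⟩ := exists_rank hc (le_top (a := x.1.2)) (Fintype.card L + 4)
      (by omega) (by omega)
    obtain ⟨m, rfl⟩ := hι' z z1
    exact ⟨m, lt_of_le_of_ne z2 fun e => by rw [e] at this; omega⟩
  · rintro (_ | l | z)
    · simp [emb, h0]
    · simp [emb, t1]
    · exact z.2.1.le
  · rintro (_ | l | z) m
    · have := hι m
      exact ⟨fun _ => bot_lt_iff_ne_bot.2 fun e => by rw [e] at this; omega, fun _ => trivial⟩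
    · refine ⟨?_, fun h => ?_⟩
      · rintro ⟨x, rfl, h⟩
        exact x.2.2.trans h
      · obtain ⟨z, z1, z2, z3⟩ := l1s_mid hc h (j := Fintype.card L + 3)
          (by simp [emb, t1]) (by rw [hι]; omega)
        exact ⟨⟨(l, z), z1, z2⟩, rfl, z3⟩
    · rfl
  · intro a R
    induction R using Finset.induction_on_max with
    | empty =>
      intro _ y hy
      simp only [empty_union]
      rcases a with _ | ⟨l, _ | b⟩
      · simp [l1sComb, Side.sel, emb]
      · rw [(H l y hy).1]
        simp [Side.sel, emb]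
      · rw [hsum l b fun u => W ρ ∅ u y]
        cases b
        · rw [(H l y hy).2.2, W_single, sub_eq_iff_eq_add,
            ← sum_ite_eq_of_mem' univ (d l) (fun u => W ρ ∅ u y) (mem_univ _), ← sum_add_distrib]
          refine sum_congr rfl fun u _ => ?_
          by_cases e : u = d l
          · subst e
            simp [W_empty, d1, d2]
          · by_cases e1 : ρ u = Fintype.card L + 3 <;> by_cases e2 : t l < u <;>
              simp [W_empty, e, e1, e2]
        · rw [(H l y hy).2.1, sum_eq_single (d l)]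
          · simp [d1, d2]
          · intro u _ e
            simp [e]
          · simp
    | insert m R hm ih =>
      intro hR y hy
      have hm' := hR m (mem_insert_self _ _)
      rw [l1s_congr a (G := fun S => ∑ u, if ρ u = m ∧ u < y then W ρ (R ∪ S) ⊥ u else 0),
        l1s_sum]
      · simp only [l1s_ite, W_insert ρ R m hm]
        rw [sum_congr rfl (g := fun u => ∑ p, if D.sel a p then
          (if ρ u = m ∧ u < y then W ρ R (emb p) u else 0) else 0), sum_comm]
        · refine sum_congr rfl fun p _ => ?_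
          split_ifs <;> simp
        · intro u _
          split_ifs with e
          · exact ih (fun s hs => hR s (mem_insert_of_mem hs)) u (by omega)
          · simp
      · intro S hS
        rw [insert_union, W_insert ρ _ m]
        intro s hs
        rcases mem_union.1 hs with h | h
        · exact hm s h
        · have := (mem_Icc.1 (hS h)).2
          omega

theorem l1s_dual (S : Finset ℕ) (hS : ∀ s ∈ S, s ≤ n + 1) (x y : P) :
    W (P := Pᵒᵈ) (fun u => n + 1 - ρ (OrderDual.ofDual u)) S (OrderDual.toDual y)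
      (OrderDual.toDual x) = W ρ (S.image fun s => n + 1 - s) x y := by
  classical
  induction S using Finset.induction_on_max generalizing x with
  | empty => simp [W_empty]
  | insert k S hk ih =>
    have hk' := hS k (mem_insert_self _ _)
    have e : (insert k S).image (fun s => n + 1 - s) =
        S.image (fun s => n + 1 - s) ∪ insert (n + 1 - k) ∅ := by
      rw [image_insert, union_comm]; rfl
    rw [W_insert _ S k hk, e, W_split ρ ∅ _ _ (by simp), ← Equiv.sum_comp OrderDual.toDual]
    · refine sum_congr rfl fun u _ => ?_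
      have := rk_le hc (le_top (a := u))
      rw [ih (fun s hs => hS s (mem_insert_of_mem hs)), W_empty]
      simp only [OrderDual.ofDual_toDual, OrderDual.toDual_lt_toDual]
      have e2 : n + 1 - ρ u = k ↔ ρ u = n + 1 - k := by omega
      simp only [e2]
      by_cases a : ρ u = n + 1 - k <;> by_cases b : x < u <;> simp [a, b]
    · intro s hs
      obtain ⟨s0, h, rfl⟩ := mem_image.1 hs
      have := hk s0 h
      omega

end

theorem l1s_loc {L : Type} [Fintype L] (R S : Finset ℕ) (hR : ∀ s ∈ R, Fintype.card L + 3 < s)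
    (a : Pr L) : coef L (R ∪ S) a = coef L S a := by
  have k : ∀ s, s ≤ Fintype.card L + 3 → (s ∈ R ∪ S ↔ s ∈ S) := fun s hs => by
    rw [mem_union]
    exact ⟨fun h => h.resolve_left fun h => absurd (hR s h) (by omega), Or.inr⟩
  have k1 : (∀ s ∈ R ∪ S, Fintype.card L + 3 < s) ↔ ∀ s ∈ S, Fintype.card L + 3 < s :=
    ⟨fun h s hs => h s (mem_union_right _ hs), fun h s hs => (mem_union.1 hs).elim (hR s) (h s)⟩
  have k2 : (∃ s ∈ R ∪ S, s ≤ Fintype.card L + 1) ↔ ∃ s ∈ S, s ≤ Fintype.card L + 1 :=
    ⟨fun ⟨s, a, b⟩ => ⟨s, (k s (by omega)).1 a, b⟩, fun ⟨s, a, b⟩ => ⟨s, mem_union_right _ a, b⟩⟩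
  rcases a with _ | ⟨l, _ | b⟩
  · simp only [coef, k1]
  all_goals
    have := l1s_lev l
    simp only [coef, k2, k (lev l) (by omega), k (Fintype.card L + 2) (by omega),
      k (Fintype.card L + 3) le_rfl]

theorem l1s_phi {L U : Type} [Fintype L] [Fintype U] (vis : Pr L → Bool → Pr U → ℕ) (β : Bool)
    {S S' : Finset ℕ} (hS : S ⊆ Icc 1 (Fintype.card L + 3))
    (hS' : S' ⊆ Icc 1 (Fintype.card U + 3)) :
    (Phi vis (((if β then {Fintype.card L + 4} else ∅) ∪
      S'.image fun s => nlev L U + 1 - s) ∪ S) : ℝ) =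
      ∑ a, (coef L S a : ℝ) * ∑ e, (coef U S' e : ℝ) * vis a β e := by
  set R : Finset ℕ := if β then {Fintype.card L + 4} else ∅ with hR
  have r1 : ∀ s ∈ R, s = Fintype.card L + 4 := by
    intro s hs
    cases β <;> simp_all
  have e1 : ∀ s ∈ R ∪ S'.image fun s => nlev L U + 1 - s, Fintype.card L + 3 < s := by
    intro s hs
    rcases mem_union.1 hs with h | h
    · have := r1 s h; omega
    · obtain ⟨s0, h', rfl⟩ := mem_image.1 h
      have := mem_Icc.1 (hS' h')
      unfold nlev; omega
  have e2 : ((R ∪ S'.image fun s => nlev L U + 1 - s) ∪ S).image (fun s => nlev L U + 1 - s) =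
      ((R ∪ S).image fun s => nlev L U + 1 - s) ∪ S' := by
    rw [union_right_comm, image_union, image_image, image_congr (g := id) (s := S'), image_id]
    intro s hs
    have := mem_Icc.1 (hS' hs)
    simp only [Function.comp, id, nlev]; omega
  have e3 : ∀ s ∈ (R ∪ S).image fun s => nlev L U + 1 - s, Fintype.card U + 3 < s := by
    intro s hs
    obtain ⟨s0, h, rfl⟩ := mem_image.1 hs
    rcases mem_union.1 h with h | h
    · have := r1 s0 h; unfold nlev; omega
    · have := mem_Icc.1 (hS h); unfold nlev; omega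
  have e4 : decide (Fintype.card L + 4 ∈ (R ∪ S'.image fun s => nlev L U + 1 - s) ∪ S) = β := by
    have a : Fintype.card L + 4 ∉ S := fun h => by have := mem_Icc.1 (hS h); omega
    have b : Fintype.card L + 4 ∉ S'.image fun s => nlev L U + 1 - s := fun h => by
      obtain ⟨s0, h, e⟩ := mem_image.1 h
      have := mem_Icc.1 (hS' h)
      unfold nlev at e; omega
    simp only [mem_union, a, b, or_false, hR]
    cases β <;> simp
  simp only [Phi, e2, e4, l1s_loc _ _ e1, l1s_loc _ _ e3, mul_sum]
  push_cast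
  simp only [mul_assoc]

theorem l1s_card {X : Type} [Fintype X] (p : X → Prop) [DecidablePred p] :
    (({x | p x} : Set X).ncard : ℝ) = ∑ x, if p x then 1 else 0 := by
  rw [sum_boole, ← Set.ncard_coe_finset]
  simp

theorem L1S {L U : Type} [Fintype L] [Fintype U] {vis : Pr L → Bool → Pr U → ℕ}
    (h : IsGr (nlev L U) (Phi vis))
    (h1 : ∀ l, vis (some (l, none)) false none = 1)
    (h2 : ∀ l, vis (some (l, some true)) false none = 1)
    (h3 : ∀ u, vis none false (some (u, none)) = 1)
    (h4 : ∀ u, vis none false (some (u, some true)) = 1) :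
    ∃ c : Core L U, c.lo.Up ∧ c.hi.Up ∧ c.vis = vis := by
  classical
  obtain ⟨P, _, _, _, ρ, r0, r1, hc, hW⟩ := h
  have hn : nlev L U = Fintype.card L + Fintype.card U + 7 := rfl
  have hle : ∀ u, ρ u ≤ nlev L U + 1 := fun u => r1 ▸ rk_le hc (le_top (a := u))
  have hF : ∀ (β : Bool), ∀ S ⊆ Icc 1 (Fintype.card L + 3), ∀ S' ⊆ Icc 1 (Fintype.card U + 3),
      W ρ (((if β then {Fintype.card L + 4} else ∅) ∪
        S'.image fun s => nlev L U + 1 - s) ∪ S) ⊥ ⊤ =
      ∑ a, (coef L S a : ℝ) * ∑ e, (coef U S' e : ℝ) * vis a β e := by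
    intro β S hS S' hS'
    rw [← l1s_phi vis β hS hS', hW]
    intro s hs
    rw [mem_Icc]
    rcases mem_union.1 hs with h | h
    · rcases mem_union.1 h with h | h
      · have : s = Fintype.card L + 4 := by cases β <;> simp_all
        omega
      · obtain ⟨s0, h', rfl⟩ := mem_image.1 h
        have := mem_Icc.1 (hS' h')
        omega
    · have := mem_Icc.1 (hS h)
      omega
  have c0 : ∀ (X : Type) [Fintype X] (g : Pr X → ℝ), ∑ a, (coef X ∅ a : ℝ) * g a = g none :=
    fun X _ g => l1s_coef none g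
  let M := {m : P // ρ m = Fintype.card L + 4}
  obtain ⟨D, emb, D1, D2, D3, D4⟩ := l1s_side hc r0 r1 (L := L) (by omega)
    (fun a => vis a false none) (fun S hS => by
      have := hF false S hS ∅ (empty_subset _)
      simpa only [c0, Bool.false_eq_true, if_false, image_empty, empty_union] using this)
    (by simp [h1]) (by simp [h2]) (M := M) Subtype.val (fun m => m.2) fun x hx => ⟨⟨x, hx⟩, rfl⟩
  have hc' : ∀ x y : Pᵒᵈ, x ⋖ y → nlev L U + 1 - ρ (OrderDual.ofDual y) =
      nlev L U + 1 - ρ (OrderDual.ofDual x) + 1 := by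
    intro x y h
    have := hc _ _ h.ofDual
    have := hle (OrderDual.ofDual x)
    omega
  obtain ⟨E, emb', E1, E2, E3, E4⟩ := l1s_side (P := Pᵒᵈ)
    (ρ := fun u => nlev L U + 1 - ρ (OrderDual.ofDual u)) (n := nlev L U) hc'
    (by simp [r1]) (by simp [r0]) (L := U) (by omega)
    (fun e => vis none false e) (fun S hS => by
      have := hF false ∅ (empty_subset _) S hS
      simp only [c0, Bool.false_eq_true, if_false, empty_union, union_empty] at this
      rw [← this]
      exact l1s_dual hc r0 r1 S (fun s hs => by have := mem_Icc.1 (hS hs); omega) ⊥ ⊤)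
    (by simp [h3]) (by simp [h4]) (M := M) (fun m => OrderDual.toDual m.1)
    (fun m => by have := m.2; simp only [OrderDual.ofDual_toDual]; omega)
    (fun x hx => ⟨⟨OrderDual.ofDual x, by have := hle (OrderDual.ofDual x); omega⟩, rfl⟩)
  have E3' : ∀ q (m : M), E.rel q m ↔ m.1 < OrderDual.ofDual (emb' q) := E3
  have E2' : ∀ q, Fintype.card L + 5 ≤ ρ (OrderDual.ofDual (emb' q)) := fun q => by
    have := E2 q
    omega
  have key : ∀ a β e, (vis a β e : ℝ) = ∑ p, if D.sel a p then ∑ q, if E.sel e q then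
      W ρ (if β then {Fintype.card L + 4} else ∅) (emb p) (OrderDual.ofDual (emb' q))
        else 0 else 0 := by
    intro a β e
    set R : Finset ℕ := if β then {Fintype.card L + 4} else ∅ with hR
    have q1 : ∀ s ∈ R, s = Fintype.card L + 4 := by
      intro s hs
      cases β <;> simp_all
    have q2 : (R.image fun s => nlev L U + 1 - s).image (fun s => nlev L U + 1 - s) = R := by
      rw [image_image, image_congr (g := id), image_id]
      intro s hs
      have := q1 s hs
      simp only [Function.comp, id]; omega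
    have q3 : ∀ s ∈ R.image fun s => nlev L U + 1 - s,
        Fintype.card U + 3 < s ∧ s ≤ nlev L U + 1 := by
      intro s hs
      obtain ⟨s0, h, rfl⟩ := mem_image.1 hs
      have := q1 s0 h
      omega
    rw [← l1s_coef e fun e => (vis a β e : ℝ), l1s_congr e (G := fun S' => ∑ p, if D.sel a p then
      W (P := Pᵒᵈ) (fun u => nlev L U + 1 - ρ (OrderDual.ofDual u))
        ((R.image fun s => nlev L U + 1 - s) ∪ S') ⊥ (OrderDual.toDual (emb p)) else 0), l1s_sum]
    · refine sum_congr rfl fun p _ => ?_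
      rw [l1s_ite, E4 e _ (fun s hs => (q3 s hs).1)]
      · split_ifs
        · refine sum_congr rfl fun q _ => ?_
          split_ifs
          · have := l1s_dual hc r0 r1 _ (fun s hs => (q3 s hs).2) (emb p)
              (OrderDual.ofDual (emb' q))
            rw [q2] at this
            exact this
          · rfl
        · rfl
      · have := D2 p
        simp only [OrderDual.ofDual_toDual]; omega
    · intro S' hS'
      rw [← l1s_coef a fun a => ∑ e, (coef U S' e : ℝ) * vis a β e,
        ← l1s_congr a fun S hS => hF β S hS S' hS', D4 a _ _ ⊤ (by omega)]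
      · refine sum_congr rfl fun p _ => ?_
        have := l1s_dual hc r0 r1 ((R.image fun s => nlev L U + 1 - s) ∪ S') (fun s hs => by
          rcases mem_union.1 hs with h | h
          · exact (q3 s h).2
          · have := mem_Icc.1 (hS' h); omega) (emb p) ⊤
        rw [image_union, q2] at this
        exact if_congr Iff.rfl this.symm rfl
      · intro s hs
        rcases mem_union.1 hs with h | h
        · have := q1 s h; omega
        · obtain ⟨s0, h', rfl⟩ := mem_image.1 h
          have := mem_Icc.1 (hS' h')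
          omega
  obtain ⟨m0, hm0, -⟩ := exists_rank hc (bot_le (a := ⊤)) (Fintype.card L + 4) (by omega) (by omega)
  refine ⟨⟨M, inferInstance, ⟨⟨m0, hm0⟩⟩, D, E⟩, D1, E1, ?_⟩
  funext a β e
  refine Nat.cast_injective (R := ℝ) ?_
  rw [key]
  cases β
  · simp only [Core.vis, Bool.false_eq_true, if_false]
    rw [l1s_card, Fintype.sum_prod_type]
    refine sum_congr rfl fun p _ => ?_
    split_ifs with a1
    · refine sum_congr rfl fun q _ => ?_
      have : (∃ m : M, D.rel p m ∧ E.rel q m) ↔ emb p < OrderDual.ofDual (emb' q) := by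
        simp only [D3, E3']
        refine ⟨fun ⟨m, b1, b2⟩ => b1.trans b2, fun h => ?_⟩
        have := D2 p
        have := E2' q
        obtain ⟨z, z1, z2⟩ := l1s_mid hc h (j := Fintype.card L + 4) (by omega) (by omega)
        exact ⟨⟨z, z1⟩, z2⟩
      by_cases a2 : E.sel e q <;> simp [a1, a2, this, W_empty]
    · simp [a1]
  · simp only [Core.vis, if_true]
    rw [l1s_card, Fintype.sum_prod_type]
    refine sum_congr rfl fun p _ => ?_
    rw [Fintype.sum_prod_type_right]
    split_ifs with a1
    · refine sum_congr rfl fun q _ => ?_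
      by_cases a2 : E.sel e q
      · simp only [a1, a2, true_and, if_true, D3, E3', W_single]
        rw [← sum_filter, ← sum_filter]
        refine sum_bij (fun m _ => m.1) ?_ ?_ ?_ (fun _ _ => rfl)
        · intro m hm
          exact mem_filter.2 ⟨mem_univ _, m.2, (mem_filter.1 hm).2⟩
        · intro m _ m' _ h
          exact Subtype.ext h
        · intro u hu
          obtain ⟨b1, b2⟩ := (mem_filter.1 hu).2
          exact ⟨⟨u, b1⟩, mem_filter.2 ⟨mem_univ _, b2⟩, rfl⟩
      · simp [a2]
    · simp [a1]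

end Pool.Agent.Lib.MP_685082_co.NX
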