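import Pool.Agent.Lib.MP_685082_co.NX.Core

/-! From a model of a system of tables to a core. -/

namespace Pool.Agent.Lib.MP_685082_co.NX

open Finset
open Classical

section side

variable {Ω K L : Type}

/-- records: a kind and a value -/
abbrev l2cRec (Z : K → Finset (Option Ω)) := Σ k : K, {o // o ∈ Z k}

/-- data of one side -/
structure L2cD (Z : K → Finset (Option Ω)) (L : Type) where
  X : L → Finset Ω
  kk : K → L → Bool → Prop
  v : K → L → Option Ω → Option Ω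
  hv : ∀ k l β o, o ∈ Z k → kk k l β → v k l o ∈ insertNone (X l) ∧ (v k l o).isNone = β
  un : ∀ k l, kk k l true → ¬ kk k l false

variable {Z : K → Finset (Option Ω)} [Fintype L] (D : L2cD Z L)

noncomputable def L2cD.side : Side L (l2cRec Z) where
  A := Σ l : L, {o // o ∈ insertNone (D.X l)}
  fin := inferInstance
  r := fun x m => D.kk m.1 x.1 x.2.1.isNone ∧ x.2.1 = D.v m.1 x.1 m.2.1
  t := fun x => x.1
  mark := fun x => x.2.1.isNone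

theorem L2cD.ext {x y : D.side.A} (h1 : x.1 = y.1) (h2 : x.2.1 = y.2.1) : x = y := by
  obtain ⟨l, o, ho⟩ := x
  obtain ⟨l', o', ho'⟩ := y
  simp only at h1 h2
  subst h1 h2
  rfl

theorem L2cD.ex {m : l2cRec Z} {l : L} {β : Bool} (h : D.kk m.1 l β) :
    ∃ x : D.side.A, D.side.t x = l ∧ D.side.mark x = β ∧ D.side.r x m := by
  obtain ⟨h1, h2⟩ := D.hv m.1 l β m.2.1 m.2.2 h
  exact ⟨⟨l, _, h1⟩, rfl, h2, by show D.kk m.1 l _; rw [h2]; exact h, rfl⟩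

theorem L2cD.seen_iff (a : Pr L) (m : l2cRec Z) :
    (∃ p, D.side.sel a p ∧ D.side.rel p m) ↔ Tab.seen (D.kk m.1) a := by
  rcases a with _ | ⟨l, _ | β⟩
  · exact ⟨fun _ => trivial, fun _ => ⟨none, rfl, trivial⟩⟩
  · constructor
    · rintro ⟨p, rfl, x, rfl, h, -⟩
      show D.kk m.1 x.1 false ∨ D.kk m.1 x.1 true
      cases e : x.2.1.isNone <;> rw [e] at h
      exacts [Or.inl h, Or.inr h]
    · rintro (h | h) <;> obtain ⟨x, h1, -, h3⟩ := D.ex h <;> exact ⟨_, rfl, x, h1, h3⟩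
  · constructor
    · rintro ⟨p, ⟨x, rfl, rfl, rfl⟩, h, -⟩
      exact h
    · intro h
      obtain ⟨x, h1, h2, h3⟩ := D.ex h
      exact ⟨_, ⟨x, rfl, h1, h2⟩, h3⟩

theorem L2cD.uniq {a : Pr L} {m : l2cRec Z} {p p' : D.side.Pt} (h1 : D.side.sel a p)
    (h2 : D.side.rel p m) (h3 : D.side.sel a p') (h4 : D.side.rel p' m) : p = p' := by
  rcases a with _ | ⟨l, _ | β⟩
  · exact Eq.trans h1 (Eq.symm h3)
  · exact Eq.trans h1 (Eq.symm h3)
  · obtain ⟨x, rfl, e1, -⟩ := h1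
    obtain ⟨y, rfl, e2, -⟩ := h3
    have e : x.1 = y.1 := Eq.trans e1 (Eq.symm e2)
    rw [D.ext e (by rw [h2.2, h4.2, e])]

/-- probes that select one point -/
def l2cOne : Pr L → Prop
  | some (_, some false) => False
  | _ => True

theorem L2cD.one {a : Pr L} (ha : l2cOne a) : ∃ q, ∀ p, D.side.sel a p ↔ p = q := by
  rcases a with _ | ⟨l, _ | _ | _⟩
  · exact ⟨none, fun _ => Iff.rfl⟩
  · exact ⟨_, fun _ => Iff.rfl⟩
  · exact ha.elim
  · refine ⟨some (.inr ⟨l, none, by simp⟩), fun p => ⟨?_, ?_⟩⟩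
    · rintro ⟨x, rfl, e1, e2⟩
      rw [D.ext (y := ⟨l, none, by simp⟩) e1 (Option.isNone_iff_eq_none.1 e2)]
    · rintro rfl
      exact ⟨_, rfl, rfl, rfl⟩

/-- the value of a point -/
def L2cD.val : D.side.Pt → Option Ω
  | some (.inr x) => x.2.1
  | _ => none

theorem L2cD.sel_un {l : L} {p : D.side.Pt} (h : D.side.sel (some (l, some false)) p) :
    ∃ x ∈ D.X l, D.val p = some x ∧
      ∀ m, D.side.rel p m ↔ D.kk m.1 l false ∧ D.v m.1 l m.2.1 = some x := by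
  obtain ⟨⟨l', o, ho⟩, rfl, rfl, e⟩ := h
  rcases o with _ | x
  · exact absurd e (by simp [L2cD.side])
  · have hx : x ∈ D.X l' := by simpa using ho
    exact ⟨x, hx, rfl, fun m => ⟨fun h => ⟨h.1, h.2.symm⟩, fun h => ⟨h.1, h.2.symm⟩⟩⟩

theorem L2cD.un_ex {l : L} {x : Ω} (h : x ∈ D.X l) :
    ∃ p, D.side.sel (some (l, some false)) p ∧ D.val p = some x :=
  ⟨some (.inr ⟨l, some x, by simpa using h⟩), ⟨_, rfl, rfl, rfl⟩, rfl⟩

theorem L2cD.un_inj {l : L} {p p' : D.side.Pt} (h : D.side.sel (some (l, some false)) p)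
    (h' : D.side.sel (some (l, some false)) p') (e : D.val p = D.val p') : p = p' := by
  obtain ⟨x, rfl, e1, -⟩ := h
  obtain ⟨y, rfl, e2, -⟩ := h'
  rw [D.ext (Eq.trans e1 (Eq.symm e2)) e]

variable {U : Type} [Fintype U] (E : L2cD Z U)

theorem l2c_true [Fintype K] (a : Pr L) (e : Pr U) :
    {z : D.side.Pt × l2cRec Z × E.side.Pt | D.side.sel a z.1 ∧ E.side.sel e z.2.2 ∧
      D.side.rel z.1 z.2.1 ∧ E.side.rel z.2.2 z.2.1}.ncard =
    ∑ k, if Tab.seen (D.kk k) a ∧ Tab.seen (E.kk k) e then #(Z k) else 0 := by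
  have h1 : {z : D.side.Pt × l2cRec Z × E.side.Pt | D.side.sel a z.1 ∧ E.side.sel e z.2.2 ∧
      D.side.rel z.1 z.2.1 ∧ E.side.rel z.2.2 z.2.1}.ncard =
      {m : l2cRec Z | Tab.seen (D.kk m.1) a ∧ Tab.seen (E.kk m.1) e}.ncard := by
    refine Set.ncard_congr (fun z _ => z.2.1) ?_ ?_ ?_
    · rintro z ⟨a1, a2, a3, a4⟩
      exact ⟨(D.seen_iff a _).1 ⟨_, a1, a3⟩, (E.seen_iff e _).1 ⟨_, a2, a4⟩⟩
    · rintro ⟨p, m, q⟩ ⟨p', m', q'⟩ ⟨a1, a2, a3, a4⟩ ⟨b1, b2, b3, b4⟩ h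
      simp only at h a1 a2 a3 a4 b1 b2 b3 b4
      subst h
      rw [D.uniq a1 a3 b1 b3, E.uniq a2 a4 b2 b4]
    · rintro m ⟨a1, a2⟩
      obtain ⟨p, b1, b2⟩ := (D.seen_iff a m).2 a1
      obtain ⟨q, b3, b4⟩ := (E.seen_iff e m).2 a2
      exact ⟨(p, m, q), ⟨b1, b3, b2, b4⟩, rfl⟩
  rw [h1, Set.ncard_eq_toFinset_card', Set.toFinset_setOf, card_filter, Fintype.sum_sigma]
  refine sum_congr rfl fun k _ => ?_
  split_ifs <;> simp

theorem l2c_swap (a : Pr L) (e : Pr U) :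
    {z : D.side.Pt × E.side.Pt | D.side.sel a z.1 ∧ E.side.sel e z.2 ∧
      ∃ m, D.side.rel z.1 m ∧ E.side.rel z.2 m}.ncard =
    {z : E.side.Pt × D.side.Pt | E.side.sel e z.1 ∧ D.side.sel a z.2 ∧
      ∃ m, E.side.rel z.1 m ∧ D.side.rel z.2 m}.ncard := by
  refine Set.ncard_congr (fun z _ => z.swap) ?_ ?_ ?_
  · rintro z ⟨a1, a2, m, a3, a4⟩
    exact ⟨a2, a1, m, a4, a3⟩
  · intro z z' _ _ h
    exact Prod.swap_injective h
  · rintro z ⟨a1, a2, m, a3, a4⟩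
    exact ⟨z.swap, ⟨a2, a1, m, a4, a3⟩, rfl⟩

theorem l2c_oo {a : Pr L} {e : Pr U} (ha : l2cOne a) (he : l2cOne e) (m : l2cRec Z)
    (h1 : ∀ l, D.kk m.1 l true) (h2 : ∀ u, E.kk m.1 u true) :
    {z : D.side.Pt × E.side.Pt | D.side.sel a z.1 ∧ E.side.sel e z.2 ∧
      ∃ m, D.side.rel z.1 m ∧ E.side.rel z.2 m}.ncard = 1 := by
  obtain ⟨p, hp⟩ := D.one ha
  obtain ⟨q, hq⟩ := E.one he
  refine Set.ncard_eq_one.2 ⟨(p, q), Set.ext fun z => ⟨fun h => ?_, fun h => ?_⟩⟩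
  · exact Prod.ext ((hp _).1 h.1) ((hq _).1 h.2.1)
  · obtain ⟨p', a1, a2⟩ := (D.seen_iff a m).2 (by
      rcases a with _ | ⟨l, _ | _ | _⟩
      exacts [trivial, Or.inr (h1 l), ha.elim, h1 l])
    obtain ⟨q', b1, b2⟩ := (E.seen_iff e m).2 (by
      rcases e with _ | ⟨l, _ | _ | _⟩
      exacts [trivial, Or.inr (h2 l), he.elim, h2 l])
    rw [Set.mem_singleton_iff.1 h, ← (hp _).1 a1, ← (hq _).1 b1]
    exact ⟨a1, b1, m, a2, b2⟩

theorem l2c_uo (l : L) {e : Pr U} (he : l2cOne e) (C : Prop)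
    (h : ∀ x ∈ D.X l, (∃ m : l2cRec Z, D.kk m.1 l false ∧ D.v m.1 l m.2.1 = some x ∧
      Tab.seen (E.kk m.1) e) ↔ C) :
    {z : D.side.Pt × E.side.Pt | D.side.sel (some (l, some false)) z.1 ∧ E.side.sel e z.2 ∧
      ∃ m, D.side.rel z.1 m ∧ E.side.rel z.2 m}.ncard = if C then #(D.X l) else 0 := by
  obtain ⟨q, hq⟩ := E.one he
  split_ifs with c
  · rw [← card_map ⟨some, Option.some_injective Ω⟩, ← Set.ncard_coe_finset]
    refine Set.ncard_congr (fun z _ => D.val z.1) ?_ ?_ ?_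
    · rintro z ⟨a1, -⟩
      obtain ⟨x, hx, e1, -⟩ := D.sel_un a1
      exact mem_coe.2 (mem_map.2 ⟨x, hx, e1.symm⟩)
    · rintro z z' ⟨a1, a2, -⟩ ⟨b1, b2, -⟩ e1
      exact Prod.ext (D.un_inj a1 b1 e1) (((hq _).1 a2).trans ((hq _).1 b2).symm)
    · intro o ho
      obtain ⟨x, hx, rfl⟩ := mem_map.1 (mem_coe.1 ho)
      obtain ⟨p, a1, a2⟩ := D.un_ex hx
      obtain ⟨x', -, e1, e2⟩ := D.sel_un a1
      obtain rfl : x = x' := Option.some_injective _ (a2.symm.trans e1)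
      obtain ⟨m, b1, b2, b3⟩ := (h x hx).2 c
      obtain ⟨q', c1, c2⟩ := (E.seen_iff e m).2 b3
      exact ⟨(p, q'), ⟨a1, c1, m, (e2 m).2 ⟨b1, b2⟩, c2⟩, a2⟩
  · rw [Set.ncard_eq_zero (Set.toFinite _), Set.eq_empty_iff_forall_notMem]
    rintro z ⟨a1, a2, m, a3, a4⟩
    obtain ⟨x, hx, -, e2⟩ := D.sel_un a1
    exact c ((h x hx).1 ⟨m, ((e2 m).1 a3).1, ((e2 m).1 a3).2, (E.seen_iff e m).1 ⟨_, a2, a4⟩⟩)

theorem l2c_uu (l : L) (u : U) :
    {z : D.side.Pt × E.side.Pt | D.side.sel (some (l, some false)) z.1 ∧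
      E.side.sel (some (u, some false)) z.2 ∧ ∃ m, D.side.rel z.1 m ∧ E.side.rel z.2 m}.ncard =
    {w : Option Ω × Option Ω | ∃ m : l2cRec Z, D.kk m.1 l false ∧ E.kk m.1 u false ∧
      w = (D.v m.1 l m.2.1, E.v m.1 u m.2.1)}.ncard := by
  refine Set.ncard_congr (fun z _ => (D.val z.1, E.val z.2)) ?_ ?_ ?_
  · rintro z ⟨a1, a2, m, a3, a4⟩
    obtain ⟨x, -, e1, e2⟩ := D.sel_un a1
    obtain ⟨y, -, f1, f2⟩ := E.sel_un a2
    exact ⟨m, ((e2 m).1 a3).1, ((f2 m).1 a4).1,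
      by rw [e1, f1, ((e2 m).1 a3).2, ((f2 m).1 a4).2]⟩
  · rintro z z' ⟨a1, a2, -⟩ ⟨b1, b2, -⟩ e1
    exact Prod.ext (D.un_inj a1 b1 (congrArg Prod.fst e1)) (E.un_inj a2 b2 (congrArg Prod.snd e1))
  · rintro w ⟨m, a1, a2, rfl⟩
    obtain ⟨p, b1, b2⟩ := (D.seen_iff (some (l, some false)) m).2 a1
    obtain ⟨q, c1, c2⟩ := (E.seen_iff (some (u, some false)) m).2 a2
    obtain ⟨x, -, e1, e2⟩ := D.sel_un b1
    obtain ⟨y, -, f1, f2⟩ := E.sel_un c1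
    exact ⟨(p, q), ⟨b1, c1, m, b2, c2⟩, by
      simp only; rw [e1, f1, ((e2 m).1 b2).2, ((f2 m).1 c2).2]⟩

end side

section model

variable {L U J : Type} {T : Tab L U J} {sL : L → ℕ} {sU : U → ℕ} {sJ : J → ℕ}
  (M : T.Model sL sU sJ)

def l2cA (j : J) : L ⊕ J → M.Ω → M.Ω
  | .inl l => M.a j l
  | .inr _ => id

def l2cB (j : J) : U ⊕ J → M.Ω → M.Ω
  | .inl u => M.b j u
  | .inr _ => id

noncomputable def l2cZ : Tab.Kind L U J → Finset (Option M.Ω)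
  | .inl j => (M.R j).map ⟨some, Option.some_injective _⟩
  | .inr (.inl p) =>
      if T.satA p.1 p.2 then (Sum.elim M.X M.R p.1).map ⟨some, Option.some_injective _⟩ else ∅
  | .inr (.inr (.inl p)) =>
      if T.satB p.1 p.2 then (Sum.elim M.Y M.R p.2).map ⟨some, Option.some_injective _⟩ else ∅
  | .inr (.inr (.inr _)) => {none}

theorem l2c_cX (l : L ⊕ J) : #(Sum.elim M.X M.R l) = Sum.elim sL sJ l := by
  cases l
  exacts [M.cX _, M.cR _]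

theorem l2c_cY (u : U ⊕ J) : #(Sum.elim M.Y M.R u) = Sum.elim sU sJ u := by
  cases u
  exacts [M.cY _, M.cR _]

theorem l2c_cZ (k : Tab.Kind L U J) : #(l2cZ M k) = T.kSz sL sU sJ k := by
  rcases k with j | p | p | _
  · simp [l2cZ, Tab.kSz, M.cR]
  · simp only [l2cZ, Tab.kSz]; split_ifs <;> simp [l2c_cX]
  · simp only [l2cZ, Tab.kSz]; split_ifs <;> simp [l2c_cY]
  · simp [l2cZ, Tab.kSz]

theorem l2c_hA {j : J} {l : L ⊕ J} (h : T.lo' j l) {r : M.Ω} (hr : r ∈ M.R j) :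
    l2cA M j l r ∈ Sum.elim M.X M.R l := by
  rcases l with l | j'
  · exact M.ha j l h r hr
  · obtain rfl : j = j' := h
    exact hr

theorem l2c_hB {j : J} {u : U ⊕ J} (h : T.up' j u) {r : M.Ω} (hr : r ∈ M.R j) :
    l2cB M j u r ∈ Sum.elim M.Y M.R u := by
  rcases u with u | j'
  · exact M.hb j u h r hr
  · obtain rfl : j = j' := h
    exact hr

theorem l2c_m0 {j : J} {o : Option M.Ω} : o ∈ l2cZ M (.inl j) ↔ ∃ r ∈ M.R j, some r = o := by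
  simp [l2cZ]

theorem l2c_m1 {p : (L ⊕ J) × (U ⊕ J)} {o : Option M.Ω} : o ∈ l2cZ M (.inr (.inl p)) ↔
    T.satA p.1 p.2 ∧ ∃ r ∈ Sum.elim M.X M.R p.1, some r = o := by
  simp only [l2cZ]; split_ifs with c <;> simp [c]

theorem l2c_m2 {p : (L ⊕ J) × (U ⊕ J)} {o : Option M.Ω} : o ∈ l2cZ M (.inr (.inr (.inl p))) ↔
    T.satB p.1 p.2 ∧ ∃ r ∈ Sum.elim M.Y M.R p.2, some r = o := by
  simp only [l2cZ]; split_ifs with c <;> simp [c]

noncomputable def l2cLo : L2cD (l2cZ M) (L ⊕ J) where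
  X := Sum.elim M.X M.R
  kk := T.kLo
  v := fun k l o => match k with
    | .inl j => o.map (l2cA M j l)
    | .inr (.inl _) => o
    | _ => none
  hv := by
    rintro (j | p | p | _) l β o ho h
    · obtain ⟨r, hr, rfl⟩ := (l2c_m0 M).1 ho
      exact ⟨by simpa using l2c_hA M h.2 hr, h.1.symm⟩
    · obtain ⟨-, r, hr, rfl⟩ := (l2c_m1 M).1 ho
      exact ⟨by rw [h.2]; simpa using hr, h.1.symm⟩
    · exact ⟨by simp, h.1.symm⟩
    · exact ⟨by simp, Eq.symm h⟩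
  un := by
    rintro (j | p | p | _) l h h' <;> simp [Tab.kLo] at h h'

noncomputable def l2cHi : L2cD (l2cZ M) (U ⊕ J) where
  X := Sum.elim M.Y M.R
  kk := T.kUp
  v := fun k u o => match k with
    | .inl j => o.map (l2cB M j u)
    | .inr (.inr (.inl _)) => o
    | _ => none
  hv := by
    rintro (j | p | p | _) l β o ho h
    · obtain ⟨r, hr, rfl⟩ := (l2c_m0 M).1 ho
      exact ⟨by simpa using l2c_hB M h.2 hr, h.1.symm⟩
    · exact ⟨by simp, h.1.symm⟩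
    · obtain ⟨-, r, hr, rfl⟩ := (l2c_m2 M).1 ho
      exact ⟨by rw [h.2]; simpa using hr, h.1.symm⟩
    · exact ⟨by simp, Eq.symm h⟩
  un := by
    rintro (j | p | p | _) l h h' <;> simp [Tab.kUp] at h h'

/-- the record of all marked elements -/
def l2cU : l2cRec (l2cZ M) := ⟨.inr (.inr (.inr ())), none, by simp [l2cZ]⟩

theorem l2c_lo (l : L ⊕ J) {x : M.Ω} (hx : x ∈ Sum.elim M.X M.R l) (P : Tab.Kind L U J → Prop) :
    (∃ m : l2cRec (l2cZ M), (l2cLo M).kk m.1 l false ∧ (l2cLo M).v m.1 l m.2.1 = some x ∧ P m.1) ↔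
    (∃ j, T.lo' j l ∧ (∃ r ∈ M.R j, l2cA M j l r = x) ∧ P (.inl j)) ∨
      ∃ u, T.satA l u ∧ P (.inr (.inl (l, u))) := by
  constructor
  · rintro ⟨⟨j | ⟨l', u⟩ | p | _, o, ho⟩, h1, h2, h3⟩
    · obtain ⟨r, hr, rfl⟩ := (l2c_m0 M).1 ho
      exact Or.inl ⟨j, h1.2, ⟨r, hr, Option.some_injective _ h2⟩, h3⟩
    · obtain rfl : l = l' := h1.2
      exact Or.inr ⟨u, ((l2c_m1 M).1 ho).1, h3⟩
    · exact absurd h1.1 (by simp)
    · exact absurd h1 (by simp [l2cLo, Tab.kLo])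
  · rintro (⟨j, h1, ⟨r, hr, rfl⟩, h3⟩ | ⟨u, h1, h2⟩)
    · exact ⟨⟨.inl j, some r, (l2c_m0 M).2 ⟨r, hr, rfl⟩⟩, ⟨rfl, h1⟩, rfl, h3⟩
    · exact ⟨⟨.inr (.inl (l, u)), some x, (l2c_m1 M).2 ⟨h1, x, hx, rfl⟩⟩, ⟨rfl, rfl⟩, rfl, h2⟩

theorem l2c_hi (u : U ⊕ J) {x : M.Ω} (hx : x ∈ Sum.elim M.Y M.R u) (P : Tab.Kind L U J → Prop) :
    (∃ m : l2cRec (l2cZ M), (l2cHi M).kk m.1 u false ∧ (l2cHi M).v m.1 u m.2.1 = some x ∧ P m.1) ↔
    (∃ j, T.up' j u ∧ (∃ r ∈ M.R j, l2cB M j u r = x) ∧ P (.inl j)) ∨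
      ∃ l, T.satB l u ∧ P (.inr (.inr (.inl (l, u)))) := by
  constructor
  · rintro ⟨⟨j | p | ⟨l, u'⟩ | _, o, ho⟩, h1, h2, h3⟩
    · obtain ⟨r, hr, rfl⟩ := (l2c_m0 M).1 ho
      exact Or.inl ⟨j, h1.2, ⟨r, hr, Option.some_injective _ h2⟩, h3⟩
    · exact absurd h1.1 (by simp)
    · obtain rfl : u = u' := h1.2
      exact Or.inr ⟨l, ((l2c_m2 M).1 ho).1, h3⟩
    · exact absurd h1 (by simp [l2cHi, Tab.kUp])
  · rintro (⟨j, h1, ⟨r, hr, rfl⟩, h3⟩ | ⟨l, h1, h2⟩)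
    · exact ⟨⟨.inl j, some r, (l2c_m0 M).2 ⟨r, hr, rfl⟩⟩, ⟨rfl, h1⟩, rfl, h3⟩
    · exact ⟨⟨.inr (.inr (.inl (l, u))), some x, (l2c_m2 M).2 ⟨h1, x, hx, rfl⟩⟩, ⟨rfl, rfl⟩, rfl,
        h2⟩

theorem l2c_keyA {l : L ⊕ J} {u : U ⊕ J} {j : J} (h : ¬ T.satA l u) (h1 : T.lo' j l)
    (h2 : T.up' j u) {x : M.Ω} (hx : x ∈ Sum.elim M.X M.R l) : ∃ r ∈ M.R j, l2cA M j l r = x := by
  rcases l with l | j'
  · rcases u with u | j''
    · exact absurd trivial h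
    · obtain rfl : j = j'' := h2
      exact M.ka j l (not_not.1 h) x hx
  · obtain rfl : j = j' := h1
    exact ⟨x, hx, rfl⟩

theorem l2c_keyB {l : L ⊕ J} {u : U ⊕ J} {j : J} (h : ¬ T.satB l u) (h1 : T.lo' j l)
    (h2 : T.up' j u) {x : M.Ω} (hx : x ∈ Sum.elim M.Y M.R u) : ∃ r ∈ M.R j, l2cB M j u r = x := by
  rcases u with u | j'
  · rcases l with l | j''
    · exact absurd trivial h
    · obtain rfl : j = j'' := h1
      exact M.kb j u (not_not.1 h) x hx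
  · obtain rfl : j = j' := h2
    exact ⟨x, hx, rfl⟩

theorem l2c_allA [Nonempty U] (l : L ⊕ J) {x : M.Ω} (hx : x ∈ Sum.elim M.X M.R l) :
    ∃ m : l2cRec (l2cZ M), (l2cLo M).kk m.1 l false ∧ (l2cLo M).v m.1 l m.2.1 = some x ∧ True := by
  refine (l2c_lo M l hx fun _ => True).2 ?_
  rcases l with l | j
  · exact Or.inr ⟨.inl (Classical.arbitrary U), trivial, trivial⟩
  · exact Or.inl ⟨j, rfl, ⟨x, hx, rfl⟩, trivial⟩

theorem l2c_allB [Nonempty L] (u : U ⊕ J) {x : M.Ω} (hx : x ∈ Sum.elim M.Y M.R u) :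
    ∃ m : l2cRec (l2cZ M), (l2cHi M).kk m.1 u false ∧ (l2cHi M).v m.1 u m.2.1 = some x ∧ True := by
  refine (l2c_hi M u hx fun _ => True).2 ?_
  rcases u with u | j
  · exact Or.inr ⟨.inl (Classical.arbitrary L), trivial, trivial⟩
  · exact Or.inl ⟨j, rfl, ⟨x, hx, rfl⟩, trivial⟩

theorem l2c_pairs [Fintype J] (hT : T.WF) (l : L ⊕ J) (u : U ⊕ J) :
    {w : Option M.Ω × Option M.Ω | ∃ m : l2cRec (l2cZ M), (l2cLo M).kk m.1 l false ∧
      (l2cHi M).kk m.1 u false ∧ w = ((l2cLo M).v m.1 l m.2.1, (l2cHi M).v m.1 u m.2.1)}.ncard =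
    T.pairs sL sJ l u := by
  have e : {w : Option M.Ω × Option M.Ω | ∃ m : l2cRec (l2cZ M), (l2cLo M).kk m.1 l false ∧
      (l2cHi M).kk m.1 u false ∧ w = ((l2cLo M).v m.1 l m.2.1, (l2cHi M).v m.1 u m.2.1)} =
      {w | ∃ j, ∃ r ∈ M.R j, T.lo' j l ∧ T.up' j u ∧
        w = (some (l2cA M j l r), some (l2cB M j u r))} := by
    ext w
    constructor
    · rintro ⟨⟨j | p | p | _, o, ho⟩, h1, h2, h3⟩
      · obtain ⟨r, hr, rfl⟩ := (l2c_m0 M).1 ho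
        exact ⟨j, r, hr, h1.2, h2.2, h3⟩
      · exact absurd h2.1 (by simp)
      · exact absurd h1.1 (by simp)
      · exact absurd h1 (by simp [l2cLo, Tab.kLo])
    · rintro ⟨j, r, hr, h1, h2, h3⟩
      exact ⟨⟨.inl j, some r, (l2c_m0 M).2 ⟨r, hr, rfl⟩⟩, ⟨rfl, h1⟩, ⟨rfl, h2⟩, h3⟩
  rw [e]
  unfold Tab.pairs
  split_ifs with c
  · obtain ⟨l, u, rfl, rfl, hf⟩ := c
    rw [← l2c_cX M, ← card_map ⟨some, Option.some_injective M.Ω⟩, ← Set.ncard_coe_finset]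
    refine Set.ncard_congr (fun z _ => z.1) ?_ ?_ ?_
    · rintro _ ⟨j, r, hr, h1, -, rfl⟩
      exact mem_coe.2 (mem_map.2 ⟨_, l2c_hA M h1 hr, rfl⟩)
    · rintro _ _ ⟨j, r, hr, h1, h2, rfl⟩ ⟨j', r', hr', h1', h2', rfl⟩ h
      have h' := Option.some_injective _ h
      exact Prod.ext h (congrArg some (M.hfn l u j j' hf h1 h2 h1' h2' r hr r' hr' h'))
    · intro o ho
      obtain ⟨x, hx, rfl⟩ := mem_map.1 (mem_coe.1 ho)
      obtain ⟨j, k1, k2⟩ := hT.fn l u hf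
      obtain ⟨r, hr, rfl⟩ := M.ka j l k1 x hx
      exact ⟨_, ⟨j, r, hr, hT.kL j l k1, k2, rfl⟩, rfl⟩
  · have e2 : ∑ j, (if T.lo' j l ∧ T.up' j u then sJ j else 0) =
        #((univ.filter fun j => T.lo' j l ∧ T.up' j u).sigma fun j => M.R j) := by
      rw [card_sigma, sum_filter]
      exact sum_congr rfl fun j _ => by rw [M.cR]
    rw [e2, ← Set.ncard_coe_finset]
    symm
    refine Set.ncard_congr (fun z _ => (some (l2cA M z.1 l z.2), some (l2cB M z.1 u z.2))) ?_ ?_ ?_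
    · rintro ⟨j, r⟩ h
      obtain ⟨h1, h2⟩ := mem_sigma.1 (mem_coe.1 h)
      exact ⟨j, r, h2, (mem_filter.1 h1).2.1, (mem_filter.1 h1).2.2, rfl⟩
    · rintro ⟨j, r⟩ ⟨j', r'⟩ h h' e3
      obtain ⟨h1, hr⟩ := mem_sigma.1 (mem_coe.1 h)
      obtain ⟨h1', hr'⟩ := mem_sigma.1 (mem_coe.1 h')
      obtain ⟨-, a1, a2⟩ := mem_filter.1 h1
      obtain ⟨-, b1, b2⟩ := mem_filter.1 h1'
      have f1 := Option.some_injective _ (congrArg Prod.fst e3)
      have f2 := Option.some_injective _ (congrArg Prod.snd e3)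
      have : j = j' ∧ r = r' := by
        rcases l with l | i
        · rcases u with u | i
          · exact M.hinj l u j j' (fun hf => c ⟨l, u, rfl, rfl, hf⟩) a1 a2 b1 b2 r hr r' hr' f1 f2
          · exact ⟨Eq.trans a2 (Eq.symm b2), f2⟩
        · exact ⟨Eq.trans a1 (Eq.symm b1), f1⟩
      obtain ⟨rfl, rfl⟩ := this
      rfl
    · rintro _ ⟨j, r, hr, h1, h2, rfl⟩
      exact ⟨⟨j, r⟩, mem_coe.2 (mem_sigma.2 ⟨mem_filter.2 ⟨mem_univ _, h1, h2⟩, hr⟩), rfl⟩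

end model

theorem l2c_up {Ω K L : Type} {Z : K → Finset (Option Ω)} [Fintype L] (D : L2cD Z L)
    (m0 : l2cRec Z) (h0 : ∀ l, D.kk m0.1 l true)
    (h : ∀ l, ∀ x ∈ D.X l, ∃ m : l2cRec Z, D.kk m.1 l false ∧ D.v m.1 l m.2.1 = some x ∧ True) :
    D.side.Up := by
  rintro ⟨l, _ | x, ho⟩
  · exact ⟨m0, h0 l, (Option.isNone_iff_eq_none.1 (D.hv _ l _ _ m0.2.2 (h0 l)).2).symm⟩
  · obtain ⟨m, h1, h2, -⟩ := h l x (by simpa using ho)
    exact ⟨m, h1, h2.symm⟩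

theorem l2c_down {Ω K L : Type} {Z : K → Finset (Option Ω)} [Fintype L] (D : L2cD Z L)
    (h : ∀ k, ∃ l β, D.kk k l β) : D.side.Down := fun m => by
  obtain ⟨l, β, h1⟩ := h m.1
  obtain ⟨x, -, -, h2⟩ := D.ex h1
  exact ⟨x, h2⟩

theorem L2C {L U J : Type} [Fintype L] [Fintype U] [Fintype J] [Nonempty L] [Nonempty U]
    {T : Tab L U J} (hT : T.WF) {sL : L → ℕ} {sU : U → ℕ} {sJ : J → ℕ} (M : T.Model sL sU sJ) :
    ∃ c : Core (L ⊕ J) (U ⊕ J), c.lo.Up ∧ c.lo.Down ∧ c.lo.Onto ∧ c.hi.Up ∧ c.hi.Down ∧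
      c.hi.Onto ∧ c.vis = T.visT sL sU sJ := by
  refine ⟨⟨l2cRec (l2cZ M), inferInstance, ⟨l2cU M⟩, (l2cLo M).side, (l2cHi M).side⟩,
    l2c_up _ (l2cU M) (fun _ => rfl) fun l x hx => l2c_allA M l hx, l2c_down _ ?_,
    fun l => ⟨⟨l, none, by simp⟩, rfl⟩,
    l2c_up _ (l2cU M) (fun _ => rfl) fun l x hx => l2c_allB M l hx, l2c_down _ ?_,
    fun l => ⟨⟨l, none, by simp⟩, rfl⟩, ?_⟩
  · rintro (j | p | p | _)
    exacts [⟨.inr j, false, rfl, rfl⟩, ⟨p.1, false, rfl, rfl⟩, ⟨p.1, true, rfl, rfl⟩,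
      ⟨.inl (Classical.arbitrary L), true, rfl⟩]
  · rintro (j | p | p | _)
    exacts [⟨.inr j, false, rfl, rfl⟩, ⟨p.2, true, rfl, rfl⟩, ⟨p.2, false, rfl, rfl⟩,
      ⟨.inl (Classical.arbitrary U), true, rfl⟩]
  funext a β e
  cases β
  swap
  · refine (l2c_true (l2cLo M) (l2cHi M) a e).trans ?_
    simp only [Tab.visT, l2c_cZ]
    rfl
  have oo := fun (ha : l2cOne a) (he : l2cOne e) =>
    l2c_oo (l2cLo M) (l2cHi M) ha he (l2cU M) (fun _ => rfl) fun _ => rfl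
  have hubA : ∀ l u, ∀ x ∈ Sum.elim M.X M.R l, (∃ m : l2cRec (l2cZ M), (l2cLo M).kk m.1 l false ∧
      (l2cLo M).v m.1 l m.2.1 = some x ∧ Tab.seen ((l2cHi M).kk m.1) (some (u, none))) ↔
      (T.satA l u ∨ ∃ j, T.lo' j l ∧ T.up' j u) := by
    intro l u x hx
    rw [l2c_lo M l hx fun k => Tab.seen ((l2cHi M).kk k) (some (u, none))]
    constructor
    · rintro (⟨j, h1, -, h2 | h2⟩ | ⟨u', h1, h2 | h2⟩)
      · exact Or.inr ⟨j, h1, h2.2⟩
      · exact absurd h2.1 (by simp)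
      · exact absurd h2.1 (by simp)
      · obtain rfl : u = u' := h2.2
        exact Or.inl h1
    · intro h
      by_cases c : T.satA l u
      · exact Or.inr ⟨u, c, Or.inr ⟨rfl, rfl⟩⟩
      · obtain ⟨j, h1, h2⟩ := h.resolve_left c
        exact Or.inl ⟨j, h1, l2c_keyA M c h1 h2 hx, Or.inl ⟨rfl, h2⟩⟩
  have hubB : ∀ l u, ∀ x ∈ Sum.elim M.Y M.R u, (∃ m : l2cRec (l2cZ M), (l2cHi M).kk m.1 u false ∧
      (l2cHi M).v m.1 u m.2.1 = some x ∧ Tab.seen ((l2cLo M).kk m.1) (some (l, none))) ↔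
      (T.satB l u ∨ ∃ j, T.lo' j l ∧ T.up' j u) := by
    intro l u x hx
    rw [l2c_hi M u hx fun k => Tab.seen ((l2cLo M).kk k) (some (l, none))]
    constructor
    · rintro (⟨j, h1, -, h2 | h2⟩ | ⟨u', h1, h2 | h2⟩)
      · exact Or.inr ⟨j, h2.2, h1⟩
      · exact absurd h2.1 (by simp)
      · exact absurd h2.1 (by simp)
      · obtain rfl : l = u' := h2.2
        exact Or.inl h1
    · intro h
      by_cases c : T.satB l u
      · exact Or.inr ⟨l, c, Or.inr ⟨rfl, rfl⟩⟩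
      · obtain ⟨j, h1, h2⟩ := h.resolve_left c
        exact Or.inl ⟨j, h2, l2c_keyB M c h1 h2 hx, Or.inl ⟨rfl, h1⟩⟩
  have mkA : ∀ l u, ∀ x ∈ Sum.elim M.X M.R l, (∃ m : l2cRec (l2cZ M), (l2cLo M).kk m.1 l false ∧
      (l2cLo M).v m.1 l m.2.1 = some x ∧ Tab.seen ((l2cHi M).kk m.1) (some (u, some true))) ↔
      T.satA l u := by
    intro l u x hx
    rw [l2c_lo M l hx fun k => Tab.seen ((l2cHi M).kk k) (some (u, some true))]
    constructor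
    · rintro (⟨j, h1, -, h2⟩ | ⟨u', h1, h2⟩)
      · exact absurd h2.1 (by simp)
      · obtain rfl : u = u' := h2.2
        exact h1
    · exact fun c => Or.inr ⟨u, c, rfl, rfl⟩
  have mkB : ∀ l u, ∀ x ∈ Sum.elim M.Y M.R u, (∃ m : l2cRec (l2cZ M), (l2cHi M).kk m.1 u false ∧
      (l2cHi M).v m.1 u m.2.1 = some x ∧ Tab.seen ((l2cLo M).kk m.1) (some (l, some true))) ↔
      T.satB l u := by
    intro l u x hx
    rw [l2c_hi M u hx fun k => Tab.seen ((l2cLo M).kk k) (some (l, some true))]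
    constructor
    · rintro (⟨j, h1, -, h2⟩ | ⟨u', h1, h2⟩)
      · exact absurd h2.1 (by simp)
      · obtain rfl : l = u' := h2.2
        exact h1
    · exact fun c => Or.inr ⟨l, c, rfl, rfl⟩
  rcases a with _ | ⟨l, _ | _ | _⟩ <;> rcases e with _ | ⟨u, _ | _ | _⟩
  · exact oo trivial trivial
  · exact oo trivial trivial
  · refine (l2c_swap _ _ _ _).trans ((l2c_uo (l2cHi M) (l2cLo M) u (e := none) trivial True
      fun x hx => ⟨fun _ => trivial, fun _ => l2c_allB M u hx⟩).trans ?_)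
    rw [if_pos trivial]; exact l2c_cY M u
  · exact oo trivial trivial
  · exact oo trivial trivial
  · exact oo trivial trivial
  · refine (l2c_swap _ _ _ _).trans ((l2c_uo (l2cHi M) (l2cLo M) u (e := some (l, none)) trivial _
      (hubB l u)).trans ?_)
    simp only [Tab.visT, ← l2c_cY M]
    congr
  · exact oo trivial trivial
  · refine (l2c_uo (l2cLo M) (l2cHi M) l (e := none) trivial True
      fun x hx => ⟨fun _ => trivial, fun _ => l2c_allA M l hx⟩).trans ?_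
    rw [if_pos trivial]; exact l2c_cX M l
  · refine (l2c_uo (l2cLo M) (l2cHi M) l (e := some (u, none)) trivial _ (hubA l u)).trans ?_
    simp only [Tab.visT, ← l2c_cX M]
    congr
  · exact (l2c_uu (l2cLo M) (l2cHi M) l u).trans (l2c_pairs M hT l u)
  · refine (l2c_uo (l2cLo M) (l2cHi M) l (e := some (u, some true)) trivial _ (mkA l u)).trans ?_
    simp only [Tab.visT, ← l2c_cX M]
    congr
  · exact oo trivial trivial
  · exact oo trivial trivial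
  · refine (l2c_swap _ _ _ _).trans ((l2c_uo (l2cHi M) (l2cLo M) u (e := some (l, some true))
      trivial _ (mkB l u)).trans ?_)
    simp only [Tab.visT, ← l2c_cY M]
    congr
  · exact oo trivial trivial

end Pool.Agent.Lib.MP_685082_co.NX
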