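import Pool.Agent.Lib.MP_685082_co.NX.Core

/-! A core with the visible numbers of a system of tables gives a model of the tables. -/

namespace Pool.Agent.Lib.MP_685082_co.NX

open Finset

theorem l2s_uniq {α β : Type} [Finite α] (f : α → β) {S : Set α} {D : Set β}
    (h : S.ncard = D.ncard) (h1 : ∀ z ∈ S, f z ∈ D) (h2 : ∀ w ∈ D, ∃ z ∈ S, f z = w)
    (a b : α) (ha : a ∈ S) (hb : b ∈ S) (e : f a = f b) : a = b := by
  have : f '' S = D := Set.Subset.antisymm (by rintro _ ⟨z, hz, rfl⟩; exact h1 z hz)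
    (fun w hw => h2 w hw)
  exact Set.injOn_of_ncard_image_eq (by rw [this, h]) (Set.toFinite _) ha hb e

section core
variable {L U : Type} (c : Core L U)

/-- the two sides exchanged -/
def l2sFlip : Core U L := ⟨c.M, c.fin, c.ne, c.hi, c.lo⟩

theorem l2s_flip_vis (a : Pr L) (b : Bool) (e : Pr U) : (l2sFlip c).vis e b a = c.vis a b e := by
  cases b
  · refine Set.ncard_congr (fun z _ => (z.2, z.1)) ?_ ?_ ?_
    · rintro ⟨p, q⟩ ⟨h1, h2, m, h3, h4⟩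
      exact ⟨h2, h1, m, h4, h3⟩
    · rintro ⟨p, q⟩ ⟨p', q'⟩ _ _ h
      simp only [Prod.mk.injEq] at h
      exact Prod.ext h.2 h.1
    · rintro ⟨p, q⟩ ⟨h1, h2, m, h3, h4⟩
      exact ⟨(q, p), ⟨h2, h1, m, h4, h3⟩, rfl⟩
  · refine Set.ncard_congr (fun z _ => (z.2.2, z.2.1, z.1)) ?_ ?_ ?_
    · rintro ⟨p, m, q⟩ ⟨h1, h2, h3, h4⟩
      exact ⟨h2, h1, h4, h3⟩
    · rintro ⟨p, m, q⟩ ⟨p', m', q'⟩ _ _ h
      simp only [Prod.mk.injEq] at h
      exact Prod.ext h.2.2 (Prod.ext h.2.1 h.1)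
    · rintro ⟨p, m, q⟩ ⟨h1, h2, h3, h4⟩
      exact ⟨(q, m, p), ⟨h2, h1, h4, h3⟩, rfl⟩

/-- elements with a given type and mark -/
def l2sEl {L M : Type} (D : Side L M) (l : L) (β : Bool) : Set D.A :=
  {x | D.t x = l ∧ D.mark x = β}

theorem l2s_ff (l : L) (β : Bool) (u : U) (γ : Bool) :
    c.vis (some (l, some β)) false (some (u, some γ)) = {p : c.lo.A × c.hi.A |
      p.1 ∈ l2sEl c.lo l β ∧ p.2 ∈ l2sEl c.hi u γ ∧ ∃ m, c.lo.r p.1 m ∧ c.hi.r p.2 m}.ncard := by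
  symm
  refine Set.ncard_congr (fun z _ => (some (.inr z.1), some (.inr z.2))) ?_ ?_ ?_
  · rintro ⟨x, y⟩ ⟨h1, h2, h3⟩
    exact ⟨⟨x, rfl, h1⟩, ⟨y, rfl, h2⟩, h3⟩
  · rintro ⟨x, y⟩ ⟨x', y'⟩ _ _ h
    simpa using h
  · rintro ⟨p, q⟩ ⟨⟨x, rfl, h1⟩, ⟨y, rfl, h2⟩, h3⟩
    exact ⟨(x, y), ⟨h1, h2, h3⟩, rfl⟩

theorem l2s_tt (l : L) (β : Bool) (u : U) (γ : Bool) :
    c.vis (some (l, some β)) true (some (u, some γ)) = {p : (c.lo.A × c.hi.A) × c.M |
      p.1.1 ∈ l2sEl c.lo l β ∧ p.1.2 ∈ l2sEl c.hi u γ ∧ c.lo.r p.1.1 p.2 ∧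
        c.hi.r p.1.2 p.2}.ncard := by
  symm
  refine Set.ncard_congr (fun z _ => (some (.inr z.1.1), z.2, some (.inr z.1.2))) ?_ ?_ ?_
  · rintro ⟨⟨x, y⟩, m⟩ ⟨h1, h2, h3⟩
    exact ⟨⟨x, rfl, h1⟩, ⟨y, rfl, h2⟩, h3⟩
  · rintro ⟨⟨x, y⟩, m⟩ ⟨⟨x', y'⟩, m'⟩ _ _ h
    simp only [Prod.mk.injEq, Option.some.injEq, Sum.inr.injEq] at h
    exact Prod.ext (Prod.ext h.1 h.2.2) h.2.1
  · rintro ⟨p, m, q⟩ ⟨⟨x, rfl, h1⟩, ⟨y, rfl, h2⟩, h3⟩
    exact ⟨((x, y), m), ⟨h1, h2, h3⟩, rfl⟩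

theorem l2s_fh (l : L) (β : Bool) (u : U) :
    c.vis (some (l, some β)) false (some (u, none)) = {x : c.lo.A |
      x ∈ l2sEl c.lo l β ∧ ∃ m, c.lo.r x m ∧ ∃ y, c.hi.t y = u ∧ c.hi.r y m}.ncard := by
  symm
  refine Set.ncard_congr (fun z _ => (some (.inr z), some (.inl u))) ?_ ?_ ?_
  · rintro x ⟨h1, h3⟩
    exact ⟨⟨x, rfl, h1⟩, rfl, h3⟩
  · rintro x x' _ _ h
    simpa using h
  · rintro ⟨p, q⟩ ⟨⟨x, rfl, h1⟩, rfl, h3⟩
    exact ⟨x, ⟨h1, h3⟩, rfl⟩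

theorem l2s_fn (hu : c.lo.Up) (l : L) (β : Bool) :
    c.vis (some (l, some β)) false none = (l2sEl c.lo l β).ncard := by
  symm
  refine Set.ncard_congr (fun z _ => (some (.inr z), none)) ?_ ?_ ?_
  · rintro x h1
    obtain ⟨m, hm⟩ := hu x
    exact ⟨⟨x, rfl, h1⟩, rfl, m, hm, trivial⟩
  · rintro x x' _ _ h
    simpa using h
  · rintro ⟨p, q⟩ ⟨⟨x, rfl, h1⟩, rfl, -⟩
    exact ⟨x, h1, rfl⟩

theorem l2s_th (l : L) (β : Bool) (u : U) :
    c.vis (some (l, some β)) true (some (u, none)) = {p : c.lo.A × c.M |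
      (p.1 ∈ l2sEl c.lo l β ∧ c.lo.r p.1 p.2) ∧ ∃ y, c.hi.t y = u ∧ c.hi.r y p.2}.ncard := by
  symm
  refine Set.ncard_congr (fun z _ => (some (.inr z.1), z.2, some (.inl u))) ?_ ?_ ?_
  · rintro ⟨x, m⟩ ⟨⟨h1, h2⟩, h3⟩
    exact ⟨⟨x, rfl, h1⟩, rfl, h2, h3⟩
  · rintro ⟨x, m⟩ ⟨x', m'⟩ _ _ h
    simpa using h
  · rintro ⟨p, m, q⟩ ⟨⟨x, rfl, h1⟩, rfl, h2, h3⟩
    exact ⟨(x, m), ⟨⟨h1, h2⟩, h3⟩, rfl⟩

theorem l2s_tn (l : L) (β : Bool) :
    c.vis (some (l, some β)) true none = {p : c.lo.A × c.M |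
      p.1 ∈ l2sEl c.lo l β ∧ c.lo.r p.1 p.2}.ncard := by
  symm
  refine Set.ncard_congr (fun z _ => (some (.inr z.1), z.2, none)) ?_ ?_ ?_
  · rintro ⟨x, m⟩ ⟨h1, h2⟩
    exact ⟨⟨x, rfl, h1⟩, rfl, h2, trivial⟩
  · rintro ⟨x, m⟩ ⟨x', m'⟩ _ _ h
    simpa using h
  · rintro ⟨p, m, q⟩ ⟨⟨x, rfl, h1⟩, rfl, h2, -⟩
    exact ⟨(x, m), ⟨h1, h2⟩, rfl⟩

variable {c}

/-- no related pair -/
theorem l2s_zero {l : L} {β : Bool} {u : U} {γ : Bool}
    (h : c.vis (some (l, some β)) false (some (u, some γ)) = 0) {x : c.lo.A} {y : c.hi.A} {m : c.M}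
    (hx : x ∈ l2sEl c.lo l β) (hy : y ∈ l2sEl c.hi u γ) (h1 : c.lo.r x m) (h2 : c.hi.r y m) :
    False := by
  rw [l2s_ff, Set.ncard_eq_zero] at h
  exact (Set.eq_empty_iff_forall_notMem.1 h (x, y)) ⟨hx, hy, m, h1, h2⟩

theorem l2s_unm {l : L} {u : U}
    (h : c.vis (some (l, some false)) false (some (u, some true)) = 0) {x : c.lo.A} {y : c.hi.A}
    {m : c.M} (hx : x ∈ l2sEl c.lo l false) (hy : c.hi.t y = u) (h1 : c.lo.r x m)
    (h2 : c.hi.r y m) : y ∈ l2sEl c.hi u false := by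
  refine ⟨hy, ?_⟩
  by_contra hn
  exact l2s_zero h hx ⟨hy, by simpa using hn⟩ h1 h2

/-- every element has one record -/
theorem l2s_rec (hu : c.lo.Up) {l : L}
    (h : c.vis (some (l, some false)) true none = c.vis (some (l, some false)) false none)
    {x : c.lo.A} (hx : x ∈ l2sEl c.lo l false) {m m' : c.M} (h1 : c.lo.r x m)
    (h2 : c.lo.r x m') : m = m' := by
  rw [l2s_tn, l2s_fn c hu] at h
  have := l2s_uniq Prod.fst h (fun z hz => hz.1)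
    (fun w hw => (hu w).elim fun m hm => ⟨(w, m), ⟨hw, hm⟩, rfl⟩)
    (x, m) (x, m') ⟨hx, h1⟩ ⟨hx, h2⟩ rfl
  exact congrArg Prod.snd this

/-- every record of an element carries a value -/
theorem l2s_val {l : L} {u : U}
    (h : c.vis (some (l, some false)) true (some (u, none)) =
      c.vis (some (l, some false)) true none)
    (h0 : c.vis (some (l, some false)) false (some (u, some true)) = 0)
    {x : c.lo.A} (hx : x ∈ l2sEl c.lo l false) {m : c.M} (h1 : c.lo.r x m) :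
    ∃ y ∈ l2sEl c.hi u false, c.hi.r y m := by
  rw [l2s_th, l2s_tn] at h
  have e := Set.eq_of_subset_of_ncard_le (fun z hz => hz.1) h.ge (Set.toFinite _)
  have : (x, m) ∈ {p : c.lo.A × c.M | p.1 ∈ l2sEl c.lo l false ∧ c.lo.r p.1 p.2} := ⟨hx, h1⟩
  rw [← e] at this
  obtain ⟨-, y, hy, h2⟩ := this
  exact ⟨y, l2s_unm h0 hx hy h1 h2, h2⟩

/-- a total relation with the right number of pairs is a function -/
theorem l2s_fun (hu : c.lo.Up) {l : L} {u : U}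
    (h : c.vis (some (l, some false)) false (some (u, some false)) =
      c.vis (some (l, some false)) false none)
    (ht : ∀ x ∈ l2sEl c.lo l false, ∃ y ∈ l2sEl c.hi u false, ∃ m, c.lo.r x m ∧ c.hi.r y m)
    {x : c.lo.A} (hx : x ∈ l2sEl c.lo l false) {y y' : c.hi.A} (hy : y ∈ l2sEl c.hi u false)
    (hy' : y' ∈ l2sEl c.hi u false) {m m' : c.M} (h1 : c.lo.r x m) (h2 : c.hi.r y m)
    (h3 : c.lo.r x m') (h4 : c.hi.r y' m') : y = y' := by
  rw [l2s_ff, l2s_fn c hu] at h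
  have := l2s_uniq Prod.fst h (fun z hz => hz.1)
    (fun w hw => (ht w hw).elim fun y hy => ⟨(w, y), ⟨hw, hy.1, hy.2⟩, rfl⟩)
    (x, y) (x, y') ⟨hx, hy, m, h1, h2⟩ ⟨hx, hy', m', h3, h4⟩ rfl
  exact congrArg Prod.snd this

/-- keys -/
theorem l2s_key (hu : c.lo.Up) {l : L} {u : U}
    (h : c.vis (some (l, some false)) false (some (u, none)) =
      c.vis (some (l, some false)) false none)
    (h0 : c.vis (some (l, some false)) false (some (u, some true)) = 0)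
    {x : c.lo.A} (hx : x ∈ l2sEl c.lo l false) :
    ∃ y ∈ l2sEl c.hi u false, ∃ m, c.lo.r x m ∧ c.hi.r y m := by
  rw [l2s_fh, l2s_fn c hu] at h
  have e := Set.eq_of_subset_of_ncard_le (fun z hz => hz.1) h.ge (Set.toFinite _)
  have hx' := hx
  rw [← e] at hx'
  obtain ⟨-, m, h1, y, hy, h2⟩ := hx'
  exact ⟨y, l2s_unm h0 hx hy h1 h2, m, h1, h2⟩

/-- one record between two related elements -/
theorem l2s_mid {l : L} {u : U}
    (h : c.vis (some (l, some false)) true (some (u, some false)) =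
      c.vis (some (l, some false)) false (some (u, some false)))
    {x : c.lo.A} (hx : x ∈ l2sEl c.lo l false) {y : c.hi.A} (hy : y ∈ l2sEl c.hi u false)
    {m m' : c.M} (h1 : c.lo.r x m) (h2 : c.hi.r y m) (h3 : c.lo.r x m') (h4 : c.hi.r y m') :
    m = m' := by
  rw [l2s_tt, l2s_ff] at h
  have := l2s_uniq Prod.fst h (fun z hz => ⟨hz.1, hz.2.1, z.2, hz.2.2⟩)
    (fun w hw => hw.2.2.elim fun m hm => ⟨(w, m), ⟨hw.1, hw.2.1, hm⟩, rfl⟩)
    ((x, y), m) ((x, y), m') ⟨hx, hy, h1, h2⟩ ⟨hx, hy, h3, h4⟩ rfl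
  exact congrArg Prod.snd this

end core

section numbers
variable {L U J : Type} [Fintype L] [Fintype U] [Fintype J] (T : Tab L U J)
  (sL : L → ℕ) (sU : U → ℕ) (sJ : J → ℕ)

open Classical in
theorem l2s_T1 (l : L ⊕ J) (u : U ⊕ J) :
    T.visT sL sU sJ (some (l, some false)) true (some (u, some false)) =
      ∑ j, if T.lo' j l ∧ T.up' j u then sJ j else 0 := by
  simp [Tab.visT, Fintype.sum_sum_type, Tab.seen, Tab.kLo, Tab.kUp, Tab.kSz]

theorem l2s_T2 (j : J) (e : Pr (U ⊕ J)) (he : Tab.seen (T.kUp (.inl j)) e) :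
    T.visT sL sU sJ (some (.inr j, some false)) true e = sJ j := by
  classical
  simp only [Tab.visT]
  rw [Finset.sum_eq_single (Sum.inl j : Tab.Kind L U J)]
  · rw [if_pos ⟨⟨rfl, rfl⟩, he⟩]
    rfl
  · rintro (j' | ⟨l, u⟩ | p | p) - hne
    · exact if_neg fun h => hne (congrArg Sum.inl h.1.2)
    · split_ifs with h
      · obtain rfl : Sum.inr j = l := h.1.2
        simp [Tab.kSz, Tab.satA]
      · rfl
    · exact if_neg fun h => by simpa using h.1.1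
    · exact if_neg fun h => by simpa [Tab.seen, Tab.kLo] using h.1
  · simp

theorem l2s_T3 (j : J) (a : Pr (L ⊕ J)) (ha : Tab.seen (T.kLo (.inl j)) a) :
    T.visT sL sU sJ a true (some (.inr j, some false)) = sJ j := by
  classical
  simp only [Tab.visT]
  rw [Finset.sum_eq_single (Sum.inl j : Tab.Kind L U J)]
  · rw [if_pos ⟨ha, ⟨rfl, rfl⟩⟩]
    rfl
  · rintro (j' | p | ⟨l, u⟩ | p) - hne
    · exact if_neg fun h => hne (congrArg Sum.inl h.2.2)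
    · exact if_neg fun h => by simpa using h.2.1
    · split_ifs with h
      · obtain rfl : Sum.inr j = u := h.2.2
        cases l <;> simp [Tab.kSz, Tab.satB]
      · rfl
    · exact if_neg fun h => by simpa [Tab.seen, Tab.kUp] using h.2
  · simp

omit [Fintype L] [Fintype U] in
theorem l2s_P1 (j : J) (u : U ⊕ J) (h : T.up' j u) : T.pairs sL sJ (.inr j) u = sJ j := by
  classical
  rw [Tab.pairs, if_neg (by simp), Finset.sum_eq_single j, if_pos ⟨rfl, h⟩]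
  · exact fun j' _ hne => if_neg fun h => hne h.1
  · simp

omit [Fintype L] [Fintype U] in
theorem l2s_P2 (j : J) (l : L ⊕ J) (h : T.lo' j l) : T.pairs sL sJ l (.inr j) = sJ j := by
  classical
  rw [Tab.pairs, if_neg (by simp), Finset.sum_eq_single j, if_pos ⟨h, rfl⟩]
  · exact fun j' _ hne => if_neg fun h => hne h.2
  · simp

omit [Fintype L] [Fintype U] in
theorem l2s_P0 {j j' : J} (h : j ≠ j') : T.pairs sL sJ (.inr j) (.inr j') = 0 := by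
  classical
  rw [Tab.pairs, if_neg (by simp)]
  exact Finset.sum_eq_zero fun i _ => if_neg fun hi => h (hi.1.symm.trans hi.2)

end numbers

theorem L2S {L U J : Type} [Fintype L] [Fintype U] [Fintype J]
    {T : Tab L U J} (hT : T.WF) {sL : L → ℕ} {sU : U → ℕ} {sJ : J → ℕ}
    (c : Core (L ⊕ J) (U ⊕ J)) (h1 : c.lo.Up) (h2 : c.hi.Up) (h : c.vis = T.visT sL sU sJ) :
    Nonempty (T.Model sL sU sJ) := by
  classical
  have hf : ∀ e b a, (l2sFlip c).vis e b a = T.visT sL sU sJ a b e := fun e b a => by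
    rw [l2s_flip_vis, h]
  have h2' : (l2sFlip c).lo.Up := h2
  -- the private lower elements
  have RB : ∀ j, ∀ v ∈ l2sEl c.lo (.inr j) false, ∀ m m', c.lo.r v m → c.lo.r v m' → m = m' :=
    fun j v hv m m' a b => l2s_rec h1 (by rw [h, l2s_T2 T sL sU sJ j none trivial]; rfl) hv a b
  have VB : ∀ j u, T.up' j u → ∀ v ∈ l2sEl c.lo (.inr j) false, ∀ m, c.lo.r v m →
      ∃ y ∈ l2sEl c.hi u false, c.hi.r y m := fun j u hu v hv m a =>
    l2s_val (by rw [h, l2s_T2 T sL sU sJ j none trivial,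
        l2s_T2 T sL sU sJ j (some (u, none)) (Or.inl ⟨rfl, hu⟩)])
      (by rw [h]; simp [Tab.visT, Tab.satA]) hv a
  have UB : ∀ j u, T.up' j u → ∀ v ∈ l2sEl c.lo (.inr j) false, ∀ y ∈ l2sEl c.hi u false,
      ∀ y' ∈ l2sEl c.hi u false, ∀ m m', c.lo.r v m → c.hi.r y m → c.lo.r v m' → c.hi.r y' m' →
      y = y' := fun j u hu v hv y hy y' hy' m m' a b a' b' =>
    l2s_fun h1 (by rw [h]; exact l2s_P1 T sL sJ j u hu)
      (fun x hx => (h1 x).elim fun m hm => (VB j u hu x hx m hm).elim fun y hy =>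
        ⟨y, hy.1, m, hm, hy.2⟩) hv hy hy' a b a' b'
  -- the private upper elements
  have RA : ∀ j, ∀ w ∈ l2sEl c.hi (.inr j) false, ∀ m m', c.hi.r w m → c.hi.r w m' → m = m' :=
    fun j w hw m m' a b => l2s_rec (c := l2sFlip c) h2'
      (by rw [hf, hf, l2s_T3 T sL sU sJ j none trivial]; rfl) hw a b
  have VA : ∀ j l, T.lo' j l → ∀ w ∈ l2sEl c.hi (.inr j) false, ∀ m, c.hi.r w m →
      ∃ x ∈ l2sEl c.lo l false, c.lo.r x m := fun j l hl w hw m a =>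
    l2s_val (c := l2sFlip c) (by rw [hf, hf, l2s_T3 T sL sU sJ j none trivial,
        l2s_T3 T sL sU sJ j (some (l, none)) (Or.inl ⟨rfl, hl⟩)])
      (by rw [hf]; cases l <;> simp [Tab.visT, Tab.satB]) hw a
  have UA : ∀ j l, T.lo' j l → ∀ w ∈ l2sEl c.hi (.inr j) false, ∀ x ∈ l2sEl c.lo l false,
      ∀ x' ∈ l2sEl c.lo l false, ∀ m m', c.hi.r w m → c.lo.r x m → c.hi.r w m' → c.lo.r x' m' →
      x = x' := fun j l hl w hw x hx x' hx' m m' a b a' b' =>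
    l2s_fun (c := l2sFlip c) h2' (by rw [hf, hf]; exact l2s_P2 T sL sJ j l hl)
      (fun w hw => (h2 w).elim fun m hm => (VA j l hl w hw m hm).elim fun y hy =>
        ⟨y, hy.1, m, hm, hy.2⟩) hw hx hx' a b a' b'
  choose mm hmm using h2
  have EA : ∀ j l (w : c.hi.A), ∃ o : c.lo.A ⊕ c.hi.A, T.lo j l → w ∈ l2sEl c.hi (.inr j) false →
      ∃ x, o = .inl x ∧ x ∈ l2sEl c.lo (.inl l) false ∧ c.lo.r x (mm w) := by
    intro j l w
    by_cases hh : T.lo j l ∧ w ∈ l2sEl c.hi (.inr j) false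
    · obtain ⟨x, hx, hr⟩ := VA j (.inl l) hh.1 w hh.2 _ (hmm w)
      exact ⟨.inl x, fun _ _ => ⟨x, rfl, hx, hr⟩⟩
    · exact ⟨.inr w, fun a b => (hh ⟨a, b⟩).elim⟩
  have EB : ∀ j u (w : c.hi.A), ∃ o : c.lo.A ⊕ c.hi.A, T.up j u → w ∈ l2sEl c.hi (.inr j) false →
      ∃ y, o = .inr y ∧ y ∈ l2sEl c.hi (.inl u) false ∧ c.hi.r y (mm w) := by
    intro j u w
    by_cases hh : T.up j u ∧ w ∈ l2sEl c.hi (.inr j) false
    · obtain ⟨v, hv, hr⟩ := VA j (.inr j) rfl w hh.2 _ (hmm w)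
      obtain ⟨y, hy, hr'⟩ := VB j (.inl u) hh.1 v hv _ hr
      exact ⟨.inr y, fun _ _ => ⟨y, rfl, hy, hr'⟩⟩
    · exact ⟨.inr w, fun a b => (hh ⟨a, b⟩).elim⟩
  choose fa hfa using EA
  choose fb hfb using EB
  have KA : ∀ j l, T.kL j l → ∀ x ∈ l2sEl c.lo (.inl l) false,
      ∃ w ∈ l2sEl c.hi (.inr j) false, c.lo.r x (mm w) := by
    intro j l hk x hx
    obtain ⟨w, hw, m, a, b⟩ := l2s_key h1 (u := .inr j)
      (by
        rw [h]
        exact if_pos (Or.inr ⟨j, hT.kL j l hk, rfl⟩))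
      (by rw [h]; exact if_neg fun hn => hn hk) hx
    exact ⟨w, hw, RA j w hw m _ b (hmm w) ▸ a⟩
  let inA : (L ⊕ J) → Finset (c.lo.A ⊕ c.hi.A) := fun l =>
    (Set.toFinite (l2sEl c.lo l false)).toFinset.map ⟨Sum.inl, Sum.inl_injective⟩
  let inB : (U ⊕ J) → Finset (c.lo.A ⊕ c.hi.A) := fun u =>
    (Set.toFinite (l2sEl c.hi u false)).toFinset.map ⟨Sum.inr, Sum.inr_injective⟩
  have mA : ∀ l o, o ∈ inA l ↔ ∃ x ∈ l2sEl c.lo l false, Sum.inl x = o := fun l o => by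
    simp only [inA, mem_map, Set.Finite.mem_toFinset, Function.Embedding.coeFn_mk]
  have mB : ∀ u o, o ∈ inB u ↔ ∃ y ∈ l2sEl c.hi u false, Sum.inr y = o := fun u o => by
    simp only [inB, mem_map, Set.Finite.mem_toFinset, Function.Embedding.coeFn_mk]
  have cA : ∀ l, (inA l).card = Sum.elim sL sJ l := fun l => by
    rw [card_map, ← Set.ncard_eq_toFinset_card, ← l2s_fn c h1, h]
    rfl
  have cB : ∀ u, (inB u).card = Sum.elim sU sJ u := fun u => by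
    rw [card_map, ← Set.ncard_eq_toFinset_card]
    exact (l2s_fn (l2sFlip c) h2' u false).symm.trans (hf _ _ _)
  refine ⟨⟨c.lo.A ⊕ c.hi.A, fun l => inA (.inl l), fun u => inB (.inl u), fun j => inB (.inr j),
    fun j l => Sum.elim Sum.inl (fa j l), fun j u => Sum.elim Sum.inl (fb j u),
    fun l => cA _, fun u => cB _, fun j => cB _, ?_, ?_, ?_, ?_, ?_, ?_⟩⟩
  · intro j l hl r hr
    obtain ⟨w, hw, rfl⟩ := (mB _ _).1 hr
    obtain ⟨x, e, hx, -⟩ := hfa j l w hl hw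
    exact (mA _ _).2 ⟨x, hx, e.symm⟩
  · intro j u hu r hr
    obtain ⟨w, hw, rfl⟩ := (mB _ _).1 hr
    obtain ⟨y, e, hy, -⟩ := hfb j u w hu hw
    exact (mB _ _).2 ⟨y, hy, e.symm⟩
  · intro j l hk o ho
    obtain ⟨x, hx, rfl⟩ := (mA _ _).1 ho
    obtain ⟨w, hw, a⟩ := KA j l hk x hx
    obtain ⟨x', e, hx', a'⟩ := hfa j l w (hT.kL j l hk) hw
    refine ⟨.inr w, (mB _ _).2 ⟨w, hw, rfl⟩, e.trans (congrArg _ ?_)⟩
    exact UA j (.inl l) (hT.kL j l hk) w hw x' hx' x hx _ _ (hmm w) a' (hmm w) a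
  · intro j u hk o ho
    obtain ⟨y, hy, rfl⟩ := (mB _ _).1 ho
    obtain ⟨v, hv, m, a, b⟩ := l2s_key (c := l2sFlip c) h2' (u := .inr j) (l := .inl u)
      (by
        rw [hf, hf]
        exact if_pos (Or.inr ⟨j, rfl, hT.kU j u hk⟩))
      (by rw [hf]; exact if_neg fun hn => hn hk) hy
    obtain ⟨w, hw, a1⟩ := VB j (.inr j) rfl v hv m b
    obtain rfl : m = mm w := RA j w hw _ _ a1 (hmm w)
    obtain ⟨y', e, hy', a'⟩ := hfb j u w (hT.kU j u hk) hw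
    refine ⟨.inr w, (mB _ _).2 ⟨w, hw, rfl⟩, e.trans (congrArg _ ?_)⟩
    exact UB j (.inl u) (hT.kU j u hk) v hv y' hy' y hy _ _ b a' b a
  · intro l u j j' hfn a1 a2 a3 a4 r hr r' hr' e
    obtain ⟨w, hw, rfl⟩ := (mB _ _).1 hr
    obtain ⟨w', hw', rfl⟩ := (mB _ _).1 hr'
    obtain ⟨x, e1, hx, b1⟩ := hfa j l w a1 hw
    obtain ⟨x', e2, -, b2⟩ := hfa j' l w' a3 hw'
    obtain ⟨y, e3, hy, b3⟩ := hfb j u w a2 hw
    obtain ⟨y', e4, hy', b4⟩ := hfb j' u w' a4 hw'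
    obtain rfl : x = x' := Sum.inl_injective (e1.symm.trans (e.trans e2))
    refine e3.trans ((congrArg _ ?_).trans e4.symm)
    refine l2s_fun h1 ?_ (fun z hz => ?_) hx hy hy' b1 b3 b2 b4
    · rw [h]
      exact if_pos ⟨l, u, rfl, rfl, hfn⟩
    · obtain ⟨j0, k1, k2⟩ := hT.fn l u hfn
      obtain ⟨w0, hw0, a⟩ := KA j0 l k1 z hz
      obtain ⟨y0, -, hy0, b⟩ := hfb j0 u w0 k2 hw0
      exact ⟨y0, hy0, _, a, b⟩
  · intro l u j j' hfn a1 a2 a3 a4 r hr r' hr' e e'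
    obtain ⟨w, hw, rfl⟩ := (mB _ _).1 hr
    obtain ⟨w', hw', rfl⟩ := (mB _ _).1 hr'
    obtain ⟨x, e1, hx, b1⟩ := hfa j l w a1 hw
    obtain ⟨x', e2, -, b2⟩ := hfa j' l w' a3 hw'
    obtain ⟨y, e3, hy, b3⟩ := hfb j u w a2 hw
    obtain ⟨y', e4, -, b4⟩ := hfb j' u w' a4 hw'
    obtain rfl : x = x' := Sum.inl_injective (e1.symm.trans (e.trans e2))
    obtain rfl : y = y' := Sum.inr_injective (e3.symm.trans (e'.trans e4))
    have em : mm w = mm w' := by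
      refine l2s_mid ?_ hx hy b1 b3 b2 b4
      rw [h, l2s_T1]
      refine (if_neg ?_).symm
      rintro ⟨l', u', p1, p2, p3⟩
      obtain rfl := Sum.inl_injective p1
      obtain rfl := Sum.inl_injective p2
      exact hfn p3
    obtain ⟨v, hv, b5⟩ := VA j (.inr j) rfl w hw _ (hmm w)
    have b6 : c.hi.r w' (mm w) := em ▸ hmm w'
    obtain rfl : j = j' := by
      by_contra hne
      exact l2s_zero (by rw [h]; exact l2s_P0 T sL sJ hne) hv hw' b5 b6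
    exact ⟨rfl, congrArg _ (UB j (.inr j) rfl v hv w hw w' hw' _ _ b5 (hmm w) b5 b6)⟩

end Pool.Agent.Lib.MP_685082_co.NX
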