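import Pool.Agent.Lib.MP_685082_co.Defs
import Pool.Prelude.Def_F_458e953d

/-! Definitions used in the statement about the complexity of the set of flag vectors. -/

namespace Pool.Agent.Lib.MP_685082_co.NX

open N68a2faeb N487b59b3

/-- Nondeterministic exponential time: witnesses of length `2 ^ p(|x|)`, checked in time
polynomial in the length of input and witness. -/
def NEXP : DecisionComplexityClass :=
  {L | ∃ (p : Polynomial ℕ) (R : List Bool × List Bool → Bool), IsPolyTime R ∧
    ∀ x, L x ↔ ∃ w : List Bool, w.length = 2 ^ p.eval x.length ∧ R (x, w)}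

open Classical in
/-- The strings that code, with integers in binary, a list of `2 ^ n` integers whose entry at
position `∑ i ∈ S, 2 ^ (i - 1)` is `f_S (P)` for all `S ⊆ {1, …, n}`, for some Eulerian poset `P`
of rank `n + 1`. -/
noncomputable def FlagLang (n : ℕ) : DecisionProblem := fun x =>
  decide (∃ l : List ℤ, x = bitEncode l ∧ l.length = 2 ^ n ∧
    IsFlagVec n fun S => l.getD (∑ i ∈ S, 2 ^ (i - 1)) 0)

end Pool.Agent.Lib.MP_685082_co.NX
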