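import Pool.Agent.Lib.MP_685082_co.NX.Core
import Pool.Agent.Lib.MP_685082_co.NX.Defs
import Pool.Agent.Lib.Complexity.CookLevin

/-! The set of flag vectors lies in nondeterministic exponential time. -/

namespace Pool.Agent.Lib.MP_685082_co.NX
open Finset Cone Pool.Agent.Lib.Complexity N68a2faeb N487b59b3

/-- ranks, order table, bottom, top -/
abbrev MemD := List ℕ × List (List Bool) × ℕ × ℕ

def memR (d : MemD) : List ℕ := List.range d.1.length
def memRk (d : MemD) (i : ℕ) : ℕ := d.1.getD i 0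
def memLe (d : MemD) (i j : ℕ) : Bool := (d.2.1.getD i []).getD j false
def memLt (d : MemD) (i j : ℕ) : Bool := memLe d i j && !decide (i = j)

def memCn (d : MemD) : List ℕ → ℕ → ℕ
  | [], y => if memLt d d.2.2.1 y = true then 1 else 0
  | k :: L, y => ((memR d).map fun u =>
      if memRk d u = k ∧ memLt d u y = true then memCn d L u else 0).sum

def memOrd (d : MemD) : Bool :=
  decide (d.2.2.1 < d.1.length) && decide (d.2.2.2 < d.1.length) &&
  ((memR d).all fun i => memLe d i i && memLe d d.2.2.1 i && memLe d i d.2.2.2) &&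
  ((memR d).all fun i => (memR d).all fun j => !(memLe d i j && memLe d j i) || decide (i = j)) &&
  ((memR d).all fun i => (memR d).all fun j => (memR d).all fun k =>
    !(memLe d i j && memLe d j k) || memLe d i k)

def memCov (d : MemD) : Bool :=
  (memR d).all fun i => (memR d).all fun j =>
    !(memLt d i j && (memR d).all fun k => !(memLt d i k && memLt d k j)) ||
      decide (memRk d j = memRk d i + 1)

def memEul (d : MemD) : Bool :=
  (memR d).all fun i => (memR d).all fun j => !memLt d i j ||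
    decide ((memR d).countP (fun z => memLe d i z && memLe d z j && decide (memRk d z % 2 = 0)) =
      (memR d).countP (fun z => memLe d i z && memLe d z j && decide (memRk d z % 2 = 1)))

section pt
variable {α : Type} [Enc α] {d : α → MemD} {i j : α → ℕ}

@[fun_prop] theorem mem_pt_R (hd : PT d) : PT fun a => memR (d a) := by
  unfold memR; fun_prop
@[fun_prop] theorem mem_pt_Rk (hd : PT d) (hi : PT i) : PT fun a => memRk (d a) (i a) := by
  unfold memRk; fun_prop
@[fun_prop] theorem mem_pt_Le (hd : PT d) (hi : PT i) (hj : PT j) :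
    PT fun a => memLe (d a) (i a) (j a) := by
  unfold memLe; fun_prop
@[fun_prop] theorem mem_pt_Lt (hd : PT d) (hi : PT i) (hj : PT j) :
    PT fun a => memLt (d a) (i a) (j a) := by
  unfold memLt; fun_prop

theorem mem_pt_Cn (L : List ℕ) : PT fun p : MemD × ℕ => memCn p.1 L p.2 := by
  induction L with
  | nil => unfold memCn; fun_prop
  | cons k L ih =>
    unfold memCn
    refine PT.list_sum (PT.map (by fun_prop) (PT.ite (by fun_prop) ?_ (by fun_prop)))
    exact ih.comp (f := fun q : (MemD × ℕ) × ℕ => (q.1.1, q.2)) (by fun_prop)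

theorem mem_pt_Ord : PT memOrd := by unfold memOrd; fun_prop
theorem mem_pt_Cov : PT memCov := by unfold memCov; fun_prop
theorem mem_pt_Eul : PT memEul := by unfold memEul; fun_prop

theorem mem_pt_all {ι : Type} (s : List ι) (p : ι → α → Bool) (h : ∀ i, PT (p i)) :
    PT fun a => s.all fun i => p i a := by
  induction s with
  | nil => exact (PT.const true).of_eq fun a => rfl
  | cons i s ih => exact ((h i).and ih).of_eq fun a => by simp

end pt

def memDec (x : Str) : List ℤ := ((bitDecode x : Option (List ℤ)).map Rep.up).getD []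

theorem mem_pt_Dec : PT memDec := (PT.decode (List ℤ) PT.id).option_getD (PT.const _)

theorem memDec_enc (l : List ℤ) : memDec (bitEncode l) = l := by
  simp only [memDec, bitDecode_bitEncode, Option.map_some, Option.getD_some]
  exact List.map_id l

theorem mem_pt_enc : PT fun l : List ℤ => bitEncode l :=
  (PT.encode (List ℤ) PT.id).of_eq fun l => congrArg bitEncode (List.map_id l)

noncomputable def memChk (n : ℕ) (x : Str) (d : MemD) : Bool :=
  memOrd d && memCov d && memEul d && decide (memRk d d.2.2.1 = 0) &&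
    decide (memRk d d.2.2.2 = n + 1) && decide (x = bitEncode (memDec x)) &&
    decide ((memDec x).length = 2 ^ n) &&
    (Icc 1 n).powerset.toList.all fun S =>
      decide ((memDec x).getD (∑ i ∈ S, 2 ^ (i - 1)) 0 = (memCn d (S.sort (· ≥ ·)) d.2.2.2 : ℤ))

theorem mem_pt_Chk (n : ℕ) : PT fun p : Str × MemD => memChk n p.1 p.2 := by
  have h1 : PT fun p : Str × MemD => memDec p.1 := mem_pt_Dec.comp (by fun_prop)
  have h2 : PT fun p : Str × MemD => bitEncode (memDec p.1) := mem_pt_enc.comp h1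
  have h3 : PT fun p : Str × MemD => memOrd p.2 := mem_pt_Ord.comp (by fun_prop)
  have h4 : PT fun p : Str × MemD => memCov p.2 := mem_pt_Cov.comp (by fun_prop)
  have h5 : PT fun p : Str × MemD => memEul p.2 := mem_pt_Eul.comp (by fun_prop)
  unfold memChk
  refine PT.and (PT.and (PT.and (PT.and (PT.and ((h3.and h4).and h5) (by fun_prop)) (by fun_prop))
    (PT.dec_eq (by fun_prop) h2)) (PT.dec_eq h1.length (PT.const _))) (mem_pt_all _ _ fun S => ?_)
  exact PT.dec_eq (PT.getD h1 (PT.const _) (PT.const _)) (PT.natCast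
    ((mem_pt_Cn _).comp (f := fun p : Str × MemD => (p.2, p.2.2.2.2)) (by fun_prop)))

theorem mem_all (d : MemD) (f : ℕ → Bool) :
    (memR d).all f = true ↔ ∀ i : Fin d.1.length, f i = true := by
  simp only [memR, List.all_eq_true, List.mem_range]
  exact ⟨fun h i => h i i.2, fun h i hi => h ⟨i, hi⟩⟩

theorem mem_sum (N : ℕ) (f : ℕ → ℕ) : ((List.range N).map f).sum = ∑ i : Fin N, f i := by
  rw [← Finset.sum_range]
  induction N with
  | zero => simp
  | succ N ih => rw [List.range_succ, List.map_append, List.sum_append, ih, sum_range_succ]; simp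

theorem mem_countP (N : ℕ) (f : ℕ → Bool) :
    (List.range N).countP f = ∑ i : Fin N, if f i = true then 1 else 0 := by
  rw [← mem_sum N fun i => if f i = true then 1 else 0]
  induction List.range N with
  | nil => rfl
  | cons a l ih => by_cases h : f a = true <;> simp [h, ih, add_comm]

section sem
variable {P : Type} [Fintype P] [PartialOrder P] {ρ : P → ℕ} {d : MemD}
  (e : Fin d.1.length ≃ P) (hR : ∀ i : Fin d.1.length, memRk d i = ρ (e i))
  (hL : ∀ i j : Fin d.1.length, memLe d i j = true ↔ e i ≤ e j)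

omit [Fintype P] in
include hL in
theorem mem_lt (i j : Fin d.1.length) : memLt d i j = true ↔ e i < e j := by
  rw [lt_iff_le_and_ne, ← hL, Ne, e.injective.eq_iff, Fin.ext_iff]
  simp [memLt]

omit [PartialOrder P] in
theorem mem_count (f : ℕ → Bool) (q : P → Prop) (h : ∀ i : Fin d.1.length, f i = true ↔ q (e i)) :
    (memR d).countP f = {z | q z}.ncard := by
  classical
  rw [memR, mem_countP, Set.ncard_eq_toFinset_card', Set.toFinset_ofPred, card_filter,
    ← e.sum_comp]
  exact sum_congr rfl fun i _ => by simp only [h]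

include hR hL in
theorem mem_cn (b : Fin d.1.length) (hb : d.2.2.1 = b) (L : List ℕ) (y : Fin d.1.length) :
    (memCn d L y : ℝ) = wl ρ L (e b) (e y) := by
  classical
  induction L generalizing y with
  | nil =>
    simp only [memCn, wl, hb, mem_lt e hL]
    split_ifs <;> simp
  | cons k L ih =>
    simp only [memCn, wl, memR]
    rw [mem_sum, ← e.sum_comp]
    push_cast
    refine sum_congr rfl fun i _ => ?_
    simp only [mem_lt e hL, hR, ih]

omit [Fintype P] in
include hR hL in
theorem mem_cov : memCov d = true ↔ ∀ x y : P, x ⋖ y → ρ y = ρ x + 1 := by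
  simp only [memCov, mem_all, Bool.or_eq_true, decide_eq_true_eq, hR,
    ← Bool.not_eq_true, Bool.and_eq_true, mem_lt e hL, Bool.not_eq_eq_eq_not, Bool.not_true]
  constructor
  · intro h x y hxy
    obtain ⟨i, rfl⟩ := e.surjective x
    obtain ⟨j, rfl⟩ := e.surjective y
    exact (h i j).resolve_left fun h2 => h2 ⟨hxy.1, fun k hk => hxy.2 hk.1 hk.2⟩
  · intro h i j
    refine or_iff_not_imp_left.2 fun h2 => h _ _ ?_
    rw [not_not] at h2
    refine ⟨h2.1, fun z h3 h4 => ?_⟩
    obtain ⟨k, rfl⟩ := e.surjective z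
    exact h2.2 k ⟨h3, h4⟩

include hR hL in
theorem mem_eul : memEul d = true ↔ ∀ x y : P, x < y →
    {z | x ≤ z ∧ z ≤ y ∧ Even (ρ z)}.ncard = {z | x ≤ z ∧ z ≤ y ∧ Odd (ρ z)}.ncard := by
  have h0 : ∀ i j : Fin d.1.length, (memR d).countP
      (fun z => memLe d i z && memLe d z j && decide (memRk d z % 2 = 0)) =
      {z | e i ≤ z ∧ z ≤ e j ∧ Even (ρ z)}.ncard := fun i j =>
    mem_count e _ _ fun k => by simp [hL, hR, Nat.even_iff, and_assoc]
  have h1 : ∀ i j : Fin d.1.length, (memR d).countP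
      (fun z => memLe d i z && memLe d z j && decide (memRk d z % 2 = 1)) =
      {z | e i ≤ z ∧ z ≤ e j ∧ Odd (ρ z)}.ncard := fun i j =>
    mem_count e _ _ fun k => by simp [hL, hR, Nat.odd_iff, and_assoc]
  simp only [memEul, mem_all, Bool.or_eq_true, decide_eq_true_eq, h0, h1,
    ← Bool.not_eq_true, mem_lt e hL, Bool.not_eq_eq_eq_not, Bool.not_true]
  constructor
  · intro h x y hxy
    obtain ⟨i, rfl⟩ := e.surjective x
    obtain ⟨j, rfl⟩ := e.surjective y
    exact (h i j).resolve_left fun h2 => h2 hxy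
  · intro h i j
    exact or_iff_not_imp_left.2 fun h2 => h _ _ (not_not.1 h2)

include hR hL in
theorem mem_flag [BoundedOrder P] {n : ℕ} (hc : ∀ x y : P, x ⋖ y → ρ y = ρ x + 1) (h0 : ρ ⊥ = 0)
    (h1 : ρ ⊤ = n + 1) (b t : Fin d.1.length) (hb : d.2.2.1 = b) (ht : d.2.2.2 = t)
    (eb : e b = ⊥) (et : e t = ⊤) (S : Finset ℕ) (hS : S ⊆ Icc 1 n) :
    memCn d (S.sort (· ≥ ·)) d.2.2.2 =
      {c : Set P | IsChain (· ≤ ·) c ∧ ⊥ ∉ c ∧ ⊤ ∉ c ∧ ρ '' c = S}.ncard := by
  have h2 := flag_eq_W hc h0 h1 S fun h => by have := hS h; simp at this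
  have h3 := mem_cn e hR hL b hb (S.sort (· ≥ ·)) t
  rw [eb, et] at h3
  rw [ht]
  have h4 := h3.trans h2.symm
  unfold flag at h4
  exact_mod_cast h4

end sem

/-- carrier of the poset described by a witness -/
def MemEl (N : ℕ) : Type := Fin N

theorem mem_sound {n : ℕ} {x : Str} {d : MemD} (h : memChk n x d = true) :
    FlagLang n x = true := by
  classical
  simp only [memChk, memOrd, Bool.and_eq_true, decide_eq_true_eq, mem_all, Bool.or_eq_true,
    List.all_eq_true (l := (Icc 1 n).powerset.toList), mem_toList, mem_powerset,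
    ← Bool.not_eq_true, Bool.not_eq_eq_eq_not, Bool.not_true] at h
  obtain ⟨⟨⟨⟨⟨⟨⟨⟨⟨⟨⟨hb, ht⟩, o1⟩, o2⟩, o3⟩, hcov⟩, heul⟩, r0⟩, r1⟩, hx⟩, hlen⟩, hS⟩ := h
  let e : Fin d.1.length ≃ MemEl d.1.length := Equiv.refl _
  let _ : Fintype (MemEl d.1.length) := inferInstanceAs (Fintype (Fin d.1.length))
  let _ : PartialOrder (MemEl d.1.length) :=
    { le := fun u v => memLe d (e.symm u) (e.symm v) = true
      le_refl := fun u => (o1 _).1.1
      le_trans := fun u v w h1 h2 => (o3 _ _ _).resolve_left fun h => h ⟨h1, h2⟩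
      le_antisymm := fun u v h1 h2 =>
        e.symm.injective (Fin.ext ((o2 _ _).resolve_left fun h => h ⟨h1, h2⟩)) }
  let _ : BoundedOrder (MemEl d.1.length) :=
    { bot := e ⟨_, hb⟩
      bot_le := fun u => (o1 (e.symm u)).1.2
      top := e ⟨_, ht⟩
      le_top := fun u => (o1 (e.symm u)).2 }
  let ρ : MemEl d.1.length → ℕ := fun u => memRk d (e.symm u)
  have hR : ∀ i : Fin d.1.length, memRk d i = ρ (e i) := fun i => rfl
  have hL : ∀ i j : Fin d.1.length, memLe d i j = true ↔ e i ≤ e j := fun i j => Iff.rfl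
  have hc := (mem_cov e hR hL).1 hcov
  unfold FlagLang
  rw [decide_eq_true_eq]
  refine ⟨memDec x, hx, hlen, MemEl d.1.length, inferInstance, inferInstance, inferInstance, ρ,
    r0, r1, hc, (mem_eul e hR hL).1 heul, fun S h => ?_⟩
  rw [← mem_flag e hR hL hc r0 r1 ⟨_, hb⟩ ⟨_, ht⟩ rfl rfl rfl rfl S h]
  exact hS S h

theorem mem_entry (l : List ℤ) (i : ℕ) : l.getD i 0 ≤ 2 ^ (bitEncode l).length := by
  have key : ∀ z ∈ l, z.toNat.bits.length ≤ (bitEncode l).length := by
    intro z hz
    change _ ≤ (((l.map bitEncode).map delimit).flatten).length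
    have h1 : delimit (bitEncode z) ∈ (l.map bitEncode).map delimit :=
      List.mem_map_of_mem (List.mem_map_of_mem hz)
    have h2 := (List.sublist_flatten_of_mem h1).length_le
    have h3 : bitEncode z = delimit (Computability.encodeNat z.toNat) ++
      Computability.encodeNat (-z).toNat := rfl
    rw [length_delimit, h3, List.length_append, length_delimit, encodeNat_eq] at h2
    omega
  by_cases hi : i < l.length
  · rw [List.getD_eq_getElem _ _ hi]
    have h1 := key _ (List.getElem_mem hi)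
    have h2 := lt_two_pow_bits l[i].toNat
    have h3 := Nat.pow_le_pow_right (n := 2) (by omega) h1
    have h4 : ((2 ^ (bitEncode l).length : ℕ) : ℤ) = 2 ^ (bitEncode l).length := by push_cast; rfl
    omega
  · rw [List.getD_eq_default _ _ (not_lt.1 hi)]
    positivity

theorem mem_card {P : Type} [Fintype P] [PartialOrder P] [BoundedOrder P] {ρ : P → ℕ} {n B : ℕ}
    (hc : ∀ x y : P, x ⋖ y → ρ y = ρ x + 1) (h0 : ρ ⊥ = 0) (h1 : ρ ⊤ = n + 1)
    (hB : ∀ k ∈ Icc 1 n, flag ρ {k} ≤ B) : Fintype.card P ≤ 2 + n * B := by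
  classical
  have h2 : (Fintype.card P : ℝ) ≤ ∑ u : P, ((if u = ⊥ then 1 else 0) + (if u = ⊤ then 1 else 0) +
      ∑ k ∈ Icc 1 n, if ρ u = k ∧ ⊥ < u ∧ u < ⊤ then (1 : ℝ) else 0) := by
    rw [← card_univ, card_eq_sum_ones]
    push_cast
    refine sum_le_sum fun u _ => ?_
    have hs : (0 : ℝ) ≤ ∑ k ∈ Icc 1 n, if ρ u = k ∧ ⊥ < u ∧ u < ⊤ then (1 : ℝ) else 0 :=
      sum_nonneg fun k _ => by split_ifs <;> norm_num
    by_cases a : u = ⊥
    · rw [if_pos a]; split_ifs <;> linarith
    by_cases b : u = ⊤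
    · rw [if_neg a, if_pos b]; linarith
    have a' := bot_lt_iff_ne_bot.2 a
    have b' := lt_top_iff_ne_top.2 b
    have c1 := rk_lt hc a'
    have c2 := rk_lt hc b'
    rw [if_neg a, if_neg b]
    simp only [a', b', and_true, sum_ite_eq, mem_Icc]
    rw [if_pos (by omega)]
    norm_num
  rw [sum_add_distrib, sum_add_distrib, sum_comm] at h2
  simp only [sum_ite_eq', mem_univ, if_true] at h2
  have h3 : (∑ k ∈ Icc 1 n, ∑ u : P, if ρ u = k ∧ ⊥ < u ∧ u < ⊤ then (1 : ℝ) else 0) ≤
      ∑ k ∈ Icc 1 n, (B : ℝ) := by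
    refine sum_le_sum fun k hk => ?_
    have h4 := hB k hk
    rw [flag_eq_W hc h0 h1 _ (by rw [mem_Icc] at hk; simp; omega), W_single] at h4
    convert h4
  rw [sum_const, Nat.card_Icc, nsmul_eq_mul, Nat.add_sub_cancel] at h3
  have h5 : (Fintype.card P : ℝ) ≤ 2 + n * B := by linarith
  exact_mod_cast h5

theorem mem_complete {n : ℕ} {x : Str} (h : FlagLang n x = true) :
    ∃ d : MemD, memChk n x d = true ∧
      sz d ≤ (n + 10) * ((n + 2) * 2 ^ x.length) ^ 2 := by
  classical
  unfold FlagLang at h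
  rw [decide_eq_true_eq] at h
  obtain ⟨l, rfl, hlen, P, _, _, _, ρ, h0, h1, hc, heu, hS⟩ := h
  let _ : Fintype P := Fintype.ofFinite P
  let e0 : Fin (Fintype.card P) ≃ P := (Fintype.equivFin P).symm
  let d : MemD := (List.ofFn fun i => ρ (e0 i),
    List.ofFn fun i => List.ofFn fun j => decide (e0 i ≤ e0 j), e0.symm ⊥, e0.symm ⊤)
  have hN : d.1.length = Fintype.card P := List.length_ofFn
  let e : Fin d.1.length ≃ P := (finCongr hN).trans e0
  have hR : ∀ i : Fin d.1.length, memRk d i = ρ (e i) := fun i => by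
    have hi : (i : ℕ) < Fintype.card P := hN ▸ i.2
    simp [memRk, d, e, List.getD_eq_getElem?_getD, hi]
    rfl
  have hL : ∀ i j : Fin d.1.length, memLe d i j = true ↔ e i ≤ e j := fun i j => by
    have hi : (i : ℕ) < Fintype.card P := hN ▸ i.2
    have hj : (j : ℕ) < Fintype.card P := hN ▸ j.2
    simp [memLe, d, e, List.getD_eq_getElem?_getD, hi, hj]
    rfl
  have hb : d.2.2.1 = e.symm ⊥ := rfl
  have ht : d.2.2.2 = e.symm ⊤ := rfl
  refine ⟨d, ?_, ?_⟩
  · simp only [memChk, memOrd, Bool.and_eq_true, decide_eq_true_eq, mem_all, Bool.or_eq_true,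
      List.all_eq_true (l := (Icc 1 n).powerset.toList), mem_toList, mem_powerset,
      ← Bool.not_eq_true, Bool.not_eq_eq_eq_not, Bool.not_true, memDec_enc]
    refine ⟨⟨⟨⟨⟨⟨⟨⟨⟨⟨⟨hb ▸ (e.symm ⊥).2, ht ▸ (e.symm ⊤).2⟩, fun i => ?_⟩, fun i j => ?_⟩,
      fun i j k => ?_⟩, (mem_cov e hR hL).2 hc⟩, (mem_eul e hR hL).2 heu⟩, ?_⟩, ?_⟩, trivial⟩,
      hlen⟩, fun S h => ?_⟩
    · rw [hb, ht, hL, hL, hL]; simp
    · rw [hL, hL, or_iff_not_imp_left, not_not]
      exact fun h => congrArg Fin.val (e.injective (le_antisymm h.1 h.2))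
    · rw [hL, hL, hL, or_iff_not_imp_left, not_not]
      exact fun h => h.1.trans h.2
    · rw [hb, hR]; simpa using h0
    · rw [ht, hR]; simpa using h1
    · rw [mem_flag e hR hL hc h0 h1 _ _ hb ht (by simp) (by simp) S h]
      exact hS S h
  · have hB : Fintype.card P ≤ 2 + n * 2 ^ (bitEncode l).length := by
      refine mem_card hc h0 h1 fun k hk => ?_
      have h2 := hS {k} (by simpa using hk)
      have h3 := mem_entry l (∑ i ∈ ({k} : Finset ℕ), 2 ^ (i - 1))
      dsimp only at h2
      rw [h2] at h3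
      unfold flag
      exact_mod_cast h3
    have s1 : sz d.1 ≤ d.1.length * (n + 1 + 1) := sz_list_le fun a ha => by
      obtain ⟨i, rfl⟩ := (List.mem_ofFn' _ _).1 ha
      have := rk_le hc (le_top (a := e0 i))
      rw [sz_nat]
      change ρ (e0 i) ≤ _
      omega
    have s2 : sz d.2.1 ≤ d.2.1.length * (Fintype.card P * (1 + 1) + 1) := sz_list_le fun a ha => by
      obtain ⟨i, rfl⟩ := (List.mem_ofFn' _ _).1 ha
      have := sz_list_le (l := List.ofFn fun j => decide (e0 i ≤ e0 j)) fun b _ => sz_bool b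
      rwa [List.length_ofFn] at this
    have s3 : d.2.1.length = Fintype.card P := List.length_ofFn
    have s4 : d.2.2.1 < Fintype.card P := (e0.symm ⊥).2
    have s5 : d.2.2.2 < Fintype.card P := (e0.symm ⊤).2
    rw [hN] at s1
    rw [s3] at s2
    rw [sz_prod, sz_prod, sz_prod, sz_nat, sz_nat]
    have hp : 1 ≤ 2 ^ (bitEncode l).length := Nat.one_le_two_pow
    generalize 2 ^ (bitEncode l).length = B at hB hp ⊢
    have s6 : Fintype.card P ≤ (n + 2) * B := by nlinarith
    have s7 := Nat.pow_le_pow_left s6 2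
    refine le_trans ?_ (Nat.mul_le_mul_left _ s7)
    generalize sz d.1 = a1 at s1
    generalize sz d.2.1 = a2 at s2
    generalize d.2.2.1 = a3 at s4
    generalize d.2.2.2 = a4 at s5
    generalize Fintype.card P = N at s1 s2 s4 s5 ⊢
    have s9 : N ≤ N ^ 2 := by nlinarith
    have s10 : N * (n + 1 + 1) ≤ (n + 2) * N ^ 2 := by nlinarith
    nlinarith

theorem flagLang_mem (n : ℕ) : FlagLang n ∈ NEXP := by
  refine ⟨Polynomial.C 2 * Polynomial.X + Polynomial.C (2 * ((n + 10) * (n + 2) ^ 2) + 1),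
    fun q => memChk n q.1 (rd (PT.parse q.2)),
    PT.isPolyTime_rel ((mem_pt_Chk n).comp (f := fun q : Str × Str => (q.1, rd (PT.parse q.2)))
      (PT.prodMk (by fun_prop) (PT.rd (PT.parse'.comp (by fun_prop))))),
    fun x => ⟨fun h => ?_, fun ⟨w, _, hw⟩ => mem_sound hw⟩⟩
  obtain ⟨d, h1, h2⟩ := mem_complete h
  have h3 : (enc d).bits.length ≤
      2 ^ (2 * x.length + (2 * ((n + 10) * (n + 2) ^ 2) + 1)) := by
    rw [T.length_bits, pow_add, mul_comm 2 x.length, pow_mul]
    have h4 := (Nat.lt_two_pow_self (n := 2 * ((n + 10) * (n + 2) ^ 2) + 1)).le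
    have hp : 1 ≤ (2 ^ x.length) ^ 2 := Nat.one_le_pow _ _ (by positivity)
    rw [mul_pow, ← mul_assoc] at h2
    unfold sz at h2
    generalize 2 ^ (2 * ((n + 10) * (n + 2) ^ 2) + 1) = E at h4 ⊢
    generalize (n + 10) * (n + 2) ^ 2 = C at h2 h4
    generalize (2 ^ x.length) ^ 2 = B at h2 hp ⊢
    nlinarith
  obtain ⟨k, hk⟩ := Nat.exists_eq_add_of_le h3
  refine ⟨(enc d).bits ++ List.replicate k false, ?_, ?_⟩
  · simp only [List.length_append, List.length_replicate, Polynomial.eval_add, Polynomial.eval_mul,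
      Polynomial.eval_C, Polynomial.eval_X]
    exact hk.symm
  · have : PT.parse ((enc d).bits ++ List.replicate k false) = enc d := by
      rw [PT.parse, PT.parse_bits]; rfl
    simp only [this, Rd.rd_enc, h1]

end Pool.Agent.Lib.MP_685082_co.NX
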