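import Pool.Agent.Lib.MP_685082_co.NX.Core
import Pool.Agent.Lib.Complexity.CookLevin

/-! The run of a machine as a grid with a local rule. -/

set_option linter.unusedSectionVars false

namespace Pool.Agent.Lib.MP_685082_co.NX

open Finset Function Turing Pool.Agent.Lib.Complexity

theorem run_halt {V : Str → Bool} (hV : PT V) :
    ∃ (M : ℕ) (Λ : Type) (_ : Fintype Λ) (m : Λ → TM2.Stmt (fun _ : Fin (M + 1) => Bool) Λ Bool)
      (l0 : Λ) (p : Polynomial ℕ), ∀ w : Str, ∀ T, p.eval w.length ≤ T →
        ((nxt m)^[T] ⟨some l0, false, update (fun _ => []) 0 w⟩).stk 0 = [V w] ∧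
        ((nxt m)^[T] ⟨some l0, false, update (fun _ => []) 0 w⟩).l = none := by
  have h2 : RPT (fun b : Bool => (enc b).bits) (fun b : Bool => [b]) fun b => b := by
    have hw : PT (fun b : Bool => [b]) := by fun_prop
    have h0 : RPT (fun b : Bool => (enc b).bits) (fun l : Str => (strT l).bits)
        (fun b : Bool => [b]) := by
      simp only [strT_eq]; exact hw
    exact RPT.congr (rpt_ofT.comp h0) (fun b => b) (fun _ => rfl) fun _ => rfl
  have h1 : RPT (fun l : Str => (strT l).bits) (fun b : Bool => (enc b).bits) V := by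
    simp only [strT_eq]; exact hV
  obtain ⟨P, N, p, h⟩ := h2.comp (h1.comp rpt_toT)
  refine ⟨P.bnd, P.Lab, P.labFintype, P.code (rho P.bnd) _root_.id .halt, P.entry, p,
    fun a T hT => ?_⟩
  have h1 := h a (update (fun _ => []) 0 a) (by simp) (fun i h1 _ => by
    rw [update_of_ne (by omega)])
  obtain ⟨n, ln, e⟩ := h1.sim (M := P.bnd) (P.code (rho P.bnd) _root_.id .halt) _root_.id .halt le_rfl
    (fun _ => rfl)
  have e1 : res P.bnd (update (fun _ => []) 0 a) = update (fun _ => []) 0 a := by
    funext k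
    by_cases hk : k = 0
    · subst hk; simp [res]
    · have : k.val ≠ 0 := fun e => hk (Fin.ext e)
      simp [res, hk, this]
  rw [e1] at e
  have e2 := nxt_of_run_le _ e rfl (ln.trans hT)
  simp only [id_eq] at e2
  rw [e2]
  exact ⟨by simp [res], rfl⟩

/-- a term with a natural number as shift -/
def run_tm (D : ℕ) (v : Fin 4) (c : ℕ) : Tm D := (v, ⟨min c D, by omega⟩)

theorem run_tval {X : Type} {D : ℕ} (s : X → X) (o x y z : X) (v : Fin 4) {c : ℕ} (h : c ≤ D) :
    tval s o x y z (run_tm D v c) = s^[c] (![x, y, z, o] v) := by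
  simp [tval, run_tm, min_eq_left h]

def run_emb {S : Type} (q : Bool × Bool) : S ⊕ Bool → Bool
  | .inl _ => false
  | .inr true => q.1
  | .inr false => q.2

section rule
variable {K Λ σ : Type} [DecidableEq K] [Fintype K] [Fintype Λ] [Fintype σ]

/-- the local rule, for the three points `x y z`, the point `o` and the shift `s` -/
structure run_Rule {X : Type} (Rl : List (List (TL (Sym K Λ σ)) × TL (Sym K Λ σ))) (D : ℕ)
    (l0 : Λ) (v0 : σ) (k0 : K) (t : Fin 4 → ℕ → X) (F : X → X → Sym K Λ σ → Prop)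
    (Lt E : X → X → Prop) (I : X → Prop) : Prop where
  refl : E (t 0 0) (t 0 0)
  irr : ¬ Lt (t 0 0) (t 0 0)
  trans : Lt (t 0 0) (t 1 0) → Lt (t 1 0) (t 2 0) → Lt (t 0 0) (t 2 0)
  tot : Lt (t 0 0) (t 1 0) ∨ Lt (t 1 0) (t 0 0) ∨ E (t 0 0) (t 1 0)
  succ : Lt (t 0 0) (t 1 0) → Lt (t 0 0) (t 0 1) ∧ ¬ Lt (t 1 0) (t 0 1)
  zero : ¬ Lt (t 0 0) (t 3 0)
  down : Lt (t 0 0) (t 1 0) → I (t 1 0) → I (t 0 0)
  i0 : F (t 3 0) (t 3 0) (.inl (some l0, v0))
  i1 : ∀ k, k ≠ k0 → F (t 3 0) (t 0 0) (.inr (k, none))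
  i2 : I (t 0 0) → F (t 3 0) (t 0 0) (.inr (k0, some true)) ∨ F (t 3 0) (t 0 0) (.inr (k0, some false))
  i3 : ¬ I (t 0 0) → F (t 3 0) (t 0 0) (.inr (k0, none))
  step : ∀ r ∈ Rl, Lt (t 0 0) (t 0 1) → Lt (t 1 D) (t 1 (D + 1)) →
    (∀ p ∈ r.1, F (t 0 0) (t (bif p.2.1 then 1 else 3) p.1) p.2.2) →
    F (t 0 1) (t (bif r.2.2.1 then 1 else 3) r.2.1) r.2.2.2
  fin : ∀ v, ¬ (F (t 0 0) (t 3 0) (.inl (none, v)) ∧ F (t 0 0) (t 3 0) (.inr (k0, some false)))

def run_W (Rl : List (List (TL (Sym K Λ σ)) × TL (Sym K Λ σ))) (D : ℕ) (l0 : Λ) (v0 : σ) (k0 : K)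
    (g : (Tm (D + 1) × Tm (D + 1)) × Bool → Sym K Λ σ ⊕ Bool → Bool) : Prop :=
  run_Rule Rl D l0 v0 k0 (run_tm (D + 1)) (fun a b s => g ((a, b), false) (.inl s) = true)
    (fun a b => g ((a, b), false) (.inr true) = true) (fun a b => g ((a, b), true) (.inr true) = true)
    (fun a => g ((a, a), true) (.inr false) = true)

theorem run_W_iff {Rl : List (List (TL (Sym K Λ σ)) × TL (Sym K Λ σ))} {D : ℕ}
    (hD : ∀ r ∈ Rl, r.2.1 ≤ D ∧ ∀ p ∈ r.1, p.1 ≤ D) (l0 : Λ) (v0 : σ) (k0 : K) {X : Type}
    (s : X → X) (o x y z : X) (cell : Bool → X → X → Sym K Λ σ ⊕ Bool → Bool) :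
    run_W Rl D l0 v0 k0 (fun k => cell k.2 (tval s o x y z k.1.1) (tval s o x y z k.1.2)) ↔
      run_Rule Rl D l0 v0 k0 (fun v c => s^[c] (![x, y, z, o] v))
        (fun a b q => cell false a b (.inl q) = true) (fun a b => cell false a b (.inr true) = true)
        (fun a b => cell true a b (.inr true) = true) (fun a => cell true a a (.inr false) = true) := by
  have e0 : ∀ v, tval s o x y z (run_tm (D + 1) v 0) = s^[0] (![x, y, z, o] v) :=
    fun v => run_tval s o x y z v (by omega)
  have e1 : ∀ v, tval s o x y z (run_tm (D + 1) v 1) = s^[1] (![x, y, z, o] v) :=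
    fun v => run_tval s o x y z v (by omega)
  have e2 : ∀ v, tval s o x y z (run_tm (D + 1) v D) = s^[D] (![x, y, z, o] v) :=
    fun v => run_tval s o x y z v (by omega)
  have e3 : ∀ v, tval s o x y z (run_tm (D + 1) v (D + 1)) = s^[D + 1] (![x, y, z, o] v) :=
    fun v => run_tval s o x y z v (by omega)
  have e4 : ∀ v c, c ≤ D → tval s o x y z (run_tm (D + 1) v c) = s^[c] (![x, y, z, o] v) :=
    fun v c h => run_tval s o x y z v (by omega)
  constructor
  · rintro ⟨a1, a2, a3, a4, a5, a6, a7, a8, a9, a10, a11, a12, a13⟩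
    simp only [e0, e1, e2, e3] at a1 a2 a3 a4 a5 a6 a7 a8 a9 a10 a11 a12 a13
    refine ⟨a1, a2, a3, a4, a5, a6, a7, a8, a9, a10, a11, fun r hr h1 h2 h3 => ?_, a13⟩
    have := a12 r hr h1 h2 fun p hp => by rw [e4 _ _ ((hD r hr).2 p hp)]; exact h3 p hp
    rwa [e4 _ _ (hD r hr).1] at this
  · rintro ⟨a1, a2, a3, a4, a5, a6, a7, a8, a9, a10, a11, a12, a13⟩
    refine ⟨?_, ?_, ?_, ?_, ?_, ?_, ?_, ?_, ?_, ?_, ?_, ?_, ?_⟩ <;> simp only [e0, e1, e2, e3]
    exacts [a1, a2, a3, a4, a5, a6, a7, a8, a9, a10, a11, fun r hr h1 h2 h3 => by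
      rw [e4 _ _ (hD r hr).1]
      exact a12 r hr h1 h2 fun p hp => by rw [← e4 _ _ ((hD r hr).2 p hp)]; exact h3 p hp, a13]

end rule

theorem run_cls (K m : ℕ) (h : m ≤ K) (q : Bool × Bool) :
    {z : Fin K × Fin K | (decide (z.1 = z.2), decide (z.1.1 < m)) = q}.ncard = cls K m q := by
  classical
  have c1 : ∀ (x : Fin K) (e : Bool),
      #(univ.filter fun y : Fin K => decide (x = y) = e) = bif e then 1 else K - 1 := by
    intro x e
    cases e
    · have : (univ.filter fun y : Fin K => decide (x = y) = false) = univ.erase x := by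
        ext y; simp [eq_comm]
      rw [this, card_erase_of_mem (mem_univ _)]; simp
    · have : (univ.filter fun y : Fin K => decide (x = y) = true) = {x} := by
        ext y; simp [eq_comm]
      rw [this]; simp
  have c2 : #(univ.filter fun x : Fin K => x.1 < m) = m := by
    rw [Fin.card_filter_val_lt]; omega
  have c3 : #(univ.filter fun x : Fin K => ¬ x.1 < m) = K - m := by
    have := card_filter_add_card_filter_not (s := (univ : Finset (Fin K))) fun x => x.1 < m
    rw [c2, card_univ, Fintype.card_fin] at this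
    omega
  have e : {z : Fin K × Fin K | (decide (z.1 = z.2), decide (z.1.1 < m)) = q}.ncard =
      ∑ x : Fin K, if decide (x.1 < m) = q.2 then (bif q.1 then 1 else K - 1) else 0 := by
    rw [Set.ncard_eq_toFinset_card', Set.toFinset_ofPred, card_filter, Fintype.sum_prod_type]
    refine sum_congr rfl fun x _ => ?_
    rw [← c1 x q.1, card_filter]
    split_ifs with hx
    · refine sum_congr rfl fun y _ => ?_
      simp [Prod.ext_iff, hx]
    · refine sum_eq_zero fun y _ => ?_
      simp [Prod.ext_iff, hx]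
  rw [e, ← sum_filter, sum_const, smul_eq_mul]
  obtain ⟨a, b⟩ := q
  cases a <;> cases b <;> simp only [decide_eq_true_eq, decide_eq_false_iff_not, c2, c3, cls] <;> simp

section main
variable {K Λ σ : Type} [DecidableEq K] [Fintype K] [Fintype Λ] [Fintype σ]
  {m : Λ → TM2.Stmt (fun _ : K => Bool) Λ σ} {d D : ℕ}

theorem run_complete (hd : ∀ l, depth (m l) ≤ d)
    (hD : ∀ r ∈ rules m d, r.2.1 ≤ D ∧ ∀ p ∈ r.1, p.1 ≤ D) (l0 : Λ) (v0 : σ) (k0 : K) (w : Str)
    (N : ℕ) (hN : w.length < N)
    (h : ∀ t, ((nxt m)^[t] ⟨some l0, v0, update (fun _ => []) k0 w⟩).l = none →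
      (((nxt m)^[t] ⟨some l0, v0, update (fun _ => []) k0 w⟩).stk k0)[0]? ≠ some false) :
    GridSat (run_W (rules m d) D l0 v0 k0) run_emb N (cls N w.length) := by
  classical
  set c0 : BCfg K Λ σ := ⟨some l0, v0, update (fun _ => []) k0 w⟩ with hc0
  let s : Fin N → Fin N := fun i => ⟨min (i.1 + 1) (N - 1), by omega⟩
  let o : Fin N := ⟨0, by omega⟩
  have hs : ∀ c (i : Fin N), (s^[c] i).1 = min (i.1 + c) (N - 1) := by
    intro c i
    induction c with
    | zero => have := i.2; simp; omega
    | succ c ih => rw [iterate_succ_apply']; simp only [s, ih]; omega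
  let c1 : Fin N → Fin N → Sym K Λ σ ⊕ Bool → Bool := fun t i q => match q with
    | .inl q => decide (Tr ((nxt m)^[t.1] c0) i.1 q)
    | .inr _ => decide (t.1 < i.1)
  refine ⟨Fin N, inferInstance, s, o,
    fun b x y => bif b then run_emb (decide (x = y), decide (x.1 < w.length)) else c1 x y,
    fun z => (decide (z.1 = z.2), decide (z.1.1 < w.length)), Fintype.card_fin _,
    run_cls N _ hN.le, fun _ _ => rfl, fun x y z => ?_⟩
  refine (run_W_iff hD l0 v0 k0 s o x y z
    (fun b x y => bif b then run_emb (decide (x = y), decide (x.1 < w.length)) else c1 x y)).2 ?_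
  have hx := x.2
  have hy := y.2
  refine ⟨?_, ?_, ?_, ?_, ?_, ?_, ?_, ?_, ?_, ?_, ?_, ?_, ?_⟩ <;>
    simp only [cond_true, cond_false, run_emb, c1, decide_eq_true_eq, iterate_zero, id_eq,
      Matrix.cons_val_zero, Matrix.cons_val_one, Matrix.cons_val, hs, o]
  · omega
  · omega
  · rw [Fin.ext_iff]; omega
  · omega
  · omega
  · omega
  · exact ⟨rfl, rfl⟩
  · intro k hk
    simp [Tr, hc0, hk]
  · intro hi
    simp only [Tr, hc0, update_self, List.getElem?_eq_getElem hi]
    cases w[x.1] <;> simp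
  · intro hi
    simp only [Tr, hc0, update_self]
    exact List.getElem?_eq_none (by omega)
  · intro r hr h1 h2 h3
    have e : ∀ p : TL (Sym K Λ σ), p.1 ≤ D →
        min ((![x, y, z, o] (bif p.2.1 then 1 else 3)).1 + p.1) (N - 1) = tpos y.1 p := by
      intro p hp
      unfold tpos
      cases p.2.1 <;> simp [o] <;> omega
    rw [show min (x.1 + 1) (N - 1) = x.1 + 1 by omega, iterate_succ_apply', e _ (hD r hr).1]
    refine rules_valid hd _ _ r hr fun p hp => ?_
    rw [← e p ((hD r hr).2 p hp)]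
    exact h3 p hp
  · rintro v ⟨h1, h2⟩
    exact h _ (congrArg Prod.fst h1.2).symm h2

theorem run_order {X : Type} [Fintype X] {N n : ℕ} (hX : Fintype.card X = N) (s : X → X) (o : X)
    (Lt : X → X → Prop) (I : X → Prop) (irr : ∀ x, ¬ Lt x x)
    (tr : ∀ x y z, Lt x y → Lt y z → Lt x z) (tot : ∀ x y, Lt x y ∨ Lt y x ∨ x = y)
    (succ : ∀ x y, Lt x y → Lt x (s x) ∧ ¬ Lt y (s x)) (zero : ∀ x, ¬ Lt x o)
    (down : ∀ x y, Lt x y → I y → I x) (hI : {x | I x}.ncard = n) :
    (∀ i, i + 1 < N → Lt (s^[i] o) (s^[i + 1] o)) ∧ ∀ i, i < N → (I (s^[i] o) ↔ i < n) := by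
  classical
  have : IsStrictTotalOrder X Lt :=
    { trichotomous := fun a b h1 h2 => by
        rcases tot a b with h | h | h
        exacts [absurd h h1, absurd h h2, h]
      irrefl := irr
      trans := tr }
  let _ : LinearOrder X := linearOrderOfSTO Lt
  have hl : ∀ a b : X, a < b ↔ Lt a b := fun _ _ => Iff.rfl
  let e : Fin N ≃o X := monoEquivOfFin X hX
  have h1 : ∀ i (h : i < N), s^[i] o = e ⟨i, h⟩ := by
    intro i
    induction i with
    | zero =>
      intro h
      obtain ⟨j, rfl⟩ := e.surjective o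
      have := zero (e ⟨0, h⟩)
      rw [← hl, e.lt_iff_lt, Fin.lt_def] at this
      exact congrArg e (Fin.ext (by simpa using this))
    | succ i ih =>
      intro h
      rw [iterate_succ_apply', ih (by omega)]
      have := succ (e ⟨i, by omega⟩) (e ⟨i + 1, h⟩) (by rw [← hl, e.lt_iff_lt, Fin.lt_def]; simp)
      obtain ⟨j, hj⟩ := e.surjective (s (e ⟨i, by omega⟩))
      rw [← hj, ← hl, ← hl, e.lt_iff_lt, e.lt_iff_lt, Fin.lt_def, Fin.lt_def] at this
      rw [← hj]
      exact congrArg e (Fin.ext (by simp only at this ⊢; omega))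
  refine ⟨fun i hi => ?_, fun i hi => ?_⟩
  · rw [h1 i (by omega), h1 _ hi, ← hl, e.lt_iff_lt, Fin.lt_def]; simp
  · rw [h1 i hi]
    have h2 : #(univ.filter fun j : Fin N => I (e j)) = n := by
      rw [← hI, Set.ncard_eq_toFinset_card', Set.toFinset_ofPred]
      exact card_bij (fun j _ => e j) (by simp) (fun _ _ _ _ h => e.injective h)
        (fun x hx => ⟨e.symm x, by simpa using hx, by simp⟩)
    constructor
    · intro h
      have : Iic (⟨i, hi⟩ : Fin N) ⊆ univ.filter fun j : Fin N => I (e j) := by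
        intro j hj
        rcases (mem_Iic.1 hj).eq_or_lt with rfl | hj
        · simpa using h
        · simpa using down _ _ ((hl _ _).1 (e.lt_iff_lt.2 hj)) h
      have := card_le_card this
      rw [h2, Fin.card_Iic] at this
      exact this
    · intro h
      by_contra h3
      have : (univ.filter fun j : Fin N => I (e j)) ⊆ Iio (⟨i, hi⟩ : Fin N) := by
        intro j hj
        rw [mem_Iio]
        by_contra h4
        rcases (not_lt.1 h4).eq_or_lt with rfl | h5
        · exact h3 (by simpa using hj)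
        · exact h3 (down _ _ ((hl _ _).1 (e.lt_iff_lt.2 h5)) (by simpa using hj))
      have := card_le_card this
      rw [h2, Fin.card_Iio] at this
      simp only at this
      omega

theorem run_sound (hd : ∀ l, depth (m l) ≤ d)
    (hD : ∀ r ∈ rules m d, r.2.1 ≤ D ∧ ∀ p ∈ r.1, p.1 ≤ D) (l0 : Λ) (v0 : σ) (k0 : K) {n N T : ℕ}
    (hn : n < N) (hT : d * T + T + D + 2 ≤ N)
    (h : GridSat (run_W (rules m d) D l0 v0 k0) run_emb N (cls N n)) :
    ∃ w : Str, w.length = n ∧
      (((nxt m)^[T] ⟨some l0, v0, update (fun _ => []) k0 w⟩).l = none →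
        (((nxt m)^[T] ⟨some l0, v0, update (fun _ => []) k0 w⟩).stk k0)[0]? ≠ some false) := by
  classical
  obtain ⟨X, _, s, o, cell, part, hX, hφ, hc, hW⟩ := h
  have H := fun x y z => (run_W_iff hD l0 v0 k0 s o x y z cell).1 (hW x y z)
  have hE1 : ∀ x, (part (x, x)).1 = true := fun x => by
    simpa [hc, run_emb] using (H x x x).refl
  have hE : ∀ x y, (part (x, y)).1 = true → x = y := by
    have a1 : {z | (part z).1 = true} = {z | part z = (true, true)} ∪ {z | part z = (true, false)} := by
      ext z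
      simp only [Set.mem_ofPred_eq, Set.mem_union, Prod.ext_iff]
      cases (part z).2 <;> simp
    have a2 : {z | (part z).1 = true}.ncard ≤ N := by
      rw [a1]
      refine (Set.ncard_union_le _ _).trans ?_
      rw [hφ, hφ]
      simp only [cls]
      omega
    have a3 : (Set.range fun x : X => (x, x)).ncard = N := by
      rw [Set.ncard_range_of_injective fun _ _ h => congrArg Prod.fst h, Nat.card_eq_fintype_card, hX]
    have a4 : (Set.range fun x : X => (x, x)) = {z | (part z).1 = true} :=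
      Set.eq_of_subset_of_ncard_le (by rintro _ ⟨x, rfl⟩; exact hE1 x) (by omega)
    intro x y hxy
    have : (x, y) ∈ Set.range fun x : X => (x, x) := a4 ▸ hxy
    obtain ⟨u, hu⟩ := this
    exact (congrArg Prod.fst hu).symm.trans (congrArg Prod.snd hu)
  have hI : {x | cell true x x (.inr false) = true}.ncard = n := by
    have : {z | part z = (true, true)} =
        (fun x : X => (x, x)) '' {x | cell true x x (.inr false) = true} := by
      ext ⟨x, y⟩
      simp only [Set.mem_ofPred_eq, Set.mem_image, hc, run_emb, Prod.mk.injEq]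
      constructor
      · intro h
        obtain rfl := hE x y (by rw [h])
        exact ⟨x, by rw [h], rfl, rfl⟩
      · rintro ⟨u, h, rfl, rfl⟩
        exact Prod.ext (hE1 u) h
    have h2 := hφ (true, true)
    rwa [this, Set.ncard_image_of_injective _ fun _ _ h => congrArg Prod.fst h] at h2
  obtain ⟨o1, o2⟩ := run_order hX s o (fun a b => cell false a b (.inr true) = true)
    (fun a => cell true a a (.inr false) = true) (fun x => (H x x x).irr)
    (fun x y z => (H x y z).trans)
    (fun x y => (H x y x).tot.imp_right (Or.imp_right fun h => hE x y (by simpa [hc, run_emb] using h)))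
    (fun x y => (H x y x).succ) (fun x => (H x x x).zero) (fun x y => (H x y x).down) hI
  let w : Str := (List.range n).map fun i => cell false o (s^[i] o) (.inl (.inr (k0, some true)))
  have hw : w.length = n := by simp [w]
  refine ⟨w, hw, ?_⟩
  set c0 : BCfg K Λ σ := ⟨some l0, v0, update (fun _ => []) k0 w⟩ with hc0
  have key : ∀ t ≤ T, ∀ i q, i + d * t ≤ d * T → Tr ((nxt m)^[t] c0) i q →
      cell false (s^[t] o) (s^[i] o) (.inl q) = true := by
    intro t
    induction t with
    | zero =>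
      intro _ i q hi h
      have hi' : i < N := by omega
      rcases q with q | ⟨k, γ⟩
      · obtain ⟨rfl, rfl⟩ := h
        exact (H o o o).i0
      · simp only [Tr, iterate_zero, id_eq, hc0] at h
        by_cases hk : k = k0
        · subst hk
          simp only [update_self] at h
          by_cases h1 : i < n
          · have h2 := (H (s^[i] o) o o).i2 ((o2 i hi').2 h1)
            have h3 : w[i]? = some (cell false o (s^[i] o) (.inl (.inr (k, some true)))) := by
              simp [w, h1]
            rw [← h, h3]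
            cases h4 : cell false o (s^[i] o) (.inl (.inr (k, some true)))
            · rcases h2 with h2 | h2
              · exact absurd (h4.symm.trans h2) (by simp)
              · exact h2
            · exact h4
          · rw [List.getElem?_eq_none (by omega)] at h
            rw [← h]
            exact (H (s^[i] o) o o).i3 fun h2 => h1 ((o2 i hi').1 h2)
        · simp only [update_of_ne hk, List.getElem?_nil] at h
          subst h
          exact (H (s^[i] o) o o).i1 k hk
    | succ t ih =>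
      intro ht i q hi h
      rw [iterate_succ_apply'] at h
      obtain ⟨r, hr, j, hj, rfl, rfl, hp⟩ := rules_derive hd _ _ _ h
      have e : ∀ p : TL (Sym K Λ σ),
          s^[p.1] (![s^[t] o, s^[j] o, o, o] (bif p.2.1 then 1 else 3)) = s^[tpos j p] o := by
        intro p
        unfold tpos
        cases p.2.1
        · rfl
        · exact (iterate_add_apply s _ _ _).symm
      rw [Nat.mul_succ] at hi
      have g1 := o1 t (by omega)
      have g2 := o1 (D + j) (by omega)
      rw [iterate_succ_apply'] at g1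
      rw [show D + j + 1 = D + 1 + j by omega, iterate_add_apply, iterate_add_apply s (D + 1)] at g2
      have := (H (s^[t] o) (s^[j] o) o).step r hr g1 g2 fun p hp' => by
        rw [e]
        exact ih (by omega) _ _ (by have := (hp p hp').1; omega) (hp p hp').2
      rw [e] at this
      rw [iterate_succ_apply']
      exact this
  intro h1 h2
  exact (H (s^[T] o) o o).fin ((nxt m)^[T] c0).var
    ⟨key T le_rfl 0 _ (by simp) ⟨rfl, by rw [h1]⟩, key T le_rfl 0 (.inr (k0, some false)) (by simp) h2⟩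

end main

theorem run_grid {V : Str → Bool} (hV : PT V) :
    ∃ (A : Type) (_ : Fintype A) (D : ℕ) (Wp : ((Tm D × Tm D) × Bool → A) → Prop)
      (emb : Bool × Bool → A) (p : Polynomial ℕ), ∀ m K, p.eval m ≤ K → m < K →
        ((∃ w : Str, w.length = m ∧ V w = true) ↔ GridSat Wp emb K (cls K m)) := by
  classical
  obtain ⟨M, Λ, _, m, l0, p, hrun⟩ := run_halt hV
  let d : ℕ := univ.sup (fun l => depth (m l))
  have hd : ∀ l, depth (m l) ≤ d := fun l => le_sup (f := fun l => depth (m l)) (mem_univ l)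
  let D : ℕ := ((rules m d).map fun r => r.2.1 + (r.1.map fun p => p.1).sum).sum
  have hD : ∀ r ∈ rules m d, r.2.1 ≤ D ∧ ∀ p ∈ r.1, p.1 ≤ D := by
    intro r hr
    have h1 : r.2.1 + (r.1.map fun p => p.1).sum ≤ D :=
      List.single_le_sum (by simp) _ (List.mem_map.2 ⟨r, hr, rfl⟩)
    refine ⟨by omega, fun q hq => ?_⟩
    have h2 : q.1 ≤ (r.1.map fun p => p.1).sum :=
      List.single_le_sum (by simp) _ (List.mem_map.2 ⟨q, hq, rfl⟩)
    omega
  refine ⟨_, inferInstance, D + 1, run_W (rules m d) D l0 false 0, run_emb,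
    Polynomial.C d * p + p + Polynomial.C (D + 2), fun n N h1 h2 => ⟨?_, fun h => ?_⟩⟩
  · rintro ⟨w, rfl, hw⟩
    refine run_complete hd hD l0 false 0 w N h2 fun t ht => ?_
    have e : (nxt m)^[p.eval w.length + t] ⟨some l0, false, update (fun _ => []) 0 w⟩ =
        (nxt m)^[t] ⟨some l0, false, update (fun _ => []) 0 w⟩ := by
      rw [iterate_add_apply]
      refine iterate_fixed ?_ _
      generalize (nxt m)^[t] ⟨some l0, false, update (fun _ => []) 0 w⟩ = c at ht
      obtain ⟨l, v, S⟩ := c
      cases ht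
      rfl
    rw [← e, (hrun w _ (Nat.le_add_right _ _)).1, hw]
    simp
  · simp only [Polynomial.eval_add, Polynomial.eval_mul, Polynomial.eval_C] at h1
    obtain ⟨w, rfl, hw⟩ := run_sound hd hD l0 false 0 (T := p.eval n) h2 (by omega) h
    refine ⟨w, rfl, ?_⟩
    have := hw (hrun w _ le_rfl).2
    rw [(hrun w _ le_rfl).1] at this
    simpa using this

end Pool.Agent.Lib.MP_685082_co.NX
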