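import Pool.Agent.Lib.MP_685082_co.NX.Core

/-! Sketches are systems of tables. -/

namespace Pool.Agent.Lib.MP_685082_co.NX

namespace Sk
variable {I A T K E : Type} (S : Sk I A T K E)

def skt_base : A ⊕ T ⊕ K → I
  | .inl α => S.tgt α
  | .inr (.inl τ) => S.tgt (S.t2 τ)
  | .inr (.inr k) => S.q k

def skt_uses (α : A) : A ⊕ T ⊕ K → Prop
  | .inl β => α = β
  | .inr (.inl τ) => α = S.t2 τ ∨ α = S.t3 τ
  | .inr (.inr k) => ∃ e, α = S.eb e ∧ S.fam e = k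

def skt_idx : I ⊕ A ⊕ T ⊕ E → I
  | .inl i => i
  | .inr (.inl α) => S.src α
  | .inr (.inr (.inl τ)) => S.src (S.t1 τ)
  | .inr (.inr (.inr e)) => S.src (S.ea e)

def skt_lo : I ⊕ A ⊕ T ⊕ E → I → Prop
  | .inl i, l => l = i
  | .inr (.inl α), l => l = S.src α ∨ l = S.tgt α
  | .inr (.inr (.inl τ)), l => l = S.src (S.t1 τ) ∨ l = S.tgt (S.t1 τ)
  | .inr (.inr (.inr e)), l => l = S.src (S.ea e) ∨ l = S.tgt (S.ea e)

def skt_up : I ⊕ A ⊕ T ⊕ E → A ⊕ T ⊕ K → Prop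
  | .inl i, u => S.skt_base u = i
  | .inr (.inl α), u => S.skt_uses α u
  | .inr (.inr (.inl τ)), u => u = .inl (S.t1 τ) ∨ u = .inr (.inl τ)
  | .inr (.inr (.inr e)), u => u = .inl (S.ea e) ∨ u = .inr (.inr (S.fam e))

def skt_kU : I ⊕ A ⊕ T ⊕ E → A ⊕ T ⊕ K → Prop
  | .inl i, u => S.skt_base u = i
  | .inr _, _ => False

def skt_fn (l : I) (u : A ⊕ T ⊕ K) : Prop :=
  l = S.skt_base u ∨ ∃ α, S.skt_uses α u ∧ S.src α = l

def skt_tab : Tab I (A ⊕ T ⊕ K) (I ⊕ A ⊕ T ⊕ E) where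
  lo := S.skt_lo
  up := S.skt_up
  kL := fun j l => l = S.skt_idx j
  kU := S.skt_kU
  fn := S.skt_fn

variable {S}

theorem skt_lo_idx (j : I ⊕ A ⊕ T ⊕ E) : S.skt_lo j (S.skt_idx j) := by
  rcases j with i | α | τ | e
  · rfl
  · exact Or.inl rfl
  · exact Or.inl rfl
  · exact Or.inl rfl

theorem skt_wf : S.skt_tab.WF where
  kL := by
    intro j l h
    have h' : l = S.skt_idx j := h
    subst h'
    exact skt_lo_idx j
  kU := by
    intro j u h
    rcases j with i | j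
    · exact h
    · exact h.elim
  fn := by
    intro l u h
    rcases h with h | ⟨α, h1, h2⟩
    · exact ⟨.inl l, rfl, h.symm⟩
    · exact ⟨.inr (.inl α), h2.symm, h1⟩

theorem skt_uses_base (hS : S.WF) {α : A} {u : A ⊕ T ⊕ K} (h : S.skt_uses α u) :
    S.skt_base u = S.tgt α := by
  rcases u with β | τ | k
  · have h' : α = β := h
    subst h'; rfl
  · rcases h with h | h
    · subst h; rfl
    · subst h; exact (hS.c23 τ).symm
  · obtain ⟨e, h1, h2⟩ := h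
    subst h1 h2
    exact (hS.eq e).symm

theorem skt_uses_uniq (hS : S.WF) {α β : A} {u : A ⊕ T ⊕ K} (h : S.skt_uses α u)
    (h' : S.skt_uses β u) (hs : S.src α = S.src β) : α = β := by
  rcases u with γ | τ | k
  · exact Eq.trans h (Eq.symm h')
  · have hne : S.src (S.t2 τ) ≠ S.src (S.t3 τ) := by
      rw [hS.c12, hS.c13]; exact (hS.loop _).symm
    rcases h with h | h <;> rcases h' with h' | h' <;> subst h h'
    · rfl
    · exact absurd hs hne
    · exact absurd hs.symm hne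
    · rfl
  · obtain ⟨e, h1, h2⟩ := h
    obtain ⟨e', h3, h4⟩ := h'
    subst h1 h3
    rw [hS.eab, hS.eab] at hs
    rw [hS.sep e e' (h2.trans h4.symm) hs]

theorem skt_not_fn (hS : S.WF) (e : E) :
    ¬ S.skt_fn (S.tgt (S.ea e)) (.inr (.inr (S.fam e))) := by
  rintro (h | ⟨α, ⟨e', h1, h2⟩, h3⟩)
  · exact hS.pq _ ((hS.ep e).symm.trans h)
  · subst h1
    rw [hS.eab, hS.ep e, ← h2, ← hS.ep e'] at h3
    exact hS.loop _ h3

theorem skt_fn_src {α : A} {u : A ⊕ T ⊕ K} (h : S.skt_uses α u) : S.skt_fn (S.src α) u :=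
  Or.inr ⟨α, h, rfl⟩

theorem skt_fn_or (hS : S.WF) {j : I ⊕ A ⊕ T ⊕ E} {l : I} {u : A ⊕ T ⊕ K} (h1 : S.skt_lo j l)
    (h2 : S.skt_up j u) : S.skt_fn l u ∨
      ∃ e, j = .inr (.inr (.inr e)) ∧ l = S.tgt (S.ea e) ∧ u = .inr (.inr (S.fam e)) := by
  rcases j with i | α | τ | e
  · exact Or.inl (Or.inl (Eq.trans h1 (Eq.symm h2)))
  · rcases h1 with h1 | h1 <;> subst h1
    · exact Or.inl (skt_fn_src h2)
    · exact Or.inl (Or.inl (skt_uses_base hS h2).symm)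
  · rcases h1 with h1 | h1 <;> rcases h2 with h2 | h2 <;> subst h1 h2
    · exact Or.inl (skt_fn_src rfl)
    · exact Or.inl (Or.inr ⟨S.t3 τ, Or.inr rfl, hS.c13 τ⟩)
    · exact Or.inl (Or.inl rfl)
    · exact Or.inl (Or.inr ⟨S.t2 τ, Or.inl rfl, hS.c12 τ⟩)
  · rcases h1 with h1 | h1 <;> rcases h2 with h2 | h2 <;> subst h1 h2
    · exact Or.inl (skt_fn_src rfl)
    · exact Or.inl (Or.inr ⟨S.eb e, ⟨e, rfl, rfl⟩, hS.eab e⟩)
    · exact Or.inl (Or.inl rfl)
    · exact Or.inr ⟨e, rfl, rfl, rfl⟩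

section fwd
variable {sz : I → ℕ} (M : S.Model sz)

open Classical in
noncomputable def skt_a : I ⊕ A ⊕ T ⊕ E → I → M.Ω → M.Ω
  | .inl _, _, r => r
  | .inr (.inl α), l, r => if l = S.src α then r else M.f α r
  | .inr (.inr (.inl τ)), l, r => if l = S.src (S.t1 τ) then r else M.f (S.t1 τ) r
  | .inr (.inr (.inr e)), l, r => if l = S.src (S.ea e) then r else M.f (S.ea e) r

def skt_b : I ⊕ A ⊕ T ⊕ E → A ⊕ T ⊕ K → M.Ω → M.Ω
  | .inl _, _, r => r
  | .inr (.inl α), _, r => M.f α r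
  | .inr (.inr (.inl τ)), .inl _, r => M.f (S.t1 τ) r
  | .inr (.inr (.inl τ)), .inr _, r => M.f (S.t3 τ) r
  | .inr (.inr (.inr e)), .inl _, r => M.f (S.ea e) r
  | .inr (.inr (.inr e)), .inr _, r => M.f (S.eb e) r

open Classical in
noncomputable def skt_F (l : I) (u : A ⊕ T ⊕ K) (z : M.Ω) : M.Ω :=
  if h : ∃ α, S.skt_uses α u ∧ S.src α = l then M.f h.choose z else z

theorem skt_F_src (hS : S.WF) {α : A} {u : A ⊕ T ⊕ K} (h : S.skt_uses α u) {l : I}
    (hl : S.src α = l) (z : M.Ω) : skt_F M l u z = M.f α z := by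
  have h' : ∃ β, S.skt_uses β u ∧ S.src β = l := ⟨α, h, hl⟩
  unfold skt_F
  rw [dif_pos h', skt_uses_uniq hS h'.choose_spec.1 h (h'.choose_spec.2.trans hl.symm)]

theorem skt_F_base (hS : S.WF) {u : A ⊕ T ⊕ K} {l : I} (hl : S.skt_base u = l) (z : M.Ω) :
    skt_F M l u z = z := by
  unfold skt_F
  rw [dif_neg]
  rintro ⟨α, h1, h2⟩
  exact hS.loop α (h2.trans (hl.symm.trans (skt_uses_base hS h1)))

theorem skt_a_idx (j : I ⊕ A ⊕ T ⊕ E) (r : M.Ω) : skt_a M j (S.skt_idx j) r = r := by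
  rcases j with i | α | τ | e <;> simp [skt_a, skt_idx]

theorem skt_b_eq (hS : S.WF) {j : I ⊕ A ⊕ T ⊕ E} {l : I} {u : A ⊕ T ⊕ K} (hf : S.skt_fn l u)
    (h1 : S.skt_lo j l) (h2 : S.skt_up j u) {r : M.Ω} (hr : r ∈ M.X (S.skt_idx j)) :
    skt_b M j u r = skt_F M l u (skt_a M j l r) := by
  rcases j with i | α | τ | e
  · rw [skt_F_base M hS (Eq.trans h2 (Eq.symm h1))]; rfl
  · rcases h1 with h1 | h1 <;> subst h1
    · rw [skt_F_src M hS h2 rfl]; simp [skt_a, skt_b]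
    · rw [skt_F_base M hS (skt_uses_base hS h2)]; simp [skt_a, skt_b, (hS.loop α).symm]
  · rcases h1 with h1 | h1 <;> rcases h2 with h2 | h2 <;> subst h1 h2
    · rw [skt_F_src M hS (α := S.t1 τ) (u := .inl (S.t1 τ)) rfl rfl]; simp [skt_a, skt_b]
    · rw [skt_F_src M hS (α := S.t3 τ) (u := .inr (.inl τ)) (Or.inr rfl) (hS.c13 τ)]
      simp [skt_a, skt_b]
    · rw [skt_F_base M hS (u := .inl (S.t1 τ)) (l := S.tgt (S.t1 τ)) rfl]
      simp [skt_a, skt_b, (hS.loop (S.t1 τ)).symm]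
    · rw [skt_F_src M hS (α := S.t2 τ) (u := .inr (.inl τ)) (Or.inl rfl) (hS.c12 τ)]
      simp only [skt_a, skt_b, (hS.loop (S.t1 τ)).symm, if_false]
      exact M.tri τ r hr
  · rcases h1 with h1 | h1 <;> rcases h2 with h2 | h2 <;> subst h1 h2
    · rw [skt_F_src M hS (α := S.ea e) (u := .inl (S.ea e)) rfl rfl]; simp [skt_a, skt_b]
    · rw [skt_F_src M hS (α := S.eb e) (u := .inr (.inr (S.fam e))) ⟨e, rfl, rfl⟩ (hS.eab e)]
      simp [skt_a, skt_b]
    · rw [skt_F_base M hS (u := .inl (S.ea e)) (l := S.tgt (S.ea e)) rfl]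
      simp [skt_a, skt_b, (hS.loop (S.ea e)).symm]
    · exact absurd hf (skt_not_fn hS e)

noncomputable def skt_fwd (hS : S.WF) :
    S.skt_tab.Model sz (fun u => sz (S.skt_base u)) fun j => sz (S.skt_idx j) where
  Ω := M.Ω
  X := M.X
  Y := fun u => M.X (S.skt_base u)
  R := fun j => M.X (S.skt_idx j)
  a := skt_a M
  b := skt_b M
  cX := M.cX
  cY := fun _ => M.cX _
  cR := fun _ => M.cX _
  ha := by
    intro j l h r hr
    rcases j with i | α | τ | e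
    · have h' : l = i := h
      subst h'; exact hr
    · rcases h with h | h <;> subst h
      · simpa [skt_a, skt_idx] using hr
      · simpa [skt_a, (hS.loop α).symm] using M.hf α r hr
    · rcases h with h | h <;> subst h
      · simpa [skt_a, skt_idx] using hr
      · simpa [skt_a, (hS.loop (S.t1 τ)).symm] using M.hf _ r hr
    · rcases h with h | h <;> subst h
      · simpa [skt_a, skt_idx] using hr
      · simpa [skt_a, (hS.loop (S.ea e)).symm] using M.hf _ r hr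
  hb := by
    intro j u h r hr
    rcases j with i | α | τ | e
    · have h' : S.skt_base u = i := h
      subst h'; exact hr
    · rw [skt_uses_base hS h]; exact M.hf α r hr
    · rcases h with h | h <;> subst h
      · exact M.hf _ r hr
      · have := M.hf (S.t3 τ) r (by rw [hS.c13]; exact hr)
        rw [hS.c23] at this; exact this
    · rcases h with h | h <;> subst h
      · exact M.hf _ r hr
      · have := M.hf (S.eb e) r (by rw [hS.eab]; exact hr)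
        rw [hS.eq] at this; exact this
  ka := by
    intro j l h x hx
    have h' : l = S.skt_idx j := h
    subst h'
    exact ⟨x, hx, skt_a_idx M j x⟩
  kb := by
    intro j u h y hy
    rcases j with i | j
    · have h' : S.skt_base u = i := h
      subst h'
      exact ⟨y, hy, rfl⟩
    · exact h.elim
  hfn := by
    intro l u j j' hf h1 h2 h3 h4 r hr r' hr' h
    rw [skt_b_eq M hS hf h1 h2 hr, skt_b_eq M hS hf h3 h4 hr', h]
  hinj := by
    intro l u j j' hf h1 h2 h3 h4 r hr r' hr' ha hb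
    obtain ⟨e, rfl, hl, hu⟩ := (skt_fn_or hS h1 h2).resolve_left hf
    obtain ⟨e', rfl, hl', hu'⟩ := (skt_fn_or hS h3 h4).resolve_left hf
    have hfam : S.fam e = S.fam e' := by simpa using hu.symm.trans hu'
    have e1 : skt_a M (.inr (.inr (.inr e))) l r = M.f (S.ea e) r := by
      rw [hl]; simp [skt_a, (hS.loop (S.ea e)).symm]
    have e2 : skt_a M (.inr (.inr (.inr e'))) l r' = M.f (S.ea e') r' := by
      rw [hl']; simp [skt_a, (hS.loop (S.ea e')).symm]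
    subst hu
    obtain ⟨h5, h6⟩ := M.inj e e' hfam r hr r' hr' (e1.symm.trans (ha.trans e2)) hb
    exact ⟨by rw [h5], h6⟩

end fwd

theorem skt_bwd (hS : S.WF) {sz : I → ℕ}
    (M : S.skt_tab.Model sz (fun u => sz (S.skt_base u)) fun j => sz (S.skt_idx j)) :
    Nonempty (S.Model sz) := by
  classical
  have hg : ∀ l u, ∃ g : M.Ω → M.Ω, S.skt_fn l u → (∀ x ∈ M.X l, g x ∈ M.Y u) ∧
      ∀ j, S.skt_lo j l → S.skt_up j u → ∀ r ∈ M.R j, M.b j u r = g (M.a j l r) := by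
    intro l u
    by_cases hf : S.skt_fn l u
    · obtain ⟨j0, k0, u0⟩ := (skt_wf (S := S)).fn l u hf
      have hx : ∀ x, ∃ r, x ∈ M.X l → r ∈ M.R j0 ∧ M.a j0 l r = x := by
        intro x
        by_cases h : x ∈ M.X l
        · obtain ⟨r, h1, h2⟩ := M.ka j0 l k0 x h
          exact ⟨r, fun _ => ⟨h1, h2⟩⟩
        · exact ⟨x, fun h' => absurd h' h⟩
      choose ρ hρ using hx
      refine ⟨fun x => M.b j0 u (ρ x), fun _ => ⟨fun x h => M.hb j0 u u0 _ (hρ x h).1, ?_⟩⟩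
      intro j h1 h2 r hr
      have hm := M.ha j l h1 r hr
      exact M.hfn l u j j0 hf h1 h2 ((skt_wf (S := S)).kL _ _ k0) u0 r hr _ (hρ _ hm).1
        (hρ _ hm).2.symm
    · exact ⟨id, fun h => absurd h hf⟩
  choose g hg using hg
  have hsur : ∀ u, ∀ y ∈ M.Y u, ∃ x ∈ M.X (S.skt_base u), g (S.skt_base u) u x = y := by
    intro u y hy
    obtain ⟨r, h1, h2⟩ := M.kb (.inl (S.skt_base u)) u rfl y hy
    exact ⟨_, M.ha (.inl (S.skt_base u)) _ rfl r h1,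
      ((hg _ u (Or.inl rfl)).2 (.inl (S.skt_base u)) rfl rfl r h1).symm.trans h2⟩
  have hinj : ∀ u, Set.InjOn (g (S.skt_base u) u) (M.X (S.skt_base u)) := by
    intro u
    apply Finset.injOn_of_card_image_eq
    apply le_antisymm Finset.card_image_le
    rw [M.cX, ← M.cY u]
    apply Finset.card_le_card
    intro y hy
    obtain ⟨x, h1, h2⟩ := hsur u y hy
    exact Finset.mem_image.2 ⟨x, h1, h2⟩
  have hf : ∀ α z, ∃ w, z ∈ M.X (S.src α) →
      w ∈ M.X (S.tgt α) ∧ g (S.tgt α) (.inl α) w = g (S.src α) (.inl α) z := by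
    intro α z
    by_cases h : z ∈ M.X (S.src α)
    · obtain ⟨w, h1, h2⟩ := hsur (.inl α) _ ((hg _ (.inl α) (skt_fn_src (α := α) rfl)).1 z h)
      exact ⟨w, fun _ => ⟨h1, h2⟩⟩
    · exact ⟨z, fun h' => absurd h' h⟩
  choose f hf using hf
  have hval : ∀ α j, S.skt_lo j (S.src α) → S.skt_lo j (S.tgt α) → S.skt_up j (.inl α) →
      ∀ r ∈ M.R j, M.a j (S.tgt α) r = f α (M.a j (S.src α) r) := by
    intro α j h1 h2 h3 r hr
    have hz := M.ha j _ h1 r hr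
    apply hinj (.inl α) (M.ha j _ h2 r hr) (hf α _ hz).1
    exact ((hg (S.tgt α) (.inl α) (Or.inl rfl)).2 j h2 h3 r hr).symm.trans
      (((hg _ (.inl α) (skt_fn_src (α := α) rfl)).2 j h1 h3 r hr).trans (hf α _ hz).2.symm)
  have hGU : ∀ α u, S.skt_uses α u → ∀ z ∈ M.X (S.src α),
      g (S.src α) u z = g (S.skt_base u) u (f α z) := by
    intro α u h z hz
    obtain ⟨r, h1, h2⟩ := M.ka (.inr (.inl α)) _ rfl z hz
    have e1 := hval α (.inr (.inl α)) (Or.inl rfl) (Or.inr rfl) rfl r h1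
    have e2 := (hg _ _ (skt_fn_src h)).2 (.inr (.inl α)) (Or.inl rfl) h r h1
    have e3 := (hg (S.tgt α) u (Or.inl (skt_uses_base hS h).symm)).2 (.inr (.inl α))
      (Or.inr rfl) h r h1
    have h2' : M.a (.inr (.inl α)) (S.src α) r = z := h2
    rw [h2'] at e1 e2
    rw [skt_uses_base hS h, ← e1, ← e2, ← e3]
  refine ⟨⟨M.Ω, M.X, f, M.cX, fun α z hz => (hf α z hz).1, ?_, ?_⟩⟩
  · intro τ z hz
    obtain ⟨r, h1, h2⟩ := M.ka (.inr (.inr (.inl τ))) _ rfl z hz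
    have h2' : M.a (.inr (.inr (.inl τ))) (S.src (S.t1 τ)) r = z := h2
    have e1 := hval (S.t1 τ) (.inr (.inr (.inl τ))) (Or.inl rfl) (Or.inr rfl) (Or.inl rfl) r h1
    rw [h2'] at e1
    have hz3 : z ∈ M.X (S.src (S.t3 τ)) := by rw [hS.c13]; exact hz
    have hw2 : f (S.t1 τ) z ∈ M.X (S.src (S.t2 τ)) := by rw [hS.c12]; exact (hf _ z hz).1
    have e2 := (hg (S.src (S.t1 τ)) (.inr (.inl τ))
      (Or.inr ⟨S.t3 τ, Or.inr rfl, hS.c13 τ⟩)).2 (.inr (.inr (.inl τ))) (Or.inl rfl)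
      (Or.inr rfl) r h1
    have e3 := (hg (S.tgt (S.t1 τ)) (.inr (.inl τ))
      (Or.inr ⟨S.t2 τ, Or.inl rfl, hS.c12 τ⟩)).2 (.inr (.inr (.inl τ))) (Or.inr rfl)
      (Or.inr rfl) r h1
    have e4 := hGU (S.t3 τ) (.inr (.inl τ)) (Or.inr rfl) z hz3
    have e5 := hGU (S.t2 τ) (.inr (.inl τ)) (Or.inl rfl) _ hw2
    rw [h2'] at e2
    rw [e1] at e3
    rw [hS.c13] at e4
    rw [hS.c12] at e5
    have m3 : f (S.t3 τ) z ∈ M.X (S.tgt (S.t2 τ)) := by
      rw [← hS.c23]; exact (hf _ z hz3).1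
    apply hinj (.inr (.inl τ)) m3 (hf _ _ hw2).1
    rw [← e4, ← e5, ← e2, ← e3]
  · have key : ∀ e, ∀ z ∈ M.X (S.src (S.ea e)), ∃ r ∈ M.R (.inr (.inr (.inr e))),
        M.a (.inr (.inr (.inr e))) (S.src (S.ea e)) r = z ∧
        M.a (.inr (.inr (.inr e))) (S.tgt (S.ea e)) r = f (S.ea e) z ∧
        M.b (.inr (.inr (.inr e))) (.inr (.inr (S.fam e))) r =
          g (S.q (S.fam e)) (.inr (.inr (S.fam e))) (f (S.eb e) z) := by
      intro e z hz
      obtain ⟨r, h1, h2⟩ := M.ka (.inr (.inr (.inr e))) _ rfl z hz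
      have h2' : M.a (.inr (.inr (.inr e))) (S.src (S.ea e)) r = z := h2
      have e1 := hval (S.ea e) (.inr (.inr (.inr e))) (Or.inl rfl) (Or.inr rfl) (Or.inl rfl) r h1
      have e2 := (hg (S.src (S.ea e)) (.inr (.inr (S.fam e)))
        (Or.inr ⟨S.eb e, ⟨e, rfl, rfl⟩, hS.eab e⟩)).2 (.inr (.inr (.inr e))) (Or.inl rfl)
        (Or.inr rfl) r h1
      have e4 := hGU (S.eb e) (.inr (.inr (S.fam e))) ⟨e, rfl, rfl⟩ z (by rw [hS.eab]; exact hz)
      rw [h2'] at e1 e2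
      rw [hS.eab] at e4
      exact ⟨r, h1, h2', e1, e2.trans e4⟩
    intro e e' hfam z hz z' hz' ha hb
    obtain ⟨r, h1, h2, h3, h4⟩ := key e z hz
    obtain ⟨r', h1', h2', h3', h4'⟩ := key e' z' hz'
    have ht : S.tgt (S.ea e') = S.tgt (S.ea e) := by rw [hS.ep, hS.ep, hfam]
    rw [ht] at h3'
    rw [← hfam] at h4'
    obtain ⟨h5, h6⟩ := M.hinj (S.tgt (S.ea e)) (.inr (.inr (S.fam e))) (.inr (.inr (.inr e)))
      (.inr (.inr (.inr e'))) (skt_not_fn hS e) (Or.inr rfl) (Or.inr rfl) (Or.inr ht.symm)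
      (Or.inr (by rw [hfam])) r h1 r' h1' (by rw [h3, h3', ha]) (by rw [h4, h4', hb])
    have h7 : e = e' := by simpa using h5
    subst h7 h6
    exact ⟨rfl, h2.symm.trans h2'⟩

end Sk

theorem sk_tab {I A T K E : Type} [Fintype I] [Fintype A] [Fintype T] [Fintype K] [Fintype E]
    {S : Sk I A T K E} (hS : S.WF) :
    ∃ (Tb : Tab I (A ⊕ T ⊕ K) (I ⊕ A ⊕ T ⊕ E)) (base : A ⊕ T ⊕ K → I) (idx : I ⊕ A ⊕ T ⊕ E → I),
      Tb.WF ∧ ∀ sz : I → ℕ,
        Nonempty (S.Model sz) ↔ Nonempty (Tb.Model sz (fun u => sz (base u)) fun j => sz (idx j)) :=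
  ⟨S.skt_tab, S.skt_base, S.skt_idx, Sk.skt_wf, fun _ =>
    ⟨fun ⟨M⟩ => ⟨Sk.skt_fwd M hS⟩, fun ⟨M⟩ => Sk.skt_bwd hS M⟩⟩

end Pool.Agent.Lib.MP_685082_co.NX
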