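import Pool.Agent.Lib.MP_685082_co.NX.Defs
import Pool.Agent.Lib.Complexity.CookLevin

/-! A universal verifier that reads its instance from the length of the witness. -/

namespace Pool.Agent.Lib.MP_685082_co.NX
open Function Pool.Agent.Lib.Complexity N68a2faeb

/-- rules, depth, start symbol, other stacks, three cell symbols, input, witness length, time -/
abbrev TallyD := List (List (TL ℕ) × TL ℕ) × ℕ × ℕ × List ℕ × (ℕ × ℕ × ℕ) × Str × Str × Str

def tallyC (c : ℕ × ℕ × ℕ) (o : Option Bool) : ℕ :=
  o.elim c.1 fun b => bif b then c.2.1 else c.2.2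

theorem tallyC_eq (c0 : Option Bool → ℕ) :
    tallyC (c0 none, c0 (some true), c0 (some false)) = c0 := by
  funext o
  rcases o with _ | _ | _ <;> rfl

@[fun_prop] theorem tallyC_pt {α : Type} [Enc α] {c : α → ℕ × ℕ × ℕ} {o : α → Option Bool}
    (hc : PT c) (ho : PT o) : PT fun a => tallyC (c a) (o a) := by
  unfold tallyC
  exact PT.option_elim ho (by fun_prop) (by fun_prop)

def tallyF (D : TallyD) (n t : ℕ) : CNF :=
  tableau D.1 D.2.1 D.2.2.1 D.2.2.2.1 (tallyC D.2.2.2.2.1) D.2.2.2.2.2.1 n t

theorem tallyF_pt : PT fun x : TallyD × ℕ × ℕ => tallyF x.1 x.2.1 x.2.2 := by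
  unfold tallyF tableau initClauses ruleClause tpos fvar
  fun_prop

def tallyE (φ : CNF) (w : Str) : Bool := φ.all fun c => c.any fun l => decide (w.getD l.1 false = l.2)

theorem tallyE_pt : PT fun x : CNF × Str => tallyE x.1 x.2 := by
  unfold tallyE
  fun_prop

theorem tallyE_iff (φ : CNF) (w : Str) : tallyE φ w = true ↔ φ.Sat fun i => w.getD i false := by
  simp [tallyE, CNF.Sat]

def tallyR (m : ℕ) : TallyD := rd (PT.parse m.bits)

def tallyV (w : Str) : Bool :=
  tallyE (tallyF (tallyR w.length) (min (bval (tallyR w.length).2.2.2.2.2.2.1) w.length)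
    (min (bval (tallyR w.length).2.2.2.2.2.2.2) w.length)) w

theorem tallyV_pt : PT tallyV := by
  have h0 : PT fun w : Str => w.length.bits := PTB.of_unary (by fun_prop)
  have h1 : PT fun w : Str => tallyR w.length := PT.rd (PT.parse'.comp h0)
  have h2 : PT fun w : Str => min (bval (tallyR w.length).2.2.2.2.2.2.1) w.length :=
    PTB.min_unary (PT.bval h1.snd.snd.snd.snd.snd.snd.fst) (by fun_prop)
  have h3 : PT fun w : Str => min (bval (tallyR w.length).2.2.2.2.2.2.2) w.length :=
    PTB.min_unary (PT.bval h1.snd.snd.snd.snd.snd.snd.snd) (by fun_prop)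
  exact tallyE_pt.comp ((tallyF_pt.comp (h1.prodMk (h2.prodMk h3))).prodMk PT.id)

theorem tally_bits (l : Str) : (bval (l ++ [true])).bits = l ++ [true] := by
  rw [← foldr_normStep]
  induction l with
  | nil => rfl
  | cons b l ih =>
    rw [List.cons_append, List.foldr_cons, ih, normStep]
    cases l <;> rfl

theorem tally_poly {α : Type} [Enc α] {f : α → ℕ} (hf : PTB f) (p : Polynomial ℕ) :
    PTB fun a => p.eval (f a) := by
  induction p using Polynomial.induction_on' with
  | add p q hp hq => exact (hp.add hq).of_eq fun a => by simp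
  | monomial n c => exact ((PTB.const c).mul (hf.pow (PT.const n))).of_eq fun a => by simp

/-- the theorem of Cook and Levin with the tableau kept explicit -/
theorem tally_cl {α : Type} [Enc α] {R : α × Str → Bool} (hR : PT R) :
    ∃ (Rl : List (List (TL ℕ) × TL ℕ)) (d q0 : ℕ) (others : List ℕ) (c0 : Option Bool → ℕ)
      (p : Polynomial ℕ), ∀ (a : α) (w : Str), R (a, w) = true ↔
      ∃ v : ℕ → Bool, (∀ i < w.length, w[i]? = some (v i)) ∧
        (tableau Rl d q0 others c0 (enc a).bits w.length
          (p.eval ((enc a).bits.length + w.length))).Sat v := by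
  have hp := PT.parse'
  have hrd : PT (fun s : Str => T.node (PT.parse s) (enc (s.drop (PT.parse s).bits.length))) := by
    fun_prop
  have h1 : RPT (fun x : α × Str => (enc x.1).bits ++ x.2) (fun x : α × Str => (enc x).bits)
      fun x => x := by
    have h0 : RPT (fun l : Str => (strT l).bits) T.bits
        (fun s : Str => T.node (PT.parse s) (enc (s.drop (PT.parse s).bits.length))) := by
      simp only [strT_eq]; exact hrd
    refine RPT.congr (h0.comp rpt_toT) (fun x : α × Str => (enc x.1).bits ++ x.2) (fun _ => rfl)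
      fun x => ?_
    have : PT.parse ((enc x.1).bits ++ x.2) = enc x.1 := by
      rw [PT.parse, PT.parse_bits]; rfl
    simp only [this, List.drop_left]
    rfl
  have h2 : RPT (fun b : Bool => (enc b).bits) (fun b : Bool => [b]) fun b => b := by
    have hw : PT (fun b : Bool => [b]) := by fun_prop
    have h0 : RPT (fun b : Bool => (enc b).bits) (fun l : Str => (strT l).bits)
        (fun b : Bool => [b]) := by
      simp only [strT_eq]; exact hw
    exact RPT.congr (rpt_ofT.comp h0) (fun b => b) (fun _ => rfl) fun _ => rfl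
  obtain ⟨M, Λ, _, m, l0, p, hrun⟩ := (h2.comp (RPT.comp hR h1)).run
  let d : ℕ := Finset.univ.sup (fun l => depth (m l))
  have hd : ∀ l, depth (m l) ≤ d := fun l =>
    Finset.le_sup (f := fun l => depth (m l)) (Finset.mem_univ l)
  let ix : Sym (Fin (M + 1)) Λ Bool → ℕ := fun s => (Fintype.equivFin _ s : ℕ)
  have hix : Injective ix := fun _ _ h => (Fintype.equivFin _).injective (Fin.ext h)
  refine ⟨_, d, _, _, _, p, fun a w => (?_ : _ ↔ ∃ v : ℕ → Bool, _ ∧
    (machineTableau m d ix l0 false 0 (enc a).bits w.length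
      (p.eval ((enc a).bits.length + w.length))).Sat v)⟩
  have h3 := hrun (a, w) (p.eval ((enc a).bits.length + w.length)) (by simp)
  constructor
  · intro h
    exact tableau_complete hd hix l0 false 0 _ w _ (by rw [h3]; simp [h])
  · rintro ⟨v, hv, hs⟩
    have := tableau_sound hd ix l0 false 0 _ w _ v hv hs
    rw [h3] at this
    simpa using this

theorem tally : ∃ V : Str → Bool, PT V ∧ ∀ L ∈ NEXP, ∃ g : Str → ℕ, PTB g ∧
    ∀ x, L x = true ↔ ∃ w : Str, w.length = g x ∧ V w = true := by
  refine ⟨tallyV, tallyV_pt, ?_⟩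
  rintro L ⟨p, R, hR, h⟩
  obtain ⟨Rl, d, q0, others, c0, r, e⟩ := tally_cl (pt_of_isPolyTime_rel hR)
  obtain ⟨P, hP⟩ := (pt_top.comp (pt_tableau Rl d q0 others c0)).pb_nat
  let n : Str → ℕ := fun x => 2 ^ p.eval x.length
  let t : Str → ℕ := fun x => r.eval ((enc x).bits.length + n x)
  let B : Str → ℕ := fun x => P.eval (sz (enc x).bits + n x + t x + 2) + n x + t x
  let D : Str → TallyD := fun x => (Rl, d, q0, others, (c0 none, c0 (some true), c0 (some false)),
    (enc x).bits, (n x).bits, (t x).bits)
  let g : Str → ℕ := fun x =>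
    bval (((enc (D x)).bits ++ List.replicate (B x).bits.length false) ++ [true])
  have hn : PTB n := (PTB.const 2).pow (PT.poly_eval (by fun_prop) p)
  have ht : PTB t := tally_poly ((PTB.of_unary (by fun_prop)).add hn) r
  have hB : PTB B := ((tally_poly ((((PTB.of_unary (by fun_prop)).add hn).add ht).add
    (PTB.const 2)) P).add hn).add ht
  have hD : PT D := by
    have h1 : PT fun x => (n x).bits := hn
    have h2 : PT fun x => (t x).bits := ht
    fun_prop
  have hg : PTB g := by
    have h1 : PT fun x => (B x).bits := hB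
    exact PT.bval (by fun_prop)
  have hBg : ∀ x, B x ≤ g x := fun x => by
    have h1 := lt_two_pow_bits (B x)
    have h2 : 2 ^ (B x).bits.length ≤
        2 ^ ((enc (D x)).bits ++ List.replicate (B x).bits.length false).length :=
      Nat.pow_le_pow_right (by omega) (by simp)
    have h3 : bval [true] = 1 := rfl
    simp only [g]
    rw [bval_append, h3]
    omega
  have hR' : ∀ x, tallyR (g x) = D x := fun x => by
    simp only [tallyR, g]
    rw [tally_bits, List.append_assoc, PT.parse, PT.parse_bits]
    exact Rd.rd_enc _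
  have hV : ∀ x (w : Str), w.length = g x → (tallyV w = true ↔
      (tableau Rl d q0 others c0 (enc x).bits (n x) (t x)).Sat fun i => w.getD i false) := by
    intro x w hw
    have h1 := hBg x
    rw [tallyV, tallyE_iff, hw, hR']
    simp only [D, tallyF, bval_bits, tallyC_eq]
    rw [min_eq_left (by simp only [B] at h1; omega), min_eq_left (by simp only [B] at h1; omega)]
  refine ⟨g, hg, fun x => (h x).trans ⟨?_, ?_⟩⟩
  · rintro ⟨w, hw, hR⟩
    obtain ⟨v, -, hv⟩ := (e x w).1 hR
    rw [hw] at hv
    refine ⟨(List.range (g x)).map v, by simp, (hV x _ (by simp)).2 fun c hc => ?_⟩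
    obtain ⟨l, hl, el⟩ := hv c hc
    have h1 := CNF.lt_top hc hl
    have h2 := hP ((enc x).bits, n x, t x)
    have h3 := hBg x
    have h4 : sz ((enc x).bits, n x, t x) = sz (enc x).bits + n x + t x + 2 := by
      simp only [sz_prod, sz_nat]; omega
    rw [h4] at h2
    have h5 : l.1 < g x := by simp only [B] at h3; simp only at h2; omega
    exact ⟨l, hl, by simp [h5, el]⟩
  · rintro ⟨w, hw, hv⟩
    rw [hV x w hw] at hv
    refine ⟨(List.range (n x)).map fun i => w.getD i false, by simp [n],
      (e x _).2 ⟨fun i => w.getD i false, ?_, by simpa using hv⟩⟩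
    intro i hi
    simp only [List.length_map, List.length_range] at hi
    simp [hi]

end Pool.Agent.Lib.MP_685082_co.NX
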