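import Pool.Agent.Lib.MP_685082_co.NX.L0C
import Pool.Agent.Lib.MP_685082_co.NX.L0S
import Pool.Agent.Lib.MP_685082_co.NX.L1C
import Pool.Agent.Lib.MP_685082_co.NX.L1S
import Pool.Agent.Lib.MP_685082_co.NX.L2C
import Pool.Agent.Lib.MP_685082_co.NX.L2S
import Pool.Agent.Lib.MP_685082_co.NX.SkTab
import Pool.Agent.Lib.MP_685082_co.NX.GridSk
import Pool.Agent.Lib.MP_685082_co.NX.Run
import Pool.Agent.Lib.MP_685082_co.NX.Tally
import Pool.Agent.Lib.MP_685082_co.NX.Mem

/-! The layers of the reduction are put together. -/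

namespace Pool.Agent.Lib.MP_685082_co.NX

open Finset Pool.Agent.Lib.Complexity N68a2faeb N487b59b3

section ptb
variable {α : Type} [Enc α]

theorem ptb_sum {ι : Type} (s : Finset ι) {f : ι → α → ℕ} (h : ∀ i, PTB (f i)) :
    PTB fun a => ∑ i ∈ s, f i a := by
  classical
  induction s using Finset.induction_on with
  | empty => simpa using PTB.const 0
  | insert i s hi ih => exact ((h i).add ih).of_eq fun a => by rw [sum_insert hi]

theorem ptb_if (p : Prop) {_ : Decidable p} {f g : α → ℕ} (hf : PTB f) (hg : PTB g) :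
    PTB fun a => if p then f a else g a := by
  by_cases h : p
  · simpa only [if_pos h] using hf
  · simpa only [if_neg h] using hg

theorem ptb_elim {L J : Type} {f : α → L → ℕ} {g : α → J → ℕ} (hf : ∀ l, PTB fun a => f a l)
    (hg : ∀ j, PTB fun a => g a j) (l : L ⊕ J) : PTB fun a => Sum.elim (f a) (g a) l := by
  cases l
  exacts [hf _, hg _]

theorem ptb_visT {L U J : Type} [Fintype L] [Fintype U] [Fintype J] (T : Tab L U J)
    {sL : α → L → ℕ} {sU : α → U → ℕ} {sJ : α → J → ℕ} (hL : ∀ l, PTB fun a => sL a l)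
    (hU : ∀ u, PTB fun a => sU a u) (hJ : ∀ j, PTB fun a => sJ a j) (p : Pr (L ⊕ J)) (m : Bool)
    (e : Pr (U ⊕ J)) : PTB fun a => T.visT (sL a) (sU a) (sJ a) p m e := by
  have h0 : PTB fun _ : α => 0 := PTB.const 0
  have h1 := ptb_elim hL hJ
  have h2 := ptb_elim hU hJ
  cases m
  · rcases p with _ | ⟨l, _ | _ | _⟩ <;> rcases e with _ | ⟨u, _ | _ | _⟩ <;>
      simp only [Tab.visT, Tab.pairs] <;>
      first
        | exact PTB.const 1
        | exact h1 _
        | exact h2 _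
        | exact ptb_if _ (h1 _) h0
        | exact ptb_if _ (h2 _) h0
        | exact ptb_if _ (h1 _) (ptb_sum _ fun j => ptb_if _ (hJ j) h0)
  · simp only [Tab.visT]
    refine ptb_sum _ fun k => ptb_if _ ?_ h0
    rcases k with j | q | q | _
    exacts [hJ j, ptb_if _ (h1 _) h0, ptb_if _ (h2 _) h0, PTB.const 1]

theorem ptb_Phi {L U : Type} [Fintype L] [Fintype U] {vis : α → Pr L → Bool → Pr U → ℕ}
    (h : ∀ p m e, PTB fun a => vis a p m e) (S : Finset ℕ) : PTB fun a => Phi (vis a) S :=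
  ptb_sum _ fun _ => ptb_sum _ fun _ => (PTB.const _).mul (h _ _ _)

theorem pt_int_list {ι : Type} {f : ι → α → ℕ} (h : ∀ i, PTB (f i)) (l : List ι) :
    PT fun a => l.map fun i => (f i a : ℤ) := by
  induction l with
  | nil => exact PT.const []
  | cons i l ih => exact (PT.int_of_bin (h i)).cons ih

end ptb

theorem tab_gr {L U J : Type} [Fintype L] [Fintype U] [Fintype J] [Nonempty L] [Nonempty U]
    {T : Tab L U J} (hT : T.WF) (sL : L → ℕ) (sU : U → ℕ) (sJ : J → ℕ) :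
    Nonempty (T.Model sL sU sJ) ↔ IsGr (nlev (L ⊕ J) (U ⊕ J)) (Phi (T.visT sL sU sJ)) := by
  constructor
  · rintro ⟨M⟩
    obtain ⟨c, h1, h2, h3, h4, h5, h6, h7⟩ := L2C hT M
    exact h7 ▸ L1C c h1 h2 h3 h4 h5 h6
  · intro h
    obtain ⟨c, h1, h2, h3⟩ := L1S h (fun _ => rfl) (fun _ => rfl) (fun _ => rfl) fun _ => rfl
    exact L2S hT c h1 h2 h3

/-- the lengths of the accepted strings reduce to the flag vectors of graded posets -/
theorem len_gr {V : Str → Bool} (hV : PT V) : ∃ (n : ℕ) (v : ℕ → Finset ℕ → ℕ),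
    (∀ g : Str → ℕ, PTB g → ∀ S, PTB fun x => v (g x) S) ∧
    ∀ m, (∃ w : Str, w.length = m ∧ V w = true) ↔ IsGr n (v m) := by
  obtain ⟨A, _, D, Wp, emb, p, h1⟩ := run_grid hV
  obtain ⟨I, A', T, K, E, _, _, _, _, _, _, _, S, szf, hS, h2, h3⟩ := grid_sk Wp emb
  obtain ⟨Tb, base, idx, hT, h4⟩ := sk_tab hS
  let N : ℕ → ℕ := fun m => p.eval m + m + 1
  let sz : ℕ → I → ℕ := fun m => szf (N m) (cls (N m) m)
  refine ⟨nlev (I ⊕ I ⊕ A' ⊕ T ⊕ E) ((A' ⊕ T ⊕ K) ⊕ I ⊕ A' ⊕ T ⊕ E), fun m => Phi (Tb.visT (sz m) (fun u => sz m (base u)) fun j => sz m (idx j)),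
    fun g hg => ?_, fun m => ?_⟩
  · have hN : PTB fun x => N (g x) := ((tally_poly hg p).add hg).add (PTB.const 1)
    have hs : ∀ i, PTB fun x => sz (g x) i := by
      intro i
      rcases h2 i with ⟨c, e, h⟩ | ⟨q, h⟩
      · exact ((PTB.const c).mul (hN.pow (PT.const e))).of_eq fun x => (h _ _).symm
      · refine PTB.of_eq (f := fun x => cls (N (g x)) (g x) q) ?_ fun x => (h _ _).symm
        rcases q with ⟨_ | _, _ | _⟩
        exacts [(hN.sub hg).mul (hN.sub (PTB.const 1)), hg.mul (hN.sub (PTB.const 1)), hN.sub hg, hg]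
    exact ptb_Phi fun a b e => ptb_visT Tb hs (fun u => hs _) (fun j => hs _) a b e
  · rw [h1 m (N m) (by simp only [N]; omega) (by simp only [N]; omega),
      h3 (N m) (cls (N m) m) (by simp only [N]; omega) ?_, h4, tab_gr hT]
    obtain ⟨k, hk⟩ : ∃ k, N m = m + k + 1 := ⟨p.eval m, by simp only [N]; omega⟩
    rw [hk, Fintype.sum_prod_type]
    simp only [Fintype.sum_bool, cls, Nat.add_sub_cancel,
      show m + k + 1 - m = k + 1 by omega]
    ring

/-- the set with the given position -/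
def posSet (k : ℕ) : Finset ℕ := k.bitIndices.toFinset.image (· + 1)

theorem posSet_pos {n : ℕ} {S : Finset ℕ} (hS : S ⊆ Icc 1 n) :
    ∑ i ∈ S, 2 ^ (i - 1) < 2 ^ n ∧ posSet (∑ i ∈ S, 2 ^ (i - 1)) = S := by
  have e : ∑ i ∈ S, 2 ^ (i - 1) = ∑ j ∈ S.image (· - 1), 2 ^ j := by
    rw [sum_image]
    intro a ha b hb h
    have := mem_Icc.1 (hS ha)
    have := mem_Icc.1 (hS hb)
    simp only at h
    omega
  rw [e]
  constructor
  · refine Nat.geomSum_lt le_rfl fun k hk => ?_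
    obtain ⟨i, hi, rfl⟩ := mem_image.1 hk
    have := mem_Icc.1 (hS hi)
    omega
  · rw [posSet, Finset.toFinset_bitIndices_sum_two_pow, image_image]
    refine (image_congr (g := id) fun i hi => ?_).trans image_id
    have := mem_Icc.1 (hS hi)
    simp only [Function.comp_apply, id_eq]
    omega

theorem isFlagVec_congr {n : ℕ} {v v' : Finset ℕ → ℤ} (h : ∀ S ⊆ Icc 1 n, v S = v' S) :
    IsFlagVec n v ↔ IsFlagVec n v' := by
  have key : ∀ {v v' : Finset ℕ → ℤ}, (∀ S ⊆ Icc 1 n, v S = v' S) → IsFlagVec n v →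
      IsFlagVec n v' := by
    rintro v v' h ⟨P, i1, i2, i3, ρ, h1, h2, h3, h4, h5⟩
    exact ⟨P, i1, i2, i3, ρ, h1, h2, h3, h4, fun S hS => (h S hS).symm.trans (h5 S hS)⟩
  exact ⟨key h, key fun S hS => (h S hS).symm⟩

theorem flagLang_encode (n : ℕ) (v : Finset ℕ → ℤ) :
    FlagLang n (bitEncode ((List.range (2 ^ n)).map fun k => v (posSet k))) = true ↔
      IsFlagVec n v := by
  have e : IsFlagVec n (fun S => ((List.range (2 ^ n)).map fun k => v (posSet k)).getD
      (∑ i ∈ S, 2 ^ (i - 1)) 0) ↔ IsFlagVec n v := by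
    refine isFlagVec_congr fun S hS => ?_
    obtain ⟨h1, h2⟩ := posSet_pos hS
    simp [h1, h2]
  classical
  rw [FlagLang, decide_eq_true_iff, ← e]
  constructor
  · rintro ⟨l, h1, -, h3⟩
    have h4 := congrArg (bitDecode (α := List ℤ)) h1
    simp only [bitDecode_bitEncode, Option.some.injEq] at h4
    rw [h4]
    exact h3
  · exact fun h => ⟨_, rfl, by simp, h⟩

theorem main : ∃ n₀ : ℕ, ∀ n, n₀ ≤ n → N793a5b8e.IsCompleteFor NEXP (FlagLang n) := by
  obtain ⟨V, hV, h1⟩ := tally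
  obtain ⟨k, v, h2, h3⟩ := len_gr hV
  refine ⟨4 * k, fun n hn => ⟨flagLang_mem n, fun L hL => ?_⟩⟩
  obtain ⟨g, hg, h4⟩ := h1 L hL
  have h5 : PT fun x => (List.range (2 ^ n)).map fun j => (E4 k (v (g x)) (posSet j) : ℤ) :=
    pt_int_list (f := fun j x => E4 k (v (g x)) (posSet j))
      (fun j => (PTB.const _).mul (h2 g hg _)) _
  refine manyOne_of_PT (f := fun x => bitEncode
    ((List.range (2 ^ n)).map fun j => (E4 k (v (g x)) (posSet j) : ℤ))) ?_ fun x => ?_
  · refine ((Rep.enc_pt (α := List ℤ)).comp h5).of_eq fun x => ?_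
    rw [down_list, List.map_map]
    rfl
  · rw [Bool.eq_iff_iff, flagLang_encode n fun S => (E4 k (v (g x)) S : ℤ), h4, h3]
    exact ⟨L0C hn, L0S hn⟩

end Pool.Agent.Lib.MP_685082_co.NX
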