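import Pool.Agent.Lib.MP_685082_co.NX.L0C
import Pool.Agent.Lib.MP_685082_co.NX.L0S
import Pool.Agent.Lib.MP_685082_co.NX.L1C
import Pool.Agent.Lib.MP_685082_co.NX.L1S
import Pool.Agent.Lib.MP_685082_co.NX.L2C
import Pool.Agent.Lib.MP_685082_co.NX.L2S
import Pool.Agent.Lib.MP_685082_co.NX.SkTab
import Pool.Agent.Lib.MP_685082_co.NX.GridSk
import Pool.Agent.Lib.MP_685082_co.NX.Run
import Pool.Agent.Lib.MP_685082_co.NX.Tally
import Pool.Agent.Lib.MP_685082_co.NX.Mem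

/-! Assembly of the reduction. -/

namespace Pool.Agent.Lib.MP_685082_co.NX
open Finset Cone Pool.Agent.Lib.Complexity N68a2faeb

section
variable {α : Type} [Enc α]

theorem asm_sum {ι : Type} (s : Finset ι) {f : ι → α → ℕ} (h : ∀ i, PTB (f i)) :
    PTB fun x => ∑ i ∈ s, f i x := by
  classical
  induction s using Finset.induction_on with
  | empty => exact (PTB.const 0).of_eq fun _ => by simp
  | insert i s hi ih => exact ((h i).add ih).of_eq fun _ => by rw [Finset.sum_insert hi]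

theorem asm_ite (c : Prop) {_ : Decidable c} {f g : α → ℕ} (hf : PTB f) (hg : PTB g) :
    PTB fun x => if c then f x else g x := by
  by_cases h : c
  · exact hf.of_eq fun _ => by rw [if_pos h]
  · exact hg.of_eq fun _ => by rw [if_neg h]

theorem asm_elim {L J : Type} {sL : α → L → ℕ} {sJ : α → J → ℕ} (hL : ∀ l, PTB fun x => sL x l)
    (hJ : ∀ j, PTB fun x => sJ x j) (l : L ⊕ J) : PTB fun x => Sum.elim (sL x) (sJ x) l := by
  cases l with
  | inl l => exact hL l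
  | inr j => exact hJ j

theorem asm_eval {g : α → ℕ} (hg : PTB g) (p : Polynomial ℕ) : PTB fun x => p.eval (g x) := by
  induction p using Polynomial.induction_on' with
  | add p q hp hq => exact (hp.add hq).of_eq fun _ => by rw [Polynomial.eval_add]
  | monomial e c =>
    exact ((PTB.const c).mul (hg.pow (PT.const e))).of_eq fun _ => by rw [Polynomial.eval_monomial]

theorem asm_vis {L U J : Type} [Fintype L] [Fintype U] [Fintype J] (T : Tab L U J)
    {sL : α → L → ℕ} {sU : α → U → ℕ} {sJ : α → J → ℕ} (hL : ∀ l, PTB fun x => sL x l)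
    (hU : ∀ u, PTB fun x => sU x u) (hJ : ∀ j, PTB fun x => sJ x j) (a : Pr (L ⊕ J)) (b : Bool)
    (e : Pr (U ⊕ J)) : PTB fun x => T.visT (sL x) (sU x) (sJ x) a b e := by
  have hk : ∀ k, PTB fun x => T.kSz (sL x) (sU x) (sJ x) k := by
    rintro (j | p | p | _)
    · exact hJ j
    · exact asm_ite _ (asm_elim hL hJ _) (PTB.const 0)
    · exact asm_ite _ (asm_elim hU hJ _) (PTB.const 0)
    · exact PTB.const 1
  have hp : ∀ l u, PTB fun x => T.pairs (sL x) (sJ x) l u := fun l u =>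
    asm_ite _ (asm_elim hL hJ _) (asm_sum _ fun j => asm_ite _ (hJ j) (PTB.const 0))
  have c1 : PTB fun _ : α => 1 := PTB.const 1
  have iL : ∀ (c : Prop) l, PTB fun x =>
      @ite ℕ c (Classical.propDecidable _) (Sum.elim (sL x) (sJ x) l) 0 :=
    fun c l => asm_ite _ (asm_elim hL hJ _) (PTB.const 0)
  have iU : ∀ (c : Prop) u, PTB fun x =>
      @ite ℕ c (Classical.propDecidable _) (Sum.elim (sU x) (sJ x) u) 0 :=
    fun c l => asm_ite _ (asm_elim hU hJ _) (PTB.const 0)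
  cases b
  · rcases a with _ | ⟨l, _ | _ | _⟩ <;> rcases e with _ | ⟨u, _ | _ | _⟩
    · exact c1.of_eq fun _ => rfl
    · exact c1.of_eq fun _ => rfl
    · exact (asm_elim hU hJ u).of_eq fun _ => rfl
    · exact c1.of_eq fun _ => rfl
    · exact c1.of_eq fun _ => rfl
    · exact c1.of_eq fun _ => rfl
    · exact (iU (T.satB l u ∨ ∃ j, T.lo' j l ∧ T.up' j u) u).of_eq fun _ => by
        simp only [Tab.visT]; congr
    · exact c1.of_eq fun _ => rfl
    · exact (asm_elim hL hJ l).of_eq fun _ => rfl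
    · exact (iL (T.satA l u ∨ ∃ j, T.lo' j l ∧ T.up' j u) l).of_eq fun _ => by
        simp only [Tab.visT]; congr
    · exact (hp l u).of_eq fun _ => rfl
    · exact (iL (T.satA l u) l).of_eq fun _ => rfl
    · exact c1.of_eq fun _ => rfl
    · exact c1.of_eq fun _ => rfl
    · exact (iU (T.satB l u) u).of_eq fun _ => rfl
    · exact c1.of_eq fun _ => rfl
  · have : PTB fun x => ∑ k : Tab.Kind L U J, @ite ℕ (Tab.seen (T.kLo k) a ∧ Tab.seen (T.kUp k) e)
        (Classical.propDecidable _) (T.kSz (sL x) (sU x) (sJ x) k) 0 :=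
      asm_sum _ fun k => asm_ite _ (hk k) (PTB.const 0)
    refine this.of_eq fun x => ?_
    simp only [Tab.visT]
    exact Finset.sum_congr rfl fun k _ => by congr

theorem asm_list {ι β : Type} [Enc β] (js : List ι) {F : ι → α → β} (h : ∀ j, PT (F j)) :
    PT fun x => js.map fun j => F j x := by
  induction js with
  | nil => exact PT.const _
  | cons j js ih => exact PT.cons (h j) ih

end

/-- grids with local rules as flag vectors of graded posets -/
theorem asm_grid {A : Type} [Fintype A] {D : ℕ} (Wp : ((Tm D × Tm D) × Bool → A) → Prop)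
    (emb : Bool × Bool → A) : ∃ (n0 : ℕ) (F : ℕ → (Bool × Bool → ℕ) → Finset ℕ → ℕ),
      (∀ N φ, 0 < N → ∑ q, φ q = N * N → (GridSat Wp emb N φ ↔ IsGr n0 (F N φ))) ∧
      ∀ (N : Str → ℕ) (φ : Str → Bool × Bool → ℕ), PTB N → (∀ q, PTB fun x => φ x q) →
        ∀ S, PTB fun x => F (N x) (φ x) S := by
  obtain ⟨I, A', T, K, E, _, _, _, _, _, _, _, S, szf, hS, hsz, hG⟩ := grid_sk Wp emb
  obtain ⟨Tb, base, idx, hT, hM⟩ := sk_tab hS
  refine ⟨nlev (I ⊕ I ⊕ A' ⊕ T ⊕ E) ((A' ⊕ T ⊕ K) ⊕ I ⊕ A' ⊕ T ⊕ E), 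
    fun N φ => Phi (Tb.visT (szf N φ) (fun u => szf N φ (base u)) fun j => szf N φ (idx j)),
    fun N φ h0 h1 => ?_, fun N φ hN hφ S => ?_⟩
  · rw [hG N φ h0 h1, hM]
    constructor
    · rintro ⟨M⟩
      obtain ⟨c, a1, a2, a3, a4, a5, a6, e⟩ := L2C hT M
      have := L1C c a1 a2 a3 a4 a5 a6
      rwa [e] at this
    · intro h
      obtain ⟨c, a1, a2, e⟩ := L1S h (fun _ => rfl) (fun _ => rfl) (fun _ => rfl) fun _ => rfl
      exact L2S hT c a1 a2 e
  · have hs : ∀ i, PTB fun x => szf (N x) (φ x) i := fun i => by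
      rcases hsz i with ⟨c, e, h⟩ | ⟨q, h⟩
      · exact ((PTB.const c).mul (hN.pow (PT.const e))).of_eq fun _ => (h _ _).symm
      · exact (hφ q).of_eq fun _ => (h _ _).symm
    exact asm_sum _ fun a => asm_sum _ fun e => (PTB.const _).mul
      (asm_vis Tb hs (fun u => hs (base u)) (fun j => hs (idx j)) a _ e)

theorem asm_two {n : ℕ} {S : Finset ℕ} (h : S ⊆ Icc 1 n) :
    2 * ∑ i ∈ S, 2 ^ (i - 1) = ∑ i ∈ S, 2 ^ i := by
  rw [Finset.mul_sum]
  refine Finset.sum_congr rfl fun i hi => ?_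
  obtain ⟨j, rfl⟩ := Nat.exists_eq_add_of_le' (mem_Icc.1 (h hi)).1
  rw [Nat.add_sub_cancel, pow_succ']

theorem asm_dec (n : ℕ) : ∃ dec : ℕ → Finset ℕ, ∀ S ⊆ Icc 1 n,
    ∑ i ∈ S, 2 ^ (i - 1) < 2 ^ n ∧ dec (∑ i ∈ S, 2 ^ (i - 1)) = S := by
  have ex : ∀ j : ℕ, ∃ S' : Finset ℕ, ∀ S ⊆ Icc 1 n, ∑ i ∈ S, 2 ^ (i - 1) = j → S' = S := fun j => by
    by_cases c : ∃ S ⊆ Icc 1 n, ∑ i ∈ S, 2 ^ (i - 1) = j
    · obtain ⟨S', h1, h2⟩ := c
      refine ⟨S', fun S h3 h4 => Finset.geomSum_injective (le_refl 2) ?_⟩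
      show ∑ i ∈ S', 2 ^ i = ∑ i ∈ S, 2 ^ i
      rw [← asm_two h1, ← asm_two h3, h2, h4]
    · exact ⟨∅, fun S h3 h4 => absurd ⟨S, h3, h4⟩ c⟩
  choose dec hd using ex
  refine ⟨dec, fun S h => ⟨?_, hd _ S h rfl⟩⟩
  have := Nat.geomSum_lt (le_refl 2) (s := S) (n := n + 1)
    fun k hk => Nat.lt_succ_of_le (mem_Icc.1 (h hk)).2
  rw [← asm_two h, pow_succ] at this
  omega

theorem asm_congr {n : ℕ} {v v' : Finset ℕ → ℤ} (e : ∀ S ⊆ Icc 1 n, v S = v' S)
    (h : IsFlagVec n v) : IsFlagVec n v' := by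
  obtain ⟨P, a, b, c, ρ, h1, h2, h3, h4, h5⟩ := h
  exact ⟨P, a, b, c, ρ, h1, h2, h3, h4, fun S hS => (e S hS).symm.trans (h5 S hS)⟩

theorem asm_inj {l l' : List ℤ} (h : N487b59b3.bitEncode l = N487b59b3.bitEncode l') : l = l' := by
  have a := N487b59b3.bitDecode_bitEncode l
  rw [h, N487b59b3.bitDecode_bitEncode] at a
  exact (Option.some.inj a).symm

/-- the code of a vector of natural numbers -/
theorem asm_code (n : ℕ) {v : Str → Finset ℕ → ℕ} (hv : ∀ S, PTB fun x => v x S) :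
    ∃ f : Str → Str, PT f ∧ ∀ x, FlagLang n (f x) = true ↔ IsFlagVec n fun S => (v x S : ℤ) := by
  obtain ⟨dec, hd⟩ := asm_dec n
  have hl : PT fun x => (List.range (2 ^ n)).map fun j => (v x (dec j) : ℤ) :=
    asm_list _ fun j => PT.int_of_bin (hv _)
  have key : ∀ x, ∀ S ⊆ Icc 1 n, ((List.range (2 ^ n)).map fun j => (v x (dec j) : ℤ)).getD
      (∑ i ∈ S, 2 ^ (i - 1)) 0 = v x S := fun x S hS => by
    obtain ⟨a, b⟩ := hd S hS
    rw [List.getD_eq_getElem _ _ (by simpa using a)]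
    simp [b]
  refine ⟨fun x => N487b59b3.bitEncode ((List.range (2 ^ n)).map fun j => (v x (dec j) : ℤ)),
    (PT.encode (List ℤ) hl).of_eq fun x => congrArg _ (List.map_id _), fun x => ?_⟩
  simp only [FlagLang, decide_eq_true_eq]
  constructor
  · rintro ⟨l, e, -, h⟩
    exact asm_congr (key x) (asm_inj e ▸ h)
  · exact fun h => ⟨_, rfl, by simp, asm_congr (fun S hS => (key x S hS).symm) h⟩

theorem asm_cls {K m : ℕ} (h : m < K) : ∑ q, cls K m q = K * K := by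
  obtain ⟨r, rfl⟩ := Nat.exists_eq_add_of_lt h
  have e1 : m + r + 1 - m = r + 1 := by omega
  simp only [Fintype.sum_prod_type, Fintype.sum_bool, cls, e1, Nat.add_sub_cancel]
  ring

theorem flagLang_hard :
    ∃ n0 : ℕ, ∀ n, n0 ≤ n → ∀ L ∈ NEXP, N793a5b8e.ManyOneReducible L (FlagLang n) := by
  obtain ⟨V, hV, hT⟩ := tally
  obtain ⟨A, _, D, Wp, emb, p, hR⟩ := run_grid hV
  obtain ⟨n0, F, hF, hP⟩ := asm_grid Wp emb
  refine ⟨4 * n0, fun n hn L hL => ?_⟩
  obtain ⟨g, hg, hx⟩ := hT L hL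
  have hK : PTB fun x => p.eval (g x) + g x + 1 := ((asm_eval hg p).add hg).add (PTB.const 1)
  have hc : ∀ q, PTB fun x => cls (p.eval (g x) + g x + 1) (g x) q := by
    rintro ⟨_ | _, _ | _⟩
    · exact (hK.sub hg).mul (hK.sub (PTB.const 1))
    · exact hg.mul (hK.sub (PTB.const 1))
    · exact hK.sub hg
    · exact hg
  obtain ⟨f, hf, e⟩ := asm_code n (v := fun x => E4 n0 (F (p.eval (g x) + g x + 1)
    (cls (p.eval (g x) + g x + 1) (g x)))) fun S => (PTB.const _).mul (hP _ _ hK hc _)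
  refine manyOne_of_PT hf fun x => Bool.eq_iff_iff.2 ?_
  rw [hx, e, hR (g x) (p.eval (g x) + g x + 1) (by omega) (by omega),
    hF _ _ (by omega) (asm_cls (by omega))]
  exact ⟨L0C hn, L0S hn⟩

theorem flagLang_complete :
    ∃ n0 : ℕ, ∀ n, n0 ≤ n → N793a5b8e.IsCompleteFor NEXP (FlagLang n) := by
  obtain ⟨n0, h⟩ := flagLang_hard
  exact ⟨n0, fun n hn => ⟨flagLang_mem n, h n hn⟩⟩

end Pool.Agent.Lib.MP_685082_co.NX
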