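import Pool.Agent.Lib.MP_685082_co.NX.Core

/-! Every element of a graded poset is replaced by a block of completely joined levels. -/

set_option linter.unusedSectionVars false

namespace Pool.Agent.Lib.MP_685082_co.NX

open Finset Cone

theorem Ww_congr {P : Type} [Fintype P] [PartialOrder P] (ρ : P → ℕ) {ω ω' : P → ℝ} (S : Finset ℕ)
    (h : ∀ u, ρ u ∈ S → ω u = ω' u) (x y : P) : Ww ρ ω S x y = Ww ρ ω' S x y := by
  induction S using Finset.induction_on_max generalizing y with
  | empty => rw [Ww_empty, Ww_empty]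
  | insert k S hS ih =>
    rw [Ww_insert ρ ω S k hS, Ww_insert ρ ω' S k hS]
    refine sum_congr rfl fun u _ => ?_
    split_ifs with a
    · rw [ih (fun v hv => h v (mem_insert_of_mem hv)), h u (a.1 ▸ mem_insert_self _ _)]
    · rfl

section
variable {B : Type} [Fintype B] [PartialOrder B] (ρ : B → ℕ) (n : ℕ) (π : ℕ → ℕ) (μ : ℕ → B → ℕ)

def blow_P : Type := {p : (x : Fin (n + 2) × B) × Fin (μ x.1 x.2) // ρ p.1.2 = π p.1.1}

noncomputable instance : Fintype (blow_P ρ n π μ) := by
  classical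
  unfold blow_P
  infer_instance

variable {ρ n π μ}

def blow_r (p : blow_P ρ n π μ) : ℕ := p.1.1.1
def blow_b (p : blow_P ρ n π μ) : B := p.1.1.2

theorem blow_rb (p : blow_P ρ n π μ) : ρ (blow_b p) = π (blow_r p) := p.2

theorem blow_r_lt (p : blow_P ρ n π μ) : blow_r p < n + 2 := p.1.1.1.2

instance : PartialOrder (blow_P ρ n π μ) where
  le p q := p = q ∨ (blow_r p < blow_r q ∧ blow_b p ≤ blow_b q)
  le_refl _ := Or.inl rfl
  le_trans p q r h1 h2 := by
    rcases h1 with rfl | h1
    · exact h2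
    · rcases h2 with rfl | h2
      · exact Or.inr h1
      · exact Or.inr ⟨h1.1.trans h2.1, h1.2.trans h2.2⟩
  le_antisymm p q h1 h2 := by
    rcases h1 with rfl | h1
    · rfl
    · rcases h2 with rfl | h2
      · rfl
      · have := h1.1; have := h2.1; omega

theorem blow_le (p q : blow_P ρ n π μ) :
    p ≤ q ↔ p = q ∨ (blow_r p < blow_r q ∧ blow_b p ≤ blow_b q) := Iff.rfl

theorem blow_lt (p q : blow_P ρ n π μ) : p < q ↔ blow_r p < blow_r q ∧ blow_b p ≤ blow_b q := by
  rw [lt_iff_le_and_ne]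
  constructor
  · rintro ⟨h | h, h2⟩
    · exact absurd h h2
    · exact h
  · intro h
    exact ⟨Or.inr h, by rintro rfl; exact lt_irrefl _ h.1⟩

open Classical in
theorem blow_sum (k : ℕ) (hk : k < n + 2) (g : B → ℝ) :
    ∑ u : blow_P ρ n π μ, (if blow_r u = k then g (blow_b u) else 0) =
      ∑ z, if ρ z = π k then μ k z * g z else 0 := by
  have e1 : ∑ u : blow_P ρ n π μ, (if blow_r u = k then g (blow_b u) else 0) =
      ∑ p : (x : Fin (n + 2) × B) × Fin (μ x.1 x.2),
        if ρ p.1.2 = π p.1.1 then (if p.1.1.1 = k then g p.1.2 else 0) else 0 := by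
    symm
    rw [← sum_filter]
    exact sum_subtype (p := fun p : (x : Fin (n + 2) × B) × Fin (μ x.1 x.2) => ρ p.1.2 = π p.1.1) _
      (fun x => by simp) fun p : (x : Fin (n + 2) × B) × Fin (μ x.1 x.2) =>
        if p.1.1.1 = k then g p.1.2 else 0
  rw [e1, Fintype.sum_sigma, Fintype.sum_prod_type, sum_eq_single (⟨k, hk⟩ : Fin (n + 2))]
  · refine sum_congr rfl fun z _ => ?_
    split_ifs with h <;> simp
  · intro s _ hs
    refine sum_eq_zero fun z _ => sum_eq_zero fun i _ => ?_
    have : s.1 ≠ k := fun h => hs (Fin.ext h)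
    simp [this]
  · simp

theorem blow_ext {p q : blow_P ρ n π μ} (h1 : blow_r p = blow_r q) (h2 : blow_b p = blow_b q)
    (h3 : μ (blow_r p) (blow_b p) = 1) : p = q := by
  obtain ⟨⟨⟨s, x⟩, i⟩, hp⟩ := p
  obtain ⟨⟨⟨t, y⟩, j⟩, hq⟩ := q
  obtain rfl : s = t := Fin.ext h1
  obtain rfl : x = y := h2
  have h4 : μ s x = 1 := h3
  obtain rfl : i = j := Fin.ext (by have := i.2; have := j.2; simp only at *; omega)
  rfl

end

open Classical in
theorem blowup {B : Type} [Fintype B] [PartialOrder B] [BoundedOrder B] (ρ : B → ℕ) (m n : ℕ)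
    (h0 : ρ ⊥ = 0) (h1 : ρ ⊤ = m + 1) (hc : ∀ x y, x ⋖ y → ρ y = ρ x + 1)
    (π : ℕ → ℕ) (p0 : π 0 = 0) (p1 : π (n + 1) = m + 1) (p2 : π 1 = 1)
    (ps : ∀ s, π s ≤ π (s + 1) ∧ π (s + 1) ≤ π s + 1)
    (μ : ℕ → B → ℕ) (hμ : ∀ s x, 1 ≤ μ s x) (m0 : μ 0 ⊥ = 1) (m1 : μ (n + 1) ⊤ = 1) :
    ∃ (P : Type) (_ : Fintype P) (_ : PartialOrder P) (_ : BoundedOrder P) (r : P → ℕ),
      r ⊥ = 0 ∧ r ⊤ = n + 1 ∧ (∀ x y, x ⋖ y → r y = r x + 1) ∧
      (∀ S ⊆ Icc 1 n, W r S ⊥ ⊤ = (∏ s ∈ S with π s = m + 1, (μ s ⊤ : ℝ)) *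
        Ww ρ (fun x => ∏ s ∈ S with π s = ρ x, (μ s x : ℝ)) ((S.image π).erase (m + 1)) ⊥ ⊤) ∧
      ∀ p q : P, p < q → ∃ x y : B, x ≤ y ∧ ρ x = π (r p) ∧ ρ y = π (r q) ∧
        ∀ k, r p < k → k < r q → {z | p ≤ z ∧ z ≤ q ∧ r z = k}.ncard =
          ∑ z ∈ univ.filter (fun z : B => x ≤ z ∧ z ≤ y ∧ ρ z = π k), μ k z := by
  have hm : Monotone π := monotone_nat_of_le_succ fun s => (ps s).1
  let bo : blow_P ρ n π μ := ⟨⟨(0, ⊥), ⟨0, hμ _ _⟩⟩, h0.trans p0.symm⟩
  let tp : blow_P ρ n π μ := ⟨⟨(Fin.last _, ⊤), ⟨0, hμ _ _⟩⟩, h1.trans p1.symm⟩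
  let _ : BoundedOrder (blow_P ρ n π μ) :=
    { bot := bo
      top := tp
      bot_le := fun p => by
        rcases Nat.eq_zero_or_pos (blow_r p) with h | h
        · refine Or.inl (blow_ext (p := bo) (q := p) h.symm ?_ m0)
          exact eq_of_rk hc bot_le (by rw [blow_rb p, h, p0]; omega)
        · exact Or.inr ⟨h, bot_le⟩
      le_top := fun p => by
        rcases (Nat.lt_succ_iff.1 (blow_r_lt p)).eq_or_lt with h | h
        · refine Or.inl (blow_ext (p := tp) (q := p) h.symm ?_ m1).symm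
          exact (eq_of_rk hc (le_top (a := blow_b p)) (by rw [blow_rb p, h, p1, h1])).symm
        · exact Or.inr ⟨h, le_top⟩ }
  have rb : blow_r (⊥ : blow_P ρ n π μ) = 0 := rfl
  have bb : blow_b (⊥ : blow_P ρ n π μ) = ⊥ := rfl
  have key : ∀ S : Finset ℕ, (∀ s ∈ S, 1 ≤ s) → ∀ q : blow_P ρ n π μ, 0 < blow_r q →
      (∀ s ∈ S, s < blow_r q) → W blow_r S ⊥ q =
        (∏ s ∈ S with π s = ρ (blow_b q), (μ s (blow_b q) : ℝ)) *
        Ww ρ (fun x => ∏ s ∈ S with π s = ρ x, (μ s x : ℝ)) ((S.image π).erase (ρ (blow_b q)))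
          ⊥ (blow_b q) := by
    intro S
    have hb : ∀ x : B, 0 < ρ x → ⊥ < x := fun x hx =>
      bot_lt_iff_ne_bot.2 (by rintro rfl; omega)
    induction S using Finset.induction_on_max with
    | empty =>
      intro _ q hq _
      have : 0 < ρ (blow_b q) := by
        rw [blow_rb q]
        have := hm (show 1 ≤ blow_r q from hq)
        omega
      rw [W_empty, if_pos ((blow_lt ⊥ q).2 ⟨hq, bot_le⟩), image_empty, erase_empty, Ww_empty,
        if_pos (hb _ this)]
      simp
    | insert k S hS ih =>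
      intro h1 q _ h2
      have k1 := h1 k (mem_insert_self _ _)
      have k2 := h2 k (mem_insert_self _ _)
      have k3 := blow_r_lt q
      have k4 : k ∉ S := fun h => lt_irrefl _ (hS k h)
      let g : B → ℝ := fun z => if z ≤ blow_b q then (∏ s ∈ S with π s = ρ z, (μ s z : ℝ)) *
        Ww ρ (fun x => ∏ s ∈ S with π s = ρ x, (μ s x : ℝ)) ((S.image π).erase (ρ z)) ⊥ z else 0
      have e1 : W blow_r (insert k S) ⊥ q = ∑ z, if ρ z = π k then μ k z * g z else 0 := by
        rw [W_insert _ S k hS, ← blow_sum (ρ := ρ) (n := n) (π := π) (μ := μ) k (by omega) g]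
        refine sum_congr rfl fun u _ => ?_
        by_cases a : blow_r u = k
        · by_cases b : blow_b u ≤ blow_b q
          · rw [if_pos ⟨a, (blow_lt _ _).2 ⟨by omega, b⟩⟩, if_pos a,
              ih (fun s hs => h1 s (mem_insert_of_mem hs)) u (by omega) fun s hs => a ▸ hS s hs]
            simp only [g, if_pos b]
          · rw [if_neg fun h => b ((blow_lt _ _).1 h.2).2, if_pos a]
            simp only [g, if_neg b]
        · simp [a]
      have e2 : ∀ z, ρ z = π k → (∏ s ∈ insert k S with π s = ρ z, (μ s z : ℝ)) =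
          μ k z * ∏ s ∈ S with π s = ρ z, (μ s z : ℝ) := by
        intro z hz
        rw [filter_insert, if_pos hz.symm, prod_insert fun h => k4 (mem_filter.1 h).1]
      have e3 : ∀ y, Ww ρ (fun x => ∏ s ∈ insert k S with π s = ρ x, (μ s x : ℝ))
          ((S.image π).erase (π k)) ⊥ y =
          Ww ρ (fun x => ∏ s ∈ S with π s = ρ x, (μ s x : ℝ)) ((S.image π).erase (π k)) ⊥ y := by
        intro y
        refine Ww_congr ρ _ (fun u hu => ?_) _ _
        rw [filter_insert, if_neg fun h => (mem_erase.1 hu).1 h.symm]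
      have k5 : π k ≤ ρ (blow_b q) := by rw [blow_rb q]; exact hm k2.le
      rw [e1]
      rcases k5.eq_or_lt with k5 | k5
      · rw [sum_eq_single (blow_b q), if_pos k5.symm, e2 _ k5.symm, image_insert, ← k5,
          erase_insert_eq_erase, e3]
        · simp only [g, le_refl, if_true, ← k5, mul_assoc]
        · intro z _ hz
          split_ifs with a
          · simp only [g]
            rw [if_neg fun h => hz (eq_of_rk hc h (by omega)), mul_zero]
          · rfl
        · simp
      · have e4 : ((insert k S).image π).erase (ρ (blow_b q)) =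
            insert (π k) ((S.image π).erase (π k)) := by
          ext i
          simp only [mem_erase, mem_insert, mem_image]
          constructor
          · rintro ⟨_, s, rfl | hs, rfl⟩
            · exact Or.inl rfl
            · by_cases a : π s = π k
              · exact Or.inl a
              · exact Or.inr ⟨a, s, hs, rfl⟩
          · rintro (rfl | ⟨_, s, hs, rfl⟩)
            · exact ⟨k5.ne, k, Or.inl rfl, rfl⟩
            · exact ⟨((hm (hS s hs).le).trans_lt k5).ne, s, Or.inr hs, rfl⟩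
        have e5 : (insert k S).filter (fun s => π s = ρ (blow_b q)) = ∅ := by
          refine filter_eq_empty_iff.2 fun s hs => ?_
          rcases mem_insert.1 hs with rfl | hs
          · exact k5.ne
          · exact ((hm (hS s hs).le).trans_lt k5).ne
        rw [e4, e5, prod_empty, one_mul, Ww_insert]
        · refine sum_congr rfl fun z _ => ?_
          by_cases a : ρ z = π k
          · by_cases b : z ≤ blow_b q
            · rw [if_pos a, if_pos ⟨a, lt_of_le_of_ne b (by rintro rfl; omega)⟩, e2 z a, e3]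
              simp only [g, if_pos b, a, mul_assoc]
            · rw [if_pos a, if_neg fun h => b h.2.le]
              simp only [g, if_neg b, mul_zero]
          · simp [a]
        · intro i hi
          obtain ⟨a, b⟩ := mem_erase.1 hi
          obtain ⟨s, hs, rfl⟩ := mem_image.1 b
          exact lt_of_le_of_ne (hm (hS s hs).le) a
  refine ⟨blow_P ρ n π μ, inferInstance, inferInstance, inferInstance, blow_r, rfl, rfl, ?_, ?_, ?_⟩
  · intro p q hpq
    obtain ⟨a, b⟩ := (blow_lt _ _).1 hpq.1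
    by_contra hne
    have c : blow_r p + 1 < blow_r q := by omega
    have c2 := blow_r_lt q
    obtain ⟨z, z1, z2, z3⟩ := exists_rank hc b (π (blow_r p + 1)) (by rw [blow_rb p]; exact (ps _).1)
      (by rw [blow_rb q]; exact hm c.le)
    let u : blow_P ρ n π μ := ⟨⟨(⟨blow_r p + 1, by omega⟩, z), ⟨0, hμ _ _⟩⟩, z1⟩
    exact hpq.2 ((blow_lt p u).2 ⟨Nat.lt_succ_self _, z2⟩) ((blow_lt u q).2 ⟨c, z3⟩)
  · intro S hS
    have := key S (fun s hs => (mem_Icc.1 (hS hs)).1) ⊤ (Nat.succ_pos _)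
      fun s hs => Nat.lt_succ_of_le (mem_Icc.1 (hS hs)).2
    rw [this, show blow_b (⊤ : blow_P ρ n π μ) = ⊤ from rfl, h1]
  · intro p q hpq
    obtain ⟨a, b⟩ := (blow_lt _ _).1 hpq
    refine ⟨blow_b p, blow_b q, b, blow_rb p, blow_rb q, fun k k1 k2 => ?_⟩
    have k3 := blow_r_lt q
    have e := blow_sum (ρ := ρ) (n := n) (π := π) (μ := μ) k (by omega)
      fun z => if blow_b p ≤ z ∧ z ≤ blow_b q then 1 else 0
    have e1 : ({z | p ≤ z ∧ z ≤ q ∧ blow_r z = k}.ncard : ℝ) = ∑ u : blow_P ρ n π μ,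
        if blow_r u = k then (if blow_b p ≤ blow_b u ∧ blow_b u ≤ blow_b q then 1 else 0) else 0 := by
      rw [Set.ncard_eq_toFinset_card', Set.toFinset_ofPred, card_filter]
      push_cast
      refine sum_congr rfl fun u _ => ?_
      by_cases c : blow_r u = k
      · have : (p ≤ u ∧ u ≤ q ∧ blow_r u = k) ↔ (blow_b p ≤ blow_b u ∧ blow_b u ≤ blow_b q) := by
          constructor
          · rintro ⟨rfl | h1, rfl | h2, _⟩
            · omega
            · omega
            · omega
            · exact ⟨h1.2, h2.2⟩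
          · exact fun h => ⟨Or.inr ⟨by omega, h.1⟩, Or.inr ⟨by omega, h.2⟩, c⟩
        rw [if_pos c, if_congr this rfl rfl]
      · simp [c]
    refine Nat.cast_injective (R := ℝ) ?_
    rw [e1, e, sum_filter]
    push_cast
    refine sum_congr rfl fun z _ => ?_
    by_cases c1 : ρ z = π k <;> by_cases c2 : blow_b p ≤ z <;> by_cases c3 : z ≤ blow_b q <;>
      simp [c1, c2, c3]

end Pool.Agent.Lib.MP_685082_co.NX
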