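import Pool.Agent.Lib.MP_685082_co.CW

/-! Interfaces between the layers of the reduction. -/

namespace Pool.Agent.Lib.MP_685082_co.NX

open Finset Cone

/-! ### graded posets -/

/-- `v` is the flag vector of a graded poset of rank `n + 1` -/
def IsGr (n : ℕ) (v : Finset ℕ → ℕ) : Prop :=
  ∃ (P : Type) (_ : Fintype P) (_ : PartialOrder P) (_ : BoundedOrder P) (ρ : P → ℕ),
    ρ ⊥ = 0 ∧ ρ ⊤ = n + 1 ∧ (∀ x y, x ⋖ y → ρ y = ρ x + 1) ∧
    ∀ S ⊆ Icc 1 n, W ρ S ⊥ ⊤ = v S

/-- every level becomes four levels, every element a block with two elements in each of them -/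
def E4 (n : ℕ) (v : Finset ℕ → ℕ) (S : Finset ℕ) : ℕ :=
  2 ^ S.card * v ((S.image fun s => (s + 3) / 4).filter (· ≤ n))

section
variable {P : Type} [Fintype P] [PartialOrder P] (ρ : P → ℕ) (ω : P → ℝ)

open Classical in
noncomputable def wlw : List ℕ → P → P → ℝ
  | [], x, y => if x < y then 1 else 0
  | k :: L, x, y => ∑ u, if ρ u = k ∧ u < y then ω u * wlw L x u else 0

/-- weighted chain count -/
noncomputable def Ww (S : Finset ℕ) : P → P → ℝ := wlw ρ ω (S.sort (· ≥ ·))

open Classical in
theorem Ww_empty (x y : P) : Ww ρ ω ∅ x y = if x < y then 1 else 0 := by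
  simp [Ww, wlw]

open Classical in
theorem Ww_insert (S : Finset ℕ) (k : ℕ) (hS : ∀ s ∈ S, s < k) (x y : P) :
    Ww ρ ω (insert k S) x y = ∑ u, if ρ u = k ∧ u < y then ω u * Ww ρ ω S x u else 0 := by
  unfold Ww
  rw [Finset.sort_insert _ (fun b hb => (hS b hb).le) (fun h => lt_irrefl _ (hS k h))]
  rfl

end

/-! ### three layers with types and marks -/

/-- probes: nothing, the hub of a type, the unmarked or the marked elements of a type -/
abbrev Pr (L : Type) := Option (L × Option Bool)

/-- one side of a core: elements with a type and a mark, related to the records `M` -/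
structure Side (L M : Type) where
  A : Type
  fin : Fintype A
  r : A → M → Prop
  t : A → L
  mark : A → Bool

namespace Side
variable {L M : Type} (D : Side L M)

instance : Fintype D.A := D.fin

/-- points: the end point, the hubs, the elements -/
abbrev Pt := Option (L ⊕ D.A)

def rel : D.Pt → M → Prop
  | none, _ => True
  | some (.inl l), m => ∃ x, D.t x = l ∧ D.r x m
  | some (.inr x), m => D.r x m

def sel : Pr L → D.Pt → Prop
  | none, p => p = none
  | some (l, none), p => p = some (.inl l)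
  | some (l, some b), p => ∃ x, p = some (.inr x) ∧ D.t x = l ∧ D.mark x = b

def Up : Prop := ∀ x, ∃ m, D.r x m
def Down : Prop := ∀ m, ∃ x, D.r x m
def Onto : Prop := ∀ l, ∃ x, D.t x = l

end Side

structure Core (L U : Type) where
  M : Type
  fin : Fintype M
  ne : Nonempty M
  lo : Side L M
  hi : Side U M

instance {L U : Type} (c : Core L U) : Fintype c.M := c.fin

/-- the visible numbers of a core -/
noncomputable def Core.vis {L U : Type} (c : Core L U) (a : Pr L) : Bool → Pr U → ℕ
  | true, e => {z : c.lo.Pt × c.M × c.hi.Pt |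
      c.lo.sel a z.1 ∧ c.hi.sel e z.2.2 ∧ c.lo.rel z.1 z.2.1 ∧ c.hi.rel z.2.2 z.2.1}.ncard
  | false, e => {z : c.lo.Pt × c.hi.Pt |
      c.lo.sel a z.1 ∧ c.hi.sel e z.2 ∧ ∃ m, c.lo.rel z.1 m ∧ c.hi.rel z.2 m}.ncard

/-- level of the probe of a type -/
noncomputable def lev {L : Type} [Fintype L] (l : L) : ℕ := (Fintype.equivFin L l : ℕ) + 1

open Classical in
/-- levels `1, …, k` are the probes of the `k` types, `k + 1` holds the hubs, `k + 2` is the probe
of the marks, `k + 3` holds the elements -/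
noncomputable def coef (L : Type) [Fintype L] (S : Finset ℕ) : Pr L → ℕ
  | none => if ∀ s ∈ S, Fintype.card L + 3 < s then 1 else 0
  | some (l, none) =>
      if (∃ s ∈ S, s ≤ Fintype.card L + 1) ∧ Fintype.card L + 2 ∉ S ∧ Fintype.card L + 3 ∉ S then
        (if lev l ∈ S then 2 else 1) else 0
  | some (l, some b) =>
      if Fintype.card L + 2 ∈ S ∨ Fintype.card L + 3 ∈ S then
        (if lev l ∈ S then 2 else 1) * (if Fintype.card L + 2 ∈ S ∧ b = true then 2 else 1) else 0

/-- number of levels -/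
def nlev (L U : Type) [Fintype L] [Fintype U] : ℕ := Fintype.card L + Fintype.card U + 7

/-- the flag vector that belongs to the visible numbers -/
noncomputable def Phi {L U : Type} [Fintype L] [Fintype U] (vis : Pr L → Bool → Pr U → ℕ)
    (S : Finset ℕ) : ℕ :=
  ∑ a, ∑ e, coef L S a * coef U (S.image fun s => nlev L U + 1 - s) e *
    vis a (decide (Fintype.card L + 4 ∈ S)) e

/-! ### systems of tables -/

structure Tab (L U J : Type) where
  lo : J → L → Prop
  up : J → U → Prop
  kL : J → L → Prop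
  kU : J → U → Prop
  fn : L → U → Prop

namespace Tab
variable {L U J : Type} (T : Tab L U J)

structure WF : Prop where
  kL : ∀ j l, T.kL j l → T.lo j l
  kU : ∀ j u, T.kU j u → T.up j u
  fn : ∀ l u, T.fn l u → ∃ j, T.kL j l ∧ T.up j u

structure Model (sL : L → ℕ) (sU : U → ℕ) (sJ : J → ℕ) where
  Ω : Type
  X : L → Finset Ω
  Y : U → Finset Ω
  R : J → Finset Ω
  a : J → L → Ω → Ω
  b : J → U → Ω → Ω
  cX : ∀ l, (X l).card = sL l
  cY : ∀ u, (Y u).card = sU u
  cR : ∀ j, (R j).card = sJ j
  ha : ∀ j l, T.lo j l → ∀ r ∈ R j, a j l r ∈ X l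
  hb : ∀ j u, T.up j u → ∀ r ∈ R j, b j u r ∈ Y u
  ka : ∀ j l, T.kL j l → ∀ x ∈ X l, ∃ r ∈ R j, a j l r = x
  kb : ∀ j u, T.kU j u → ∀ y ∈ Y u, ∃ r ∈ R j, b j u r = y
  hfn : ∀ l u j j', T.fn l u → T.lo j l → T.up j u → T.lo j' l → T.up j' u →
    ∀ r ∈ R j, ∀ r' ∈ R j', a j l r = a j' l r' → b j u r = b j' u r'
  hinj : ∀ l u j j', ¬ T.fn l u → T.lo j l → T.up j u → T.lo j' l → T.up j' u →
    ∀ r ∈ R j, ∀ r' ∈ R j', a j l r = a j' l r' → b j u r = b j' u r' → j = j' ∧ r = r'

/-- every table gets a private lower and a private upper type -/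
def lo' (j : J) : L ⊕ J → Prop
  | .inl l => T.lo j l
  | .inr j' => j = j'

def up' (j : J) : U ⊕ J → Prop
  | .inl u => T.up j u
  | .inr j' => j = j'

/-- all unmarked elements of the lower type lie below the marked element of the upper type -/
def satA : L ⊕ J → U ⊕ J → Prop
  | .inl _, .inl _ => True
  | .inl l, .inr j => ¬ T.kL j l
  | .inr _, _ => False

/-- all unmarked elements of the upper type lie above the marked element of the lower type -/
def satB : L ⊕ J → U ⊕ J → Prop
  | .inl _, .inl _ => True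
  | .inr j, .inl u => ¬ T.kU j u
  | _, .inr _ => False

/-- kinds of records -/
abbrev Kind (L U J : Type) := J ⊕ ((L ⊕ J) × (U ⊕ J)) ⊕ ((L ⊕ J) × (U ⊕ J)) ⊕ Unit

def kLo : Kind L U J → L ⊕ J → Bool → Prop
  | .inl j, l, β => β = false ∧ T.lo' j l
  | .inr (.inl p), l, β => β = false ∧ l = p.1
  | .inr (.inr (.inl p)), l, β => β = true ∧ l = p.1
  | .inr (.inr (.inr _)), _, β => β = true

def kUp : Kind L U J → U ⊕ J → Bool → Prop
  | .inl j, u, β => β = false ∧ T.up' j u
  | .inr (.inl p), u, β => β = true ∧ u = p.2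
  | .inr (.inr (.inl p)), u, β => β = false ∧ u = p.2
  | .inr (.inr (.inr _)), _, β => β = true

variable (sL : L → ℕ) (sU : U → ℕ) (sJ : J → ℕ)

open Classical in
noncomputable def kSz : Kind L U J → ℕ
  | .inl j => sJ j
  | .inr (.inl p) => if T.satA p.1 p.2 then Sum.elim sL sJ p.1 else 0
  | .inr (.inr (.inl p)) => if T.satB p.1 p.2 then Sum.elim sU sJ p.2 else 0
  | .inr (.inr (.inr _)) => 1

/-- the records of a kind are seen by a probe -/
def seen {L' : Type} (k : L' → Bool → Prop) : Pr L' → Prop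
  | none => True
  | some (l, none) => k l false ∨ k l true
  | some (l, some β) => k l β

open Classical in
/-- number of related pairs of unmarked elements -/
noncomputable def pairs [Fintype J] (l : L ⊕ J) (u : U ⊕ J) : ℕ :=
  if ∃ l' u', l = .inl l' ∧ u = .inl u' ∧ T.fn l' u' then Sum.elim sL sJ l
  else ∑ j, if T.lo' j l ∧ T.up' j u then sJ j else 0

open Classical in
noncomputable def visT [Fintype L] [Fintype U] [Fintype J] :
    Pr (L ⊕ J) → Bool → Pr (U ⊕ J) → ℕ
  | a, true, e => ∑ k : Kind L U J,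
      if seen (T.kLo k) a ∧ seen (T.kUp k) e then T.kSz sL sU sJ k else 0
  | some (l, some false), false, some (u, some false) => T.pairs sL sJ l u
  | some (l, some false), false, some (u, some true) =>
      if T.satA l u then Sum.elim sL sJ l else 0
  | some (l, some false), false, some (u, none) =>
      if T.satA l u ∨ ∃ j, T.lo' j l ∧ T.up' j u then Sum.elim sL sJ l else 0
  | some (l, some false), false, none => Sum.elim sL sJ l
  | some (l, some true), false, some (u, some false) =>
      if T.satB l u then Sum.elim sU sJ u else 0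
  | some (l, none), false, some (u, some false) =>
      if T.satB l u ∨ ∃ j, T.lo' j l ∧ T.up' j u then Sum.elim sU sJ u else 0
  | none, false, some (u, some false) => Sum.elim sU sJ u
  | _, false, _ => 1

end Tab

/-! ### sketches: sets, maps, commuting triangles, jointly injective families of pairs of maps -/

structure Sk (I A T K E : Type) where
  src : A → I
  tgt : A → I
  t1 : T → A
  t2 : T → A
  t3 : T → A
  fam : E → K
  ea : E → A
  eb : E → A
  p : K → I
  q : K → I

namespace Sk
variable {I A T K E : Type} (S : Sk I A T K E)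

structure WF : Prop where
  loop : ∀ α, S.src α ≠ S.tgt α
  c12 : ∀ τ, S.src (S.t2 τ) = S.tgt (S.t1 τ)
  c13 : ∀ τ, S.src (S.t3 τ) = S.src (S.t1 τ)
  c23 : ∀ τ, S.tgt (S.t3 τ) = S.tgt (S.t2 τ)
  eab : ∀ e, S.src (S.eb e) = S.src (S.ea e)
  ep : ∀ e, S.tgt (S.ea e) = S.p (S.fam e)
  eq : ∀ e, S.tgt (S.eb e) = S.q (S.fam e)
  pq : ∀ k, S.p k ≠ S.q k
  sep : ∀ e e', S.fam e = S.fam e' → S.src (S.ea e) = S.src (S.ea e') → e = e'

structure Model (sz : I → ℕ) where
  Ω : Type
  X : I → Finset Ω
  f : A → Ω → Ω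
  cX : ∀ i, (X i).card = sz i
  hf : ∀ α, ∀ z ∈ X (S.src α), f α z ∈ X (S.tgt α)
  tri : ∀ τ, ∀ z ∈ X (S.src (S.t1 τ)), f (S.t3 τ) z = f (S.t2 τ) (f (S.t1 τ) z)
  inj : ∀ e e', S.fam e = S.fam e' → ∀ z ∈ X (S.src (S.ea e)), ∀ z' ∈ X (S.src (S.ea e')),
    f (S.ea e) z = f (S.ea e') z' → f (S.eb e) z = f (S.eb e') z' → e = e' ∧ z = z'

end Sk

/-! ### grids with local rules -/

/-- terms: one of three variables or the constant, shifted at most `D` times -/
abbrev Tm (D : ℕ) := Fin 4 × Fin (D + 1)

def tval {X : Type} {D : ℕ} (s : X → X) (o x y z : X) (τ : Tm D) : X := s^[τ.2] (![x, y, z, o] τ.1)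

/-- a set `X` of `K` elements with a map `s`, a point `o` and two labellings of `X × X` that obey
a local rule; the second labelling is constant on four classes of given sizes -/
def GridSat {A : Type} {D : ℕ} (Wp : ((Tm D × Tm D) × Bool → A) → Prop) (emb : Bool × Bool → A)
    (K : ℕ) (φ : Bool × Bool → ℕ) : Prop :=
  ∃ (X : Type) (_ : Fintype X) (s : X → X) (o : X) (cell : Bool → X → X → A)
    (part : X × X → Bool × Bool), Fintype.card X = K ∧
    (∀ q, {z | part z = q}.ncard = φ q) ∧ (∀ x y, cell true x y = emb (part (x, y))) ∧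
    ∀ x y z, Wp fun k => cell k.2 (tval s o x y z k.1.1) (tval s o x y z k.1.2)

/-- sizes of the four classes: first bit `x = y`, second bit `x < m` -/
def cls (K m : ℕ) : Bool × Bool → ℕ
  | (true, true) => m
  | (true, false) => K - m
  | (false, true) => m * (K - 1)
  | (false, false) => (K - m) * (K - 1)

end Pool.Agent.Lib.MP_685082_co.NX
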