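import Pool.Agent.Lib.MP_685082_co.NX.Blow
import Pool.Agent.Lib.MP_685082_co.Defs

/-! From graded posets to Eulerian posets: every level becomes four doubled levels. -/

namespace Pool.Agent.Lib.MP_685082_co.NX

open Finset Cone

theorem l0c_Ww {B : Type} [Fintype B] [PartialOrder B] (ρ : B → ℕ) (c : ℕ → ℝ) (T : Finset ℕ)
    (x y : B) : Ww ρ (fun z => c (ρ z)) T x y = (∏ k ∈ T, c k) * W ρ T x y := by
  classical
  induction T using Finset.induction_on_max generalizing y with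
  | empty => rw [Ww_empty, W_empty]; simp
  | insert k T hT ih =>
    rw [Ww_insert _ _ T k hT, W_insert _ T k hT, prod_insert (fun h => lt_irrefl _ (hT k h)),
      mul_sum]
    refine sum_congr rfl fun u _ => ?_
    split_ifs with h
    · rw [ih, h.1]; ring
    · simp

theorem l0c_alt (u : ℕ → ℤ) (hu : ∀ t, Odd t → u (t + 1) = u t) (a b : ℕ) (h : a ≤ b) :
    ∑ k ∈ Ioc a b, (-1) ^ k * u k =
      (if Odd b then - u b else 0) - (if Odd a then - u a else 0) := by
  induction b, h using Nat.le_induction with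
  | base => simp
  | succ b h ih =>
    rw [sum_Ioc_succ_top h, ih]
    rcases Nat.even_or_odd b with hb | hb
    · rw [if_neg (Nat.not_odd_iff_even.2 hb), if_pos hb.add_one, hb.add_one.neg_one_pow]; ring
    · rw [if_pos hb, if_neg (Nat.not_odd_iff_even.2 hb.add_one), hb.add_one.neg_one_pow, hu b hb]
      ring

theorem l0c_zero (u N : ℕ → ℤ) (hu : ∀ t, Odd t → u (t + 1) = u t) {a b : ℕ} (h : a < b)
    (ua : u a = 1) (ub : u b = 1) (Na : N a = 1) (Nb : N b = 1)
    (hN : ∀ k, a < k → k < b → N k = 2 * u k) : ∑ k ∈ Icc a b, (-1) ^ k * N k = 0 := by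
  have h1 := l0c_alt u hu a b h.le
  rw [← Ioo_insert_right h, sum_insert (by simp), ua, ub] at h1
  rw [← Ioc_insert_left h.le, sum_insert (by simp), ← Ioo_insert_right h, sum_insert (by simp),
    Na, Nb, sum_congr rfl (g := fun k => 2 * ((-1) ^ k * u k)), ← mul_sum]
  · rcases Nat.even_or_odd a with ha | ha <;> rcases Nat.even_or_odd b with hb | hb <;>
      simp only [ha.neg_one_pow, hb.neg_one_pow, ha, hb, Nat.not_odd_iff_even.2, if_true,
        if_false] at h1 ⊢ <;> linarith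
  · intro k hk
    rw [mem_Ioo] at hk
    rw [hN k hk.1 hk.2]; ring

theorem l0c_euler {P : Type} [Fintype P] [PartialOrder P] {r : P → ℕ}
    (hc : ∀ x y, x ⋖ y → r y = r x + 1) (p q : P)
    (h : ∑ k ∈ Icc (r p) (r q), (-1) ^ k * ({z | p ≤ z ∧ z ≤ q ∧ r z = k}.ncard : ℤ) = 0) :
    {z | p ≤ z ∧ z ≤ q ∧ Even (r z)}.ncard = {z | p ≤ z ∧ z ≤ q ∧ Odd (r z)}.ncard := by
  classical
  have e : ∀ Q : P → Prop, ({z | p ≤ z ∧ z ≤ q ∧ Q z}.ncard : ℤ) =
      ∑ z ∈ univ.filter (fun z => p ≤ z ∧ z ≤ q), if Q z then 1 else 0 := fun Q => by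
    rw [sum_boole, ← Set.ncard_coe_finset]
    congr 2; ext z; simp [and_assoc]
  simp only [e, mul_sum] at h
  rw [sum_comm] at h
  have h2 : ({z | p ≤ z ∧ z ≤ q ∧ Even (r z)}.ncard : ℤ) -
      {z | p ≤ z ∧ z ≤ q ∧ Odd (r z)}.ncard = 0 := by
    rw [e, e, ← sum_sub_distrib]
    refine Eq.trans (sum_congr rfl fun z hz => ?_) h
    rw [mem_filter] at hz
    rw [sum_eq_single_of_mem (r z) (mem_Icc.2 ⟨rk_le hc hz.2.1, rk_le hc hz.2.2⟩)
      (fun k _ hk => by rw [if_neg (Ne.symm hk), mul_zero]), if_pos rfl]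
    rcases Nat.even_or_odd (r z) with ha | ha
    · rw [if_pos ha, if_neg (Nat.not_odd_iff_even.2 ha), ha.neg_one_pow]; ring
    · rw [if_pos ha, if_neg (Nat.not_even_iff_odd.2 ha), ha.neg_one_pow]; ring
  exact_mod_cast sub_eq_zero.1 h2

theorem L0C {n n' : ℕ} (h : 4 * n ≤ n') {v : Finset ℕ → ℕ} (hv : IsGr n v) :
    IsFlagVec n' fun S => (E4 n v S : ℤ) := by
  classical
  obtain ⟨B, _, _, _, ρ, h0, h1, hc, hW⟩ := hv
  obtain ⟨P, _, _, _, r, r0, r1, rc, rW, rE⟩ := blowup ρ n n' h0 h1 hc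
    (fun s => min ((s + 3) / 4) (n + 1)) (by simp) (by omega) (by simp) (fun s => by omega)
    (fun s _ => if s = 0 ∨ s = n' + 1 then 1 else 2) (fun s _ => by split_ifs <;> omega)
    (by simp) (by simp)
  refine ⟨P, inferInstance, inferInstance, inferInstance, r, r0, r1, rc, fun p q hpq => ?_,
    fun S hS => ?_⟩
  · obtain ⟨x, y, hxy, hx, hy, H⟩ := rE p q hpq
    have hq : r q ≤ n' + 1 := r1 ▸ rk_le rc le_top
    refine l0c_euler rc p q (l0c_zero (fun k => ((univ.filter fun z : B =>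
      x ≤ z ∧ z ≤ y ∧ ρ z = min ((k + 3) / 4) (n + 1)).card : ℤ)) _ (fun t ht => ?_)
      (rk_lt rc hpq) ?_ ?_ ?_ ?_ fun k k1 k2 => ?_)
    · have : (t + 1 + 3) / 4 = (t + 3) / 4 := by obtain ⟨j, rfl⟩ := ht; omega
      rw [this]
    · rw [← hx, Nat.cast_eq_one, card_eq_one]
      refine ⟨x, eq_singleton_iff_unique_mem.2 ⟨by simp [hxy], fun z hz => ?_⟩⟩
      simp only [mem_filter] at hz
      exact (eq_of_rk hc hz.2.1 hz.2.2.2.le).symm
    · rw [← hy, Nat.cast_eq_one, card_eq_one]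
      refine ⟨y, eq_singleton_iff_unique_mem.2 ⟨by simp [hxy], fun z hz => ?_⟩⟩
      simp only [mem_filter] at hz
      exact eq_of_rk hc hz.2.2.1 hz.2.2.2.ge
    · rw [Nat.cast_eq_one, Set.ncard_eq_one]
      exact ⟨p, Set.eq_singleton_iff_unique_mem.2 ⟨⟨le_rfl, hpq.le, rfl⟩,
        fun z hz => (eq_of_rk rc hz.1 hz.2.2.le).symm⟩⟩
    · rw [Nat.cast_eq_one, Set.ncard_eq_one]
      exact ⟨q, Set.eq_singleton_iff_unique_mem.2 ⟨⟨hpq.le, le_rfl, rfl⟩,
        fun z hz => eq_of_rk rc hz.2.1 hz.2.2.ge⟩⟩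
    · rw [H k k1 k2, sum_const, if_neg (by omega), smul_eq_mul, mul_comm]
      push_cast; rfl
  · have hS' : ∀ s ∈ S, 1 ≤ s ∧ s ≤ n' := fun s hs => mem_Icc.1 (hS hs)
    have e1 := flag_eq_W rc r0 r1 S (fun h0 => by have := hS' 0 h0; omega)
    have e2 : (S.image fun s => min ((s + 3) / 4) (n + 1)).erase (n + 1) =
        (S.image fun s => (s + 3) / 4).filter (· ≤ n) := by
      ext k
      simp only [mem_erase, mem_image, mem_filter]
      constructor
      · rintro ⟨k1, s, hs, k2⟩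
        exact ⟨⟨s, hs, by omega⟩, by omega⟩
      · rintro ⟨⟨s, hs, k2⟩, k1⟩
        exact ⟨by omega, s, hs, by omega⟩
    have e3 : (S.image fun s => (s + 3) / 4).filter (· ≤ n) ⊆ Icc 1 n := by
      intro k hk
      simp only [mem_image, mem_filter] at hk
      obtain ⟨⟨s, hs, k2⟩, k1⟩ := hk
      have := hS' s hs
      rw [mem_Icc]; omega
    have e4 := l0c_Ww ρ (fun k => ∏ s ∈ S with min ((s + 3) / 4) (n + 1) = k,
      ((if s = 0 ∨ s = n' + 1 then 1 else 2 : ℕ) : ℝ))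
      ((S.image fun s => min ((s + 3) / 4) (n + 1)).erase (n + 1)) ⊥ ⊤
    have e5 := prod_fiberwise_of_maps_to (s := S) (t := insert (n + 1)
      ((S.image fun s => min ((s + 3) / 4) (n + 1)).erase (n + 1)))
      (g := fun s => min ((s + 3) / 4) (n + 1))
      (fun s hs => subset_insert_iff.2 (Subset.refl _) (mem_image_of_mem _ hs))
      (fun s => ((if s = 0 ∨ s = n' + 1 then 1 else 2 : ℕ) : ℝ))
    rw [prod_insert (notMem_erase _ _)] at e5
    have e6 : ∏ s ∈ S, ((if s = 0 ∨ s = n' + 1 then 1 else 2 : ℕ) : ℝ) = 2 ^ S.card := by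
      rw [← prod_const]
      refine prod_congr rfl fun s hs => ?_
      have := hS' s hs
      rw [if_neg (by omega)]; rfl
    rw [rW S hS, e4, ← mul_assoc, e5, e6, e2, hW _ e3, flag] at e1
    have e7 : ((E4 n v S : ℕ) : ℝ) =
        ({c : Set P | IsChain (· ≤ ·) c ∧ ⊥ ∉ c ∧ ⊤ ∉ c ∧ r '' c = S}.ncard : ℕ) := by
      rw [e1, E4]; push_cast; rfl
    exact congrArg (fun k : ℕ => (k : ℤ)) (Nat.cast_injective e7)

end Pool.Agent.Lib.MP_685082_co.NX
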