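import Pool.Agent.Lib.MP_685082_co.NX.Core

/-! Soundness of the first layer: one side. -/

namespace Pool.Agent.Lib.MP_685082_co.NX

open Finset Cone

section
variable {P : Type} [Fintype P] [PartialOrder P] {ρ : P → ℕ}

theorem l1s_nat (S : Finset ℕ) (x y : P) : ∃ m : ℕ, W ρ S x y = m := by
  classical
  induction S using Finset.induction_on_max generalizing y with
  | empty =>
    rw [W_empty]
    split_ifs
    · exact ⟨1, by simp⟩
    · exact ⟨0, by simp⟩
  | insert k S hS ih =>
    choose f hf using ih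
    refine ⟨∑ u, if ρ u = k ∧ u < y then f u else 0, ?_⟩
    rw [W_insert ρ S k hS]
    push_cast
    simp only [hf]

open Classical in
theorem l1s_single (j : ℕ) (x y : P) :
    W ρ {j} x y = ∑ u, if ρ u = j ∧ u < y then W ρ ∅ x u else 0 := by
  rw [← insert_empty_eq, W_insert ρ ∅ j (by simp)]

open Classical in
theorem l1s_pair {i j : ℕ} (h : i < j) (x y : P) :
    W ρ {j, i} x y = ∑ u, if ρ u = j ∧ u < y then W ρ {i} x u else 0 :=
  W_insert ρ {i} j (by simpa using h) x y

theorem l1s_one {X : Type} [Fintype X] [DecidableEq X] (f : X → ℝ) (hf : ∀ x, ∃ m : ℕ, f x = m)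
    (h : ∑ x, f x = 1) : ∃ d, ∀ x, f x = if x = d then 1 else 0 := by
  have h0 : ∀ x, 0 ≤ f x := fun x => by obtain ⟨m, hm⟩ := hf x; rw [hm]; positivity
  obtain ⟨d, -, hd⟩ := exists_ne_zero_of_sum_ne_zero (s := univ) (f := f) (by rw [h]; norm_num)
  have h1 : 1 ≤ f d := by
    obtain ⟨m, hm⟩ := hf d
    rw [hm] at hd ⊢
    exact_mod_cast Nat.pos_of_ne_zero (by exact_mod_cast hd)
  rw [← add_sum_erase _ _ (mem_univ d)] at h
  have h2 : 0 ≤ ∑ x ∈ univ.erase d, f x := sum_nonneg fun x _ => h0 x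
  have h3 : ∑ x ∈ univ.erase d, f x = 0 := by linarith
  refine ⟨d, fun x => ?_⟩
  split_ifs with e
  · rw [e]; linarith
  · exact (sum_eq_zero_iff_of_nonneg fun x _ => h0 x).1 h3 x (by simp [e])

variable (hc : ∀ x y, x ⋖ y → ρ y = ρ x + 1)
include hc

theorem l1s_mid {x y : P} (h : x < y) {j : ℕ} (h1 : ρ x < j) (h2 : j < ρ y) :
    ∃ z, ρ z = j ∧ x < z ∧ z < y := by
  obtain ⟨z, k1, k2, k3⟩ := exists_rank hc h.le j h1.le h2.le
  exact ⟨z, k1, lt_of_le_of_ne k2 (by rintro rfl; omega), lt_of_le_of_ne k3 (by rintro rfl; omega)⟩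

theorem l1s_ge {x y : P} {j : ℕ} (h1 : ρ x < j) (h2 : j < ρ y) : W ρ ∅ x y ≤ W ρ {j} x y := by
  classical
  rw [W_empty]
  split_ifs with h
  · obtain ⟨z, hz⟩ := l1s_mid hc h h1 h2
    rw [W_single]
    refine le_trans ?_ (single_le_sum (f := fun u => if ρ u = j ∧ x < u ∧ u < y then (1 : ℝ) else 0)
      (fun u _ => by split_ifs <;> norm_num) (mem_univ z))
    simp [hz]
  · exact W_nonneg ρ _ _ _

/-- one more chain: one element with two elements below it -/
theorem l1s_exc {b c : P} {i j : ℕ} (h1 : ρ b < i) (h2 : i < j)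
    (h : W ρ {j, i} b c = W ρ {j} b c + 1) (hc' : ∀ y, ρ y = j → y < c) :
    ∃ d, ρ d = j ∧ b < d ∧ ∀ x, W ρ {j, i} b x = W ρ {j} b x + W ρ ∅ d x := by
  classical
  obtain ⟨d, hd⟩ := l1s_one (fun y => if ρ y = j then W ρ {i} b y - W ρ ∅ b y else 0)
    (fun y => by
      split_ifs with e
      · obtain ⟨m, hm⟩ := l1s_nat (ρ := ρ) {i} b y
        obtain ⟨m', hm'⟩ := l1s_nat (ρ := ρ) ∅ b y
        have := l1s_ge hc (x := b) (y := y) h1 (by omega)
        rw [hm, hm'] at this ⊢
        exact ⟨m - m', by rw [Nat.cast_sub (by exact_mod_cast this)]⟩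
      · exact ⟨0, by simp⟩)
    (by
      rw [l1s_pair h2, l1s_single, ← sub_eq_iff_eq_add', ← sum_sub_distrib] at h
      rw [← h]
      refine sum_congr rfl fun y _ => ?_
      by_cases e : ρ y = j
      · simp [e, hc' y e]
      · simp [e])
  have e1 := hd d
  rw [if_pos rfl] at e1
  have e2 : ρ d = j := by
    by_contra e
    rw [if_neg e] at e1
    norm_num at e1
  rw [if_pos e2] at e1
  refine ⟨d, e2, ?_, fun x => ?_⟩
  · by_contra e
    rw [W_zero ρ _ _ _ e, W_zero ρ _ _ _ e] at e1
    norm_num at e1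
  · rw [l1s_pair h2, l1s_single, ← sub_eq_iff_eq_add', ← sum_sub_distrib, W_empty,
      sum_eq_single d]
    · by_cases e : d < x <;> simp [e, e2, e1]
    · intro y _ hy
      have := hd y
      rw [if_neg hy] at this
      by_cases e : ρ y = j ∧ y < x
      · rw [if_pos e.1] at this
        rw [if_pos e, if_pos e, this]
      · simp [e]
    · simp

variable [BoundedOrder P] {n : ℕ} (h0 : ρ ⊥ = 0) (h1 : ρ ⊤ = n + 1)
include h0 h1

/-- every element of level `i` has one upper element of level `j` -/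
theorem l1s_uniq {i j : ℕ} (hi : 0 < i) (hij : i < j) (hj : j ≤ n)
    (h : W ρ {j, i} ⊥ ⊤ = W ρ {i} ⊥ ⊤) (b x : P) (hx : j < ρ x) :
    W ρ {j, i} b x = W ρ {i} b x := by
  classical
  have s1 : ∀ b x, W ρ {j, i} b x = ∑ u, if ρ u = i then W ρ ∅ b u * W ρ {j} u x else 0 :=
    fun b x => by
      rw [← W_split ρ ∅ {j} i (by simp) (by simpa using hij)]; rfl
  have s2 : ∀ b x, W ρ {i} b x = ∑ u, if ρ u = i then W ρ ∅ b u * W ρ ∅ u x else 0 :=
    fun b x => by
      rw [← W_split ρ ∅ ∅ i (by simp) (by simp)]; rfl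
  have k1 : ∀ u, ρ u = i → W ρ {j} u ⊤ = 1 := by
    intro u hu
    rw [s1, s2, ← sub_eq_zero, ← sum_sub_distrib, sum_eq_zero_iff_of_nonneg] at h
    · have := h u (mem_univ u)
      have a : ⊥ < u := bot_lt_iff_ne_bot.2 (by rintro rfl; omega)
      have b : u < ⊤ := lt_top_iff_ne_top.2 (by rintro rfl; omega)
      simp only [hu, if_true, W_empty, a, b] at this
      linarith
    · intro v _
      split_ifs with e
      · have := l1s_ge hc (x := v) (y := ⊤) (j := j) (by omega) (by omega)
        have := W_nonneg ρ ∅ ⊥ v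
        nlinarith
      · simp
  rw [s1, s2]
  refine sum_congr rfl fun u _ => ?_
  split_ifs with e
  · congr 1
    refine le_antisymm ?_ (l1s_ge hc (by omega) hx)
    rw [W_empty]
    split_ifs with e2
    · rw [← k1 u e, W_single, W_single]
      refine sum_le_sum fun v _ => ?_
      by_cases a : ρ v = j ∧ u < v ∧ v < x
      · rw [if_pos a, if_pos ⟨a.1, a.2.1, a.2.2.trans_le le_top⟩]
      · rw [if_neg a]; split_ifs <;> norm_num
    · exact (W_zero ρ _ _ _ e2).le
  · rfl

end

theorem l1s_lev {L : Type} [Fintype L] (l : L) : 1 ≤ lev l ∧ lev l ≤ Fintype.card L := by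
  have := (Fintype.equivFin L l).2
  unfold lev; omega

theorem l1s_lev_inj {L : Type} [Fintype L] {l l' : L} : lev l = lev l' ↔ l = l' := by
  refine ⟨fun h => ?_, fun h => h ▸ rfl⟩
  unfold lev at h
  exact (Fintype.equivFin L).injective (Fin.ext (by omega))

/-- the combination of flag numbers that isolates a probe -/
noncomputable def l1sComb (L : Type) [Fintype L] : Pr L → (Finset ℕ → ℝ) → ℝ
  | none, F => F ∅
  | some (l, none), F => F {lev l} - F {Fintype.card L + 1}
  | some (l, some true), F =>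
      (F {Fintype.card L + 2, lev l} - F {Fintype.card L + 2, Fintype.card L + 1}) -
      (F {Fintype.card L + 3, lev l} - F {Fintype.card L + 3, Fintype.card L + 1})
  | some (l, some false), F =>
      2 * (F {Fintype.card L + 3, lev l} - F {Fintype.card L + 3, Fintype.card L + 1}) -
      (F {Fintype.card L + 2, lev l} - F {Fintype.card L + 2, Fintype.card L + 1})

section
variable {L : Type} [Fintype L]

theorem l1s_congr (a : Pr L) {F G : Finset ℕ → ℝ}
    (h : ∀ S ⊆ Icc 1 (Fintype.card L + 3), F S = G S) : l1sComb L a F = l1sComb L a G := by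
  have k1 : ∀ i, 1 ≤ i → i ≤ Fintype.card L + 3 → F {i} = G {i} := fun i a b =>
    h _ (by simp [a, b])
  have k2 : ∀ i j, 1 ≤ i → i ≤ Fintype.card L + 3 → 1 ≤ j → j ≤ Fintype.card L + 3 →
      F {i, j} = G {i, j} := fun i j a b c d => h _ (by simp [insert_subset_iff, a, b, c, d])
  rcases a with _ | ⟨l, _ | _ | _⟩
  · exact h _ (empty_subset _)
  all_goals
    have := l1s_lev l
    simp only [l1sComb]
  · rw [k1 _ (by omega) (by omega), k1 _ (by omega) (by omega)]
  all_goals
    rw [k2 _ _ (by omega) (by omega) (by omega) (by omega),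
      k2 _ _ (by omega) (by omega) (by omega) (by omega),
      k2 _ _ (by omega) (by omega) (by omega) (by omega),
      k2 _ _ (by omega) (by omega) (by omega) (by omega)]

theorem l1s_sum (a : Pr L) {X : Type} [Fintype X] (F : X → Finset ℕ → ℝ) :
    l1sComb L a (fun S => ∑ x, F x S) = ∑ x, l1sComb L a (F x) := by
  rcases a with _ | ⟨l, _ | _ | _⟩ <;> simp only [l1sComb, sum_sub_distrib, mul_sum, mul_sub]

theorem l1s_ite (a : Pr L) (p : Prop) [Decidable p] (F : Finset ℕ → ℝ) :
    l1sComb L a (fun S => if p then F S else 0) = if p then l1sComb L a F else 0 := by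
  split_ifs
  · rfl
  · rcases a with _ | ⟨l, _ | _ | _⟩ <;> simp [l1sComb]

theorem l1s_mul (a : Pr L) (c : ℝ) (F : Finset ℕ → ℝ) :
    l1sComb L a (fun S => F S * c) = l1sComb L a F * c := by
  rcases a with _ | ⟨l, _ | _ | _⟩ <;> simp only [l1sComb] <;> ring

open Classical in
theorem l1s_delta (a a' : Pr L) :
    l1sComb L a (fun S => (coef L S a' : ℝ)) = if a' = a then 1 else 0 := by
  rcases a with _ | ⟨l, _ | _ | _⟩
  · rcases a' with _ | ⟨l', _ | b⟩ <;> simp [l1sComb, coef]
  all_goals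
    have h1 := l1s_lev l
    have e1 : ¬ Fintype.card L + 3 < lev l := by omega
    have e2 : lev l ≤ Fintype.card L + 1 := by omega
    have e3 : Fintype.card L + 2 ≠ lev l := by omega
    have e4 : Fintype.card L + 3 ≠ lev l := by omega
    have e8 : lev l ≠ Fintype.card L + 1 := by omega
    rcases a' with _ | ⟨l', _ | b⟩
    · simp [l1sComb, coef, e1]
    all_goals
      have h2 := l1s_lev l'
      have e5 : lev l' ≠ Fintype.card L + 1 := by omega
      have e6 : lev l' ≠ Fintype.card L + 2 := by omega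
      have e7 : lev l' ≠ Fintype.card L + 3 := by omega
      first
        | (by_cases e : l' = l <;> cases b <;>
            simp [l1sComb, coef, e1, e2, e3, e4, e5, e6, e7, e8, e3.symm, e4.symm,
              l1s_lev_inj, e] <;> norm_num)
        | (by_cases e : l' = l <;>
            simp [l1sComb, coef, e1, e2, e3, e4, e5, e6, e7, e8, e3.symm, e4.symm,
              l1s_lev_inj, e] <;> norm_num)

theorem l1s_coef (a : Pr L) (g : Pr L → ℝ) :
    l1sComb L a (fun S => ∑ a', (coef L S a' : ℝ) * g a') = g a := by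
  classical
  rw [l1s_sum]
  simp only [l1s_mul, l1s_delta]
  simp

end

end Pool.Agent.Lib.MP_685082_co.NX
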