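import Pool.Agent.Lib.MP_685082_co.NX.Tally

/-! Nondeterministic exponential time is not contained in `NP` or `coNP`. -/

namespace Pool.Agent.Lib.MP_685082_co.NX
open Function Pool.Agent.Lib.Complexity N68a2faeb N793a5b8e

theorem nnp_pow (Q : Polynomial ℕ) : ∃ c, ∀ N, 2 ≤ N → Q.eval N ≤ N ^ c := by
  induction Q using Polynomial.induction_on' with
  | add p q hp hq =>
    obtain ⟨a, ha⟩ := hp
    obtain ⟨b, hb⟩ := hq
    refine ⟨a + b + 1, fun N hN => ?_⟩
    have h1 : N ^ a ≤ N ^ (a + b) := Nat.pow_le_pow_right (by omega) (by omega)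
    have h2 : N ^ b ≤ N ^ (a + b) := Nat.pow_le_pow_right (by omega) (by omega)
    have h3 := ha N hN
    have h4 := hb N hN
    rw [Polynomial.eval_add, pow_succ]
    nlinarith
  | monomial n a =>
    refine ⟨a + n, fun N hN => ?_⟩
    rw [Polynomial.eval_monomial, pow_add]
    exact Nat.mul_le_mul_right _ (Nat.lt_two_pow_self.le.trans (Nat.pow_le_pow_left hN a))

theorem nnp_ev (Q : Polynomial ℕ) : ∃ m0, ∀ m, m0 ≤ m → Q.eval m ≤ 2 ^ m := by
  obtain ⟨c, hc⟩ := nnp_pow Q
  have h := (tendsto_pow_const_div_const_pow_of_one_lt c (r := 2) one_lt_two).eventually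
    (gt_mem_nhds one_pos)
  obtain ⟨m0, h0⟩ := Filter.eventually_atTop.1 h
  refine ⟨m0 + 2, fun m hm => (hc m (by omega)).trans ?_⟩
  have h1 := h0 m (by omega)
  rw [div_lt_one (by positivity)] at h1
  exact_mod_cast h1.le

/-- membership in `NEXP` with a verifier that gets `2 ^ |x|` in unary -/
theorem nnp_mem {L : DecisionProblem} {len : Str × ℕ → ℕ} {R : (Str × ℕ) × Str → Bool}
    (hl : PT len) (hR : PT R)
    (h : ∀ x, L x = true ↔ ∃ w : Str, w.length = len (x, 2 ^ x.length) ∧
      R ((x, 2 ^ x.length), w) = true) : L ∈ NEXP := by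
  obtain ⟨Q, hQ⟩ := hl.pb_nat
  obtain ⟨c, hc⟩ := nnp_pow Q
  have hk : PT fun q : Str × Str => (q.1, min (2 ^ q.1.length) q.2.length) :=
    PT.prodMk (by fun_prop) (PTB.min_unary ((PTB.const 2).pow (by fun_prop)) (by fun_prop))
  refine ⟨(Polynomial.X + 2) * Polynomial.C (c + 1), fun q =>
    R ((q.1, min (2 ^ q.1.length) q.2.length),
      q.2.take (len (q.1, min (2 ^ q.1.length) q.2.length))),
    (hR.comp (hk.prodMk (PT.take (hl.comp hk) (by fun_prop)))).isPolyTime_rel, fun x => ?_⟩
  have e : ((Polynomial.X + 2) * Polynomial.C (c + 1) : Polynomial ℕ).eval x.length =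
      (x.length + 2) * (c + 1) := by simp
  have h1 : 2 ^ x.length ≤ 2 ^ ((x.length + 2) * (c + 1)) :=
    Nat.pow_le_pow_right (by omega) (by nlinarith)
  have h2 : len (x, 2 ^ x.length) ≤ 2 ^ ((x.length + 2) * (c + 1)) := by
    have h3 := PT.sz_str_le x
    have h4 : x.length < 2 ^ x.length := Nat.lt_two_pow_self
    have h5 : sz (x, 2 ^ x.length) ≤ 2 ^ (x.length + 2) := by
      simp only [sz_prod, sz_nat, pow_add]; omega
    refine (hQ _).trans ((peval_mono Q h5).trans ((hc _ ?_).trans ?_))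
    · rw [pow_add]; omega
    · rw [← pow_mul]
      exact Nat.pow_le_pow_right (by omega) (by nlinarith)
  rw [e, h]
  constructor
  · rintro ⟨w, hw, hR⟩
    refine ⟨w ++ List.replicate (2 ^ ((x.length + 2) * (c + 1)) - w.length) false, ?_, ?_⟩
    · simp; omega
    · have : (w ++ List.replicate (2 ^ ((x.length + 2) * (c + 1)) - w.length) false).length =
          2 ^ ((x.length + 2) * (c + 1)) := by simp; omega
      simp only [this, min_eq_left h1, ← hw, List.take_left']
      exact hR
  · rintro ⟨w, hw, hR⟩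
    simp only [hw, min_eq_left h1] at hR
    exact ⟨_, by rw [List.length_take, hw, min_eq_left h2], hR⟩

theorem nnp_sub {L : DecisionProblem} (h : L ∈ NP) : L ∈ NEXP := by
  obtain ⟨p, R, hR, e⟩ := np_exact h
  exact nnp_mem (len := fun q => p.eval q.1.length) (R := fun q => R (q.1.1, q.2))
    (PT.poly_eval (by fun_prop) p) (hR.comp (by fun_prop)) e

theorem nnp_red {A B : DecisionProblem} (h : ManyOneReducible A B) (hB : B ∈ NP) : A ∈ NP := by
  obtain ⟨f, hf, e⟩ := h
  obtain ⟨p, R, hR, e'⟩ := np_exact hB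
  have hf' := pt_of_isPolyTime_str hf
  have h1 : PT fun x => p.eval (f x).length := PT.poly_eval hf'.length p
  obtain ⟨q, hq⟩ := h1.pb_nat
  refine mem_NP_of_PT (R := fun z => decide (z.2.length = p.eval (f z.1).length) && R (f z.1, z.2))
    (PT.and (PT.dec_eq (by fun_prop) (h1.comp (by fun_prop)))
      (hR.comp ((hf'.comp (by fun_prop)).prodMk (by fun_prop))))
    (q.comp (2 * Polynomial.X)) fun x => ?_
  rw [e, e']
  simp only [Bool.and_eq_true, decide_eq_true_eq]
  refine ⟨fun ⟨w, hw, h⟩ => ⟨w, ?_, hw, h⟩, fun ⟨w, _, hw, h⟩ => ⟨w, hw, h⟩⟩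
  rw [hw]
  refine (hq x).trans ?_
  simpa using peval_mono q (PT.sz_str_le x)

/-- the tableau with any sufficiently large time bound -/
theorem nnp_cl {α : Type} [Enc α] {R : α × Str → Bool} (hR : PT R) :
    ∃ (Rl : List (List (TL ℕ) × TL ℕ)) (d q0 : ℕ) (others : List ℕ) (c0 : Option Bool → ℕ)
      (p : Polynomial ℕ), ∀ (a : α) (w : Str) (t : ℕ),
      p.eval ((enc a).bits.length + w.length) ≤ t → (R (a, w) = true ↔
      ∃ v : ℕ → Bool, (∀ i < w.length, w[i]? = some (v i)) ∧
        (tableau Rl d q0 others c0 (enc a).bits w.length t).Sat v) := by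
  have hp := PT.parse'
  have hrd : PT (fun s : Str => T.node (PT.parse s) (enc (s.drop (PT.parse s).bits.length))) := by
    fun_prop
  have h1 : RPT (fun x : α × Str => (enc x.1).bits ++ x.2) (fun x : α × Str => (enc x).bits)
      fun x => x := by
    have h0 : RPT (fun l : Str => (strT l).bits) T.bits
        (fun s : Str => T.node (PT.parse s) (enc (s.drop (PT.parse s).bits.length))) := by
      simp only [strT_eq]; exact hrd
    refine RPT.congr (h0.comp rpt_toT) (fun x : α × Str => (enc x.1).bits ++ x.2) (fun _ => rfl)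
      fun x => ?_
    have : PT.parse ((enc x.1).bits ++ x.2) = enc x.1 := by
      rw [PT.parse, PT.parse_bits]; rfl
    simp only [this, List.drop_left]
    rfl
  have h2 : RPT (fun b : Bool => (enc b).bits) (fun b : Bool => [b]) fun b => b := by
    have hw : PT (fun b : Bool => [b]) := by fun_prop
    have h0 : RPT (fun b : Bool => (enc b).bits) (fun l : Str => (strT l).bits)
        (fun b : Bool => [b]) := by
      simp only [strT_eq]; exact hw
    exact RPT.congr (rpt_ofT.comp h0) (fun b => b) (fun _ => rfl) fun _ => rfl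
  obtain ⟨M, Λ, _, m, l0, p, hrun⟩ := (h2.comp (RPT.comp hR h1)).run
  let d : ℕ := Finset.univ.sup (fun l => depth (m l))
  have hd : ∀ l, depth (m l) ≤ d := fun l =>
    Finset.le_sup (f := fun l => depth (m l)) (Finset.mem_univ l)
  let ix : Sym (Fin (M + 1)) Λ Bool → ℕ := fun s => (Fintype.equivFin _ s : ℕ)
  have hix : Injective ix := fun _ _ h => (Fintype.equivFin _).injective (Fin.ext h)
  refine ⟨_, d, _, _, _, p, fun a w t ht => (?_ : _ ↔ ∃ v : ℕ → Bool, _ ∧
    (machineTableau m d ix l0 false 0 (enc a).bits w.length t).Sat v)⟩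
  have h3 := hrun (a, w) t (by simpa using ht)
  constructor
  · intro h
    exact tableau_complete hd hix l0 false 0 _ w _ (by rw [h3]; simp [h])
  · rintro ⟨v, hv, hs⟩
    have := tableau_sound hd ix l0 false 0 _ w _ v hv hs
    rw [h3] at this
    simpa using this

/-- the universal verifier on a coded instance -/
theorem nnp_key (D : TallyD) {n t B : ℕ} (hn : D.2.2.2.2.2.2.1 = n.bits)
    (ht : D.2.2.2.2.2.2.2 = t.bits) (h1 : n ≤ B) (h2 : t ≤ B) (h3 : (tallyF D n t).top ≤ B) :
    (∃ w : Str, w.length = bval (((enc D).bits ++ List.replicate B.bits.length false) ++ [true]) ∧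
      tallyV w = true) ↔ ∃ v, (tallyF D n t).Sat v := by
  set g := bval (((enc D).bits ++ List.replicate B.bits.length false) ++ [true]) with hg
  have hBg : B ≤ g := by
    have h1 := lt_two_pow_bits B
    have h2 : 2 ^ B.bits.length ≤ 2 ^ ((enc D).bits ++ List.replicate B.bits.length false).length :=
      Nat.pow_le_pow_right (by omega) (by simp)
    have h3 : bval [true] = 1 := rfl
    rw [hg, bval_append, h3]
    omega
  have hR : tallyR g = D := by
    rw [tallyR, hg, tally_bits, List.append_assoc, PT.parse, PT.parse_bits]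
    exact Rd.rd_enc _
  have hV : ∀ w : Str, w.length = g →
      (tallyV w = true ↔ (tallyF D n t).Sat fun i => w.getD i false) := by
    intro w hw
    rw [tallyV, tallyE_iff, hw, hR, hn, ht, bval_bits, bval_bits, min_eq_left (by omega),
      min_eq_left (by omega)]
  refine ⟨fun ⟨w, hw, hv⟩ => ⟨_, (hV w hw).1 hv⟩, fun ⟨v, hv⟩ =>
    ⟨(List.range g).map v, by simp, (hV _ (by simp)).2 fun c hc => ?_⟩⟩
  obtain ⟨l, hl, el⟩ := hv c hc
  have h4 := CNF.lt_top hc hl
  have h5 : l.1 < g := by omega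
  exact ⟨l, hl, by simp [h5, el]⟩

theorem nnp_cand (v : Str) : ((bval v).bits ++ List.replicate v.length false).take v.length = v := by
  have : ∃ k, v = (bval v).bits ++ List.replicate k false := by
    rw [← foldr_normStep]
    induction v with
    | nil => exact ⟨0, rfl⟩
    | cons b l ih =>
      obtain ⟨k, hk⟩ := ih
      rw [List.foldr_cons]
      generalize l.foldr normStep [] = l' at hk
      subst hk
      cases l' <;> cases b
      · exact ⟨k + 1, rfl⟩
      all_goals exact ⟨k, rfl⟩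
  obtain ⟨k, hk⟩ := this
  generalize (bval v).bits = l at hk
  subst hk
  simp [List.take_append]

abbrev NnpM := List (List (TL ℕ) × TL ℕ) × ℕ × ℕ × List ℕ × (ℕ × ℕ × ℕ)

def nnpM (x : Str) : NnpM := rd (PT.parse x)

def nnpD (q : Str × ℕ) : TallyD :=
  ((nnpM q.1).1, (nnpM q.1).2.1, (nnpM q.1).2.2.1, (nnpM q.1).2.2.2.1, (nnpM q.1).2.2.2.2,
    (enc q.1).bits, (2 ^ q.2).bits, (2 ^ (q.2 * q.1.length)).bits)

theorem nexp_not_sub : ¬ ∀ L ∈ NEXP, L ∈ NP := by
  classical
  intro H
  let U : DecisionProblem := fun y => decide (∃ w : Str, w.length = bval y ∧ tallyV w = true)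
  have hU : U ∈ NEXP := nnp_mem (len := fun q => min (bval q.1) q.2) (R := fun q => tallyV q.2)
    (PTB.min_unary (PT.bval (by fun_prop)) (by fun_prop)) (tallyV_pt.comp (by fun_prop))
    fun y => by simp [U, min_eq_left (bval_lt y).le]
  obtain ⟨p, R, hR, e⟩ := np_exact (H U hU)
  obtain ⟨P, hP⟩ := (pt_top.comp tallyF_pt).pb_nat
  have hn : PTB fun q : Str × ℕ => 2 ^ q.2 := (PTB.const 2).pow (by fun_prop)
  have ht : PTB fun q : Str × ℕ => 2 ^ (q.2 * q.1.length) := (PTB.const 2).pow (by fun_prop)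
  have hM : PT fun q : Str × ℕ => nnpM q.1 := PT.rd (PT.parse'.comp (by fun_prop))
  have hD : PT nnpD := hM.fst.prodMk (hM.snd.fst.prodMk (hM.snd.snd.fst.prodMk
    (hM.snd.snd.snd.fst.prodMk (hM.snd.snd.snd.snd.prodMk
      (PT.prodMk (by fun_prop) (PT.prodMk hn ht))))))
  let B : Str × ℕ → ℕ := fun q => P.eval (sz (nnpD q) + 2 ^ q.2 + 2 ^ (q.2 * q.1.length) + 2) +
    2 ^ q.2 + 2 ^ (q.2 * q.1.length)
  have hB : PTB B := ((tally_poly ((((PTB.of_unary hD.sz').add hn).add ht).add
    (PTB.const 2)) P).add hn).add ht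
  let G : Str × ℕ → Str := fun q =>
    ((enc (nnpD q)).bits ++ List.replicate (B q).bits.length false) ++ [true]
  have hG : PT G := by
    have h1 : PT fun q => (B q).bits := hB
    have h2 : PT fun q => enc (nnpD q) := hD.enc'
    refine PT.append (PT.append ?_ (by fun_prop)) (PT.const _)
    exact PT.comp (g := T.bits) (by fun_prop) h2
  let A : DecisionProblem := fun x => U (G (x, 2 ^ x.length))
  have hA : A ∈ NEXP := nnp_mem (len := fun q => p.eval (G q).length)
    (R := fun q => R (G q.1, q.2)) (PT.poly_eval hG.length p)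
    (hR.comp ((hG.comp (by fun_prop)).prodMk (by fun_prop))) fun x => e _
  obtain ⟨p2, R2, hR2, e2⟩ := np_exact (H A hA)
  let R3 : Str × Str → Bool := fun z => !(List.range z.2.length).any fun i =>
    R2 (z.1, (i.bits ++ List.replicate (p2.eval z.1.length) false).take (p2.eval z.1.length))
  have hR3 : PT R3 := by
    have h1 : PT fun z : (Str × Str) × ℕ => p2.eval z.1.1.length := PT.poly_eval (by fun_prop) p2
    have h2 : PT fun z : (Str × Str) × ℕ => z.2.bits := PTB.of_unary (by fun_prop)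
    exact (PT.any (by fun_prop) (hR2.comp (PT.prodMk (by fun_prop)
      (PT.take h1 (h2.append (h1.replicate (PT.const _))))))).not
  have e3 : ∀ x w : Str, 2 ^ p2.eval x.length ≤ w.length → (R3 (x, w) = true ↔ ¬ A x = true) := by
    intro x w hw
    rw [e2]
    simp only [R3, Bool.not_eq_true', ← Bool.not_eq_true, List.any_eq_true, List.mem_range]
    refine not_congr ⟨fun ⟨i, _, h⟩ => ⟨_, by simp, h⟩, fun ⟨v, hv, h⟩ => ⟨bval v, ?_, ?_⟩⟩
    · have := bval_lt v
      rw [hv] at this
      omega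
    · rwa [← hv, nnp_cand]
  obtain ⟨Rl, d, q0, others, c0, r, e4⟩ := nnp_cl hR3
  obtain ⟨c, hc⟩ := nnp_pow r
  obtain ⟨m0, hm0⟩ := nnp_ev p2
  let M : NnpM := (Rl, d, q0, others, (c0 none, c0 (some true), c0 (some false)))
  let x : Str := (enc M).bits ++ List.replicate (m0 + 2 * c + 5) false
  have hx : m0 + 2 * c + 5 ≤ x.length := by simp [x]
  have hMx : nnpM x = M := by
    rw [nnpM, PT.parse, PT.parse_bits]
    exact Rd.rd_enc _
  clear_value x
  set k := 2 ^ x.length with hk
  have hF : tallyF (nnpD (x, k)) (2 ^ k) (2 ^ (k * x.length)) =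
      tableau Rl d q0 others c0 (enc x).bits (2 ^ k) (2 ^ (k * x.length)) := by
    simp only [tallyF, nnpD, hMx, M, tallyC_eq]
  have h1 : A x = true ↔ ∃ v, (tallyF (nnpD (x, k)) (2 ^ k) (2 ^ (k * x.length))).Sat v := by
    simp only [A, U, decide_eq_true_eq, ← hk]
    refine nnp_key (B := B (x, k)) (nnpD (x, k)) rfl rfl
      ((Nat.le_add_left _ _).trans (Nat.le_add_right _ _)) (Nat.le_add_left _ _) ?_
    have h2 := hP (nnpD (x, k), 2 ^ k, 2 ^ (k * x.length))
    have h4 : sz (nnpD (x, k), 2 ^ k, 2 ^ (k * x.length)) =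
        sz (nnpD (x, k)) + 2 ^ k + 2 ^ (k * x.length) + 2 := by
      simp only [sz_prod (nnpD (x, k), 2 ^ k, 2 ^ (k * x.length)),
        sz_prod (2 ^ k, 2 ^ (k * x.length)), sz_nat]
      omega
    rw [h4] at h2
    exact h2.trans ((Nat.le_add_right _ _).trans (Nat.le_add_right _ _))
  rw [hF] at h1
  have h2 : 2 ^ p2.eval x.length ≤ 2 ^ k := Nat.pow_le_pow_right (by omega) (hm0 _ (by omega))
  have h3 : r.eval ((enc x).bits.length + 2 ^ k) ≤ 2 ^ (k * x.length) := by
    have a1 : (enc x).bits.length ≤ 2 ^ k := by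
      have b1 := PT.sz_str_le x
      have b2 : x.length < k := Nat.lt_two_pow_self
      have b3 : k - 3 < 2 ^ (k - 3) := Nat.lt_two_pow_self
      have b4 : 2 ^ k = 2 ^ (k - 3) * 8 := by
        rw [show (8 : ℕ) = 2 ^ 3 from rfl, ← pow_add]; congr 1; omega
      rw [T.length_bits]
      unfold sz at b1
      omega
    have a2 : (enc x).bits.length + 2 ^ k ≤ 2 ^ (k + 1) := by rw [pow_succ]; omega
    have a3 : 0 < k := by positivity
    refine (peval_mono r a2).trans ((hc _ ?_).trans ?_)
    · exact le_self_pow₀ one_le_two (by omega)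
    · rw [← pow_mul]
      exact Nat.pow_le_pow_right (by omega) (by nlinarith)
  have h4 : ∀ w : Str, w.length = 2 ^ k → (¬ A x = true ↔ ∃ v : ℕ → Bool,
      (∀ i < w.length, w[i]? = some (v i)) ∧
      (tableau Rl d q0 others c0 (enc x).bits (2 ^ k) (2 ^ (k * x.length))).Sat v) := by
    intro w hw
    rw [← e3 x w (by omega), e4 x w (2 ^ (k * x.length)) (by rw [hw]; exact h3), hw]
  by_cases hAx : A x = true
  · obtain ⟨v, hv⟩ := h1.1 hAx
    refine (h4 ((List.range (2 ^ k)).map v) (by simp)).2 ⟨v, fun i hi => ?_, hv⟩ hAx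
    simp only [List.length_map, List.length_range] at hi
    simp [hi]
  · obtain ⟨v, -, hv⟩ := (h4 (List.replicate (2 ^ k) false) (by simp)).1 hAx
    exact hAx (h1.2 ⟨v, hv⟩)

/-- a complete problem for `NEXP` is neither in `NP` nor in `coNP` -/
theorem not_mem_NP {L : DecisionProblem} (h : IsCompleteFor NEXP L) : L ∉ NP ∧ L ∉ coNP := by
  refine ⟨fun hL => nexp_not_sub fun A hA => nnp_red (h.2 A hA) hL, fun hL => ?_⟩
  have key : ∀ A ∈ NEXP, Aᶜ ∈ NP := fun A hA => by
    obtain ⟨f, hf, e⟩ := h.2 A hA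
    exact nnp_red (B := Lᶜ) ⟨f, hf, fun x => by simp [e]⟩ hL
  exact nexp_not_sub fun A hA => by simpa using key _ (nnp_sub (key A hA))

end Pool.Agent.Lib.MP_685082_co.NX
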